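import Pool.Agent.SMI.Defs
import Pool.Agent.FTB.Cor

/-!
# SMI/Cvn: norms and principal ideals

PROOF of `cvn`.  `2 cv z = t + y √D i` (`co_exists`), so `4 cv z * conj (cv z) = t ^ 2 + D y ^ 2 =
4 absNorm (span {z})` (`co_norm`).
PROOF of `cvj`.  `co_exists`, `co_conj` and the definition of `Co`.
PROOF of `gnl`.  `ClassGroup.mk0_eq_one_iff` (see `els_gen` in FTB/Els.lean).
PROOF of `dvl`.  see `els_div` in FTB/Els.lean.
-/

set_option autoImplicit false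

namespace Pool.Agent.SMI

open NumberField Pool.Agent.FTA Pool.Agent.FTB Pool.Agent.SMQ nonZeroDivisors

theorem cvn (K : IntermediateField ℚ ℂ) [NumberField K] (h2 : Module.finrank ℚ K = 2)
    (him : ∃ x : K, (x : ℂ).im ≠ 0) (z : 𝓞 K) :
    cv K z * (starRingEnd ℂ) (cv K z) = ((Ideal.absNorm (Ideal.span {z}) : ℕ) : ℂ) := by
  have h := absNorm_span K h2 him z
  unfold cv
  rw [Complex.mul_conj, Complex.normSq_eq_norm_sq, ← h, Complex.ofReal_natCast]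

theorem cvj (K : IntermediateField ℚ ℂ) [NumberField K] (h2 : Module.finrank ℚ K = 2)
    (him : ∃ x : K, (x : ℂ).im ≠ 0) (z : 𝓞 K) :
    ∃ z' : 𝓞 K, cv K z' = (starRingEnd ℂ) (cv K z) ∧
      z * z' = ((Ideal.absNorm (Ideal.span {z}) : ℕ) : 𝓞 K) := by
  obtain ⟨t, y, hty⟩ := co_exists K h2 him z
  obtain ⟨z', hz', hm⟩ := co_conj K h2 him z t y hty
  refine ⟨z', ?_, hm⟩
  unfold Co at hty hz'
  have h1 := congrArg (starRingEnd ℂ) hty
  simp only [map_mul, map_add, Complex.conj_ofReal, Complex.conj_I] at h1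
  have e1 : (starRingEnd ℂ) (t : ℂ) = (t : ℂ) := by simp
  have e2 : (starRingEnd ℂ) (y : ℂ) = (y : ℂ) := by simp
  have e3 : (starRingEnd ℂ) (2 : ℂ) = 2 := map_ofNat _ 2
  rw [e1, e2, e3] at h1
  unfold cv
  have h3 : (2 : ℂ) * ((z' : K) : ℂ) = 2 * (starRingEnd ℂ) ((z : K) : ℂ) := by
    rw [hz', h1]
    push_cast
    ring
  exact mul_left_cancel₀ two_ne_zero h3

theorem gnl (K : IntermediateField ℚ ℂ) [NumberField K] (P : (Ideal (𝓞 K))⁰)
    (hP : ClassGroup.mk0 P = 1) : ∃ β : 𝓞 K, Ideal.span {β} = (P : Ideal (𝓞 K)) := by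
  have h1 : (P : Ideal (𝓞 K)).IsPrincipal := (ClassGroup.mk0_eq_one_iff P.2).1 hP
  obtain ⟨β, hβ⟩ := h1
  rw [← Ideal.span] at hβ
  exact ⟨β, hβ.symm⟩

theorem dvl (K : IntermediateField ℚ ℂ) [NumberField K] (x n : 𝓞 K)
    (P : Ideal (𝓞 K)) (hn : n ≠ 0) (h : Ideal.span {x} = Ideal.span {n} * P) :
    ∃ d : 𝓞 K, n * d = x ∧ Ideal.span {d} = P := by
  have h1 : x ∈ Ideal.span {n} := by
    have h2 : x ∈ Ideal.span {n} * P := by
      rw [← h]
      exact Ideal.mem_span_singleton_self x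
    exact (Ideal.mul_le_left : Ideal.span {n} * P ≤ Ideal.span {n}) h2
  obtain ⟨d, hd⟩ := Ideal.mem_span_singleton.1 h1
  refine ⟨d, hd.symm, ?_⟩
  rw [hd, ← Ideal.span_singleton_mul_span_singleton] at h
  have hn' : Ideal.span {n} ≠ 0 := by
    rw [Ne, Ideal.zero_eq_bot, Ideal.span_singleton_eq_bot]
    exact hn
  exact mul_left_cancel₀ hn' h

end Pool.Agent.SMI
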