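import Pool.Agent.SMI.Defs
import Pool.Agent.FTB.Cor
import Pool.Agent.FTB.ImZ

/-!
# SMI/Bas: a basis of a primitive ideal

PROOF.  `omg_exists` gives `w` with `Co K w t0 1`.
(0) If `Co K z t y` and `y = 0` then `z = (m : 𝓞 K)` for an integer `m` (`imz` with `n = 0`); applied to
`z - y * w` (coordinates `(t - y t0, 0)`): every `z` is `m + y * w`.
(1) The `y` with `Co K z t y` for some `z ∈ I` form a subgroup of `ℤ`, which contains `N ≥ 1` (`N ∈ I` by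
`Ideal.absNorm_mem`, so `N * w ∈ I`); let `d ≥ 1` be its generator (or its least positive element) and
`x ∈ I` with second coordinate `d`, `x = m1 + d w`.  If `(m : 𝓞 K) ∈ I` then `m w ∈ I`, so `d ∣ m`.
`x * w ∈ I` has second coordinate `m1 + d t0` (`co_mul`), so `d ∣ m1`, `x ∈ span {d}`.  For `z ∈ I` with
second coordinate `k d`, `z - k x ∈ I` is an integer `m` with `d ∣ m`; so `I ≤ span {d}`, and `d = 1` by `Pm`.
(2) `x0 = x`.  For `z ∈ I`, `Co K z t y`: `z - y x0 ∈ I` is an integer `m'`.  Every element of `𝓞 K ⧸ I` is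
the class of an integer (`z - y x0` is an integer by (0)), so `AddSubgroup.zmultiples (1 : 𝓞 K ⧸ I) = ⊤` and
`addOrderOf 1 = Nat.card (𝓞 K ⧸ I) = N`; as `m' • 1 = 0`, `N ∣ m'`.
(3) `co_norm`: `4 * absNorm (span {x0}) = b0 ^ 2 + D`, and `N ∣ absNorm (span {x0})`
(`Ideal.absNorm_dvd_absNorm_of_le`).
-/

set_option autoImplicit false

namespace Pool.Agent.SMI

open NumberField Pool.Agent.FTA Pool.Agent.FTB Pool.Agent.SMQ nonZeroDivisors

private theorem bas_add (K : IntermediateField ℚ ℂ) [NumberField K] (a b : 𝓞 K) (t y t' y' : ℤ)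
    (h : Co K a t y) (h' : Co K b t' y') : Co K (a + b) (t + t') (y + y') := by
  unfold Co at *
  push_cast
  rw [mul_add, h, h']
  ring

private theorem bas_mul (K : IntermediateField ℚ ℂ) [NumberField K] (a : 𝓞 K) (t y n : ℤ)
    (h : Co K a t y) : Co K ((n : 𝓞 K) * a) (n * t) (n * y) := by
  have hc : ((((n : ℤ) : 𝓞 K) : K) : ℂ) = (n : ℂ) := by simp
  unfold Co at *
  push_cast
  rw [hc, mul_left_comm, h]
  ring

private theorem bas_int (K : IntermediateField ℚ ℂ) [NumberField K] (z : ℤ) :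
    Co K (z : 𝓞 K) (2 * z) 0 := by
  have hc : ((((z : ℤ) : 𝓞 K) : K) : ℂ) = (z : ℂ) := by simp
  unfold Co
  rw [hc]
  push_cast
  ring

/-- every integer is `m + y w` -/
private theorem bas_zero (K : IntermediateField ℚ ℂ) [NumberField K]
    (h2 : Module.finrank ℚ K = 2) (him : ∃ x : K, (x : ℂ).im ≠ 0) (w : 𝓞 K) (t0 : ℤ)
    (hw : Co K w t0 1) (z : 𝓞 K) (t y : ℤ) (h : Co K z t y) :
    ∃ m : ℤ, z = (m : 𝓞 K) + (y : 𝓞 K) * w := by
  have h1 := bas_add K _ _ _ _ _ _ h (bas_mul K w t0 1 (-y) hw)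
  have h0 : y + -y * 1 = 0 := by ring
  rw [h0] at h1
  obtain ⟨m, x, hm⟩ := imz K h2 him _ _ _ 0 h1 (dvd_refl 0)
  refine ⟨m, ?_⟩
  have e : z = (z + ((-y : ℤ) : 𝓞 K) * w) + (y : 𝓞 K) * w := by
    push_cast
    ring
  rw [e, hm]
  push_cast
  ring

/-- the second coordinates of the elements of an ideal -/
private def bas_H (K : IntermediateField ℚ ℂ) [NumberField K] (w : 𝓞 K) (I : Ideal (𝓞 K)) :
    Ideal ℤ where
  carrier := {y | ∃ m : ℤ, (m : 𝓞 K) + (y : 𝓞 K) * w ∈ I}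
  add_mem' := by
    rintro y y' ⟨m, hm⟩ ⟨m', hm'⟩
    refine ⟨m + m', ?_⟩
    have h := I.add_mem hm hm'
    convert h using 1
    push_cast
    ring
  zero_mem' := ⟨0, by simp⟩
  smul_mem' := by
    rintro c y ⟨m, hm⟩
    refine ⟨c * m, ?_⟩
    have h := I.mul_mem_left (c : 𝓞 K) hm
    convert h using 1
    rw [smul_eq_mul]
    push_cast
    ring

private theorem bas_mem (K : IntermediateField ℚ ℂ) [NumberField K] (w : 𝓞 K) (I : Ideal (𝓞 K))
    (y : ℤ) : y ∈ bas_H K w I ↔ ∃ m : ℤ, (m : 𝓞 K) + (y : 𝓞 K) * w ∈ I := Iff.rfl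

/-- a primitive ideal contains an element with second coordinate `1` -/
private theorem bas_one (K : IntermediateField ℚ ℂ) [NumberField K]
    (h2 : Module.finrank ℚ K = 2) (him : ∃ x : K, (x : ℂ).im ≠ 0) (w : 𝓞 K) (t0 : ℤ)
    (hw : Co K w t0 1) (I : (Ideal (𝓞 K))⁰) (hI : Pm K I)
    (N : ℕ) (hN1 : 1 ≤ N) (hN : Ideal.absNorm (I : Ideal (𝓞 K)) = N) :
    ∃ m1 : ℤ, (m1 : 𝓞 K) + w ∈ (I : Ideal (𝓞 K)) := by
  obtain ⟨d, hd⟩ := (IsPrincipalIdealRing.principal (bas_H K w (I : Ideal (𝓞 K)))).principal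
  have hmem : ∀ y : ℤ, y ∈ bas_H K w (I : Ideal (𝓞 K)) ↔ d ∣ y := by
    intro y
    rw [hd]
    exact Ideal.mem_span_singleton
  have hNI : ((N : ℕ) : 𝓞 K) ∈ (I : Ideal (𝓞 K)) := by
    rw [← hN]
    exact Ideal.absNorm_mem _
  -- an integer of the ideal is divisible by `d`
  have hint : ∀ m : ℤ, (m : 𝓞 K) ∈ (I : Ideal (𝓞 K)) → d ∣ m := by
    intro m hm
    rw [← hmem, bas_mem]
    refine ⟨0, ?_⟩
    have h := (I : Ideal (𝓞 K)).mul_mem_right w hm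
    convert h using 1
    push_cast
    ring
  have hd0 : d ≠ 0 := by
    intro h
    have h1 := hint (N : ℤ) (by exact_mod_cast hNI)
    rw [h, zero_dvd_iff] at h1
    omega
  -- the generator
  obtain ⟨m1, hm1⟩ := (bas_mem K w _ d).1 ((hmem d).2 (dvd_refl d))
  obtain ⟨T, Y, hTY⟩ := co_exists K h2 him (w * w)
  have hY := (co_mul K w w t0 1 t0 1 T Y hw hw hTY).2
  obtain ⟨m2, hm2⟩ := bas_zero K h2 him w t0 hw _ _ _ hTY
  have hYt : Y = t0 := by linarith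
  have hdm1 : d ∣ m1 := by
    have h1 : d ∣ m1 + d * t0 := by
      rw [← hmem, bas_mem]
      refine ⟨d * m2, ?_⟩
      have h := (I : Ideal (𝓞 K)).mul_mem_right w hm1
      convert h using 1
      have e : ((m1 : 𝓞 K) + (d : 𝓞 K) * w) * w = (m1 : 𝓞 K) * w + (d : 𝓞 K) * (w * w) := by ring
      rw [e, hm2, hYt]
      push_cast
      ring
    exact (dvd_add_left (dvd_mul_right d t0)).1 h1
  have hle : (I : Ideal (𝓞 K)) ≤ Ideal.span {((d.natAbs : ℕ) : 𝓞 K)} := by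
    intro z hz
    obtain ⟨t, y, hty⟩ := co_exists K h2 him z
    obtain ⟨m, hm⟩ := bas_zero K h2 him w t0 hw z t y hty
    have hy : d ∣ y := by
      rw [← hmem, bas_mem]
      exact ⟨m, by rw [← hm]; exact hz⟩
    obtain ⟨k, hk⟩ := hy
    have hm' : d ∣ m := by
      have h1 : d ∣ m - k * m1 := by
        apply hint
        have h := (I : Ideal (𝓞 K)).sub_mem hz ((I : Ideal (𝓞 K)).mul_mem_left (k : 𝓞 K) hm1)
        convert h using 1
        rw [hm, hk]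
        push_cast
        ring
      have h3 : d ∣ k * m1 := Dvd.dvd.mul_left hdm1 k
      have h4 := dvd_add h1 h3
      rwa [sub_add_cancel] at h4
    obtain ⟨m', hm'⟩ := hm'
    have hz' : (d : 𝓞 K) ∣ z := by
      refine ⟨(m' : 𝓞 K) + (k : 𝓞 K) * w, ?_⟩
      rw [hm, hm', hk]
      push_cast
      ring
    rw [Ideal.mem_span_singleton]
    have h5 : ((d.natAbs : ℕ) : 𝓞 K) ∣ (d : 𝓞 K) := by
      generalize hn : d.natAbs = n
      rcases Int.natAbs_eq d with h | h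
      · refine ⟨1, ?_⟩
        rw [h, hn]
        push_cast
        ring
      · refine ⟨-1, ?_⟩
        rw [h, hn]
        push_cast
        ring
    exact h5.trans hz'
  have hd1 : d.natAbs = 1 := by
    have h1 := hI d.natAbs
    have h3 : d.natAbs ≠ 0 := Int.natAbs_ne_zero.2 hd0
    by_contra hne
    exact h1 (by omega) hle
  have h1 : (1 : ℤ) ∈ bas_H K w (I : Ideal (𝓞 K)) := by
    rw [hmem]
    exact Int.isUnit_iff_natAbs_eq.2 hd1 |>.dvd
  obtain ⟨m, hm⟩ := (bas_mem K w _ 1).1 h1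
  refine ⟨m, ?_⟩
  convert hm using 1
  push_cast
  ring

/-- an integer of the ideal is divisible by the norm -/
private theorem bas_nrm (K : IntermediateField ℚ ℂ) [NumberField K]
    (h2 : Module.finrank ℚ K = 2) (him : ∃ x : K, (x : ℂ).im ≠ 0) (w : 𝓞 K) (t0 : ℤ)
    (hw : Co K w t0 1) (I : (Ideal (𝓞 K))⁰) (m1 : ℤ) (hm1 : (m1 : 𝓞 K) + w ∈ (I : Ideal (𝓞 K)))
    (m : ℤ) (hm : (m : 𝓞 K) ∈ (I : Ideal (𝓞 K))) :
    ((Ideal.absNorm (I : Ideal (𝓞 K)) : ℕ) : ℤ) ∣ m := by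
  have hall : ∀ q : 𝓞 K ⧸ (I : Ideal (𝓞 K)), q ∈ AddSubgroup.zmultiples (1 : 𝓞 K ⧸ (I : Ideal (𝓞 K))) := by
    intro q
    obtain ⟨z, rfl⟩ := Ideal.Quotient.mk_surjective q
    obtain ⟨t, y, hty⟩ := co_exists K h2 him z
    obtain ⟨n, hn⟩ := bas_zero K h2 him w t0 hw z t y hty
    rw [AddSubgroup.mem_zmultiples_iff]
    refine ⟨n - y * m1, ?_⟩
    have e : (n - y * m1) • (1 : 𝓞 K ⧸ (I : Ideal (𝓞 K))) =
        Ideal.Quotient.mk (I : Ideal (𝓞 K)) ((n - y * m1 : ℤ) : 𝓞 K) := by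
      rw [zsmul_eq_mul, mul_one, map_intCast]
    rw [e, Ideal.Quotient.eq]
    have h := (I : Ideal (𝓞 K)).mul_mem_left (-(y : 𝓞 K)) hm1
    convert h using 1
    rw [hn]
    push_cast
    ring
  have h3 := addOrderOf_eq_card_of_forall_mem_zmultiples hall
  rw [Ideal.absNorm_apply, Submodule.cardQuot_apply, ← h3, addOrderOf_dvd_iff_zsmul_eq_zero,
    zsmul_eq_mul, mul_one, ← map_intCast (Ideal.Quotient.mk (I : Ideal (𝓞 K))),
    Ideal.Quotient.eq_zero_iff_mem]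
  exact hm

theorem bas (K : IntermediateField ℚ ℂ) [NumberField K] (h2 : Module.finrank ℚ K = 2)
    (him : ∃ x : K, (x : ℂ).im ≠ 0) (I : (Ideal (𝓞 K))⁰) (hI : Pm K I)
    (N : ℕ) (hN1 : 1 ≤ N) (hN : Ideal.absNorm (I : Ideal (𝓞 K)) = N) :
    ∃ (x0 : 𝓞 K) (b0 : ℤ), x0 ∈ (I : Ideal (𝓞 K)) ∧ Co K x0 b0 1 ∧
      (∀ z ∈ (I : Ideal (𝓞 K)), ∀ t y : ℤ, Co K z t y →
        ∃ m : ℤ, z = (m : 𝓞 K) * (N : 𝓞 K) + (y : 𝓞 K) * x0) ∧
      4 * (N : ℤ) ∣ b0 ^ 2 + (aD K : ℤ) := by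
  obtain ⟨w, t0, hw⟩ := omg_exists K h2 him
  obtain ⟨m1, hm1⟩ := bas_one K h2 him w t0 hw I hI N hN1 hN
  have hco : Co K ((m1 : 𝓞 K) + w) (2 * m1 + t0) 1 := by
    have h := bas_add K _ _ _ _ _ _ (bas_int K m1) hw
    simpa using h
  refine ⟨(m1 : 𝓞 K) + w, 2 * m1 + t0, hm1, hco, ?_, ?_⟩
  · intro z hz t y hty
    obtain ⟨m, hm⟩ := bas_zero K h2 him w t0 hw z t y hty
    have h1 : ((m - y * m1 : ℤ) : 𝓞 K) ∈ (I : Ideal (𝓞 K)) := by
      have h := (I : Ideal (𝓞 K)).sub_mem hz ((I : Ideal (𝓞 K)).mul_mem_left (y : 𝓞 K) hm1)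
      convert h using 1
      rw [hm]
      push_cast
      ring
    have h3 := bas_nrm K h2 him w t0 hw I m1 hm1 _ h1
    rw [hN] at h3
    obtain ⟨k, hk⟩ := h3
    refine ⟨k, ?_⟩
    have h4 : m = N * k + y * m1 := by linarith
    rw [hm, h4]
    push_cast
    ring
  · have h3 := co_norm K h2 him _ _ _ hco
    have h4 : Ideal.absNorm (I : Ideal (𝓞 K)) ∣
        Ideal.absNorm (Ideal.span {(m1 : 𝓞 K) + w}) :=
      Ideal.absNorm_dvd_absNorm_of_le ((Ideal.span_singleton_le_iff_mem _).2 hm1)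
    rw [hN] at h4
    obtain ⟨k, hk⟩ := h4
    refine ⟨k, ?_⟩
    rw [hk] at h3
    push_cast at h3
    linarith

end Pool.Agent.SMI
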