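import Pool.Agent.SMI.Defs
import Pool.Agent.FTB.CMn

/-!
# SMI/Mnc: ideals of minimal norm and their conjugates

PROOF of `mnc`.  Let `mk0 J' = mk0 J`.  `cpl` gives `J1` with `absNorm J1 = absNorm J'` and
`mk0 J1 = (mk0 J')⁻¹ = mk0 I`; so `absNorm J = absNorm I ≤ absNorm J1 = absNorm J'`.
PROOF of `mnd`.  `cmn` gives `I'` in the same class with `(absNorm I') ^ 2 ≤ aD K`, and
`absNorm I ≤ absNorm I'`.
PROOF of `cin`.  `cpl` and `mnc`; `absNorm I ≠ 0` as `I ≠ 0`.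
PROOF of `cim`.  `prm1`.
PROOF of `mnl`.  `span {x} ≤ I`, so `span {x} = I * X` (`Ideal.dvd_iff_le`), `X ≠ 0`;
`1 = mk0 (span {x}) = mk0 I * mk0 X`, so `mk0 X = mk0 J` and `N = absNorm J ≤ absNorm X` (`mJ`);
`absNorm (span {x}) = absNorm I * absNorm X ≥ N ^ 2`.
-/

set_option autoImplicit false

namespace Pool.Agent.SMI

open NumberField Pool.Agent.FTA Pool.Agent.FTB Pool.Agent.SMQ nonZeroDivisors

theorem mnc (K : IntermediateField ℚ ℂ) [NumberField K] (h2 : Module.finrank ℚ K = 2)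
    (I J : (Ideal (𝓞 K))⁰) (hI : MinI K I) (hc : ClassGroup.mk0 J = (ClassGroup.mk0 I)⁻¹)
    (hn : Ideal.absNorm (J : Ideal (𝓞 K)) = Ideal.absNorm (I : Ideal (𝓞 K))) : MinI K J := by
  intro J' hJ'
  obtain ⟨J1, -, h1, h3⟩ := cpl K h2 J'
  rw [hn, ← h1]
  exact hI J1 (by rw [h3, hJ', hc, inv_inv])

theorem mnd (K : IntermediateField ℚ ℂ) [NumberField K] (h2 : Module.finrank ℚ K = 2)
    (I : (Ideal (𝓞 K))⁰) (hI : MinI K I) :
    (Ideal.absNorm (I : Ideal (𝓞 K))) ^ 2 ≤ aD K := by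
  obtain ⟨I', h1, h3, -⟩ := cmn K h2 (ClassGroup.mk0 I)
  exact (Nat.pow_le_pow_left (hI I' h1) 2).trans h3

theorem cin (K : IntermediateField ℚ ℂ) [NumberField K] (h2 : Module.finrank ℚ K = 2)
    (I : (Ideal (𝓞 K))⁰) (hI : MinI K I) :
    ∃ J : (Ideal (𝓞 K))⁰, CI K I J (Ideal.absNorm (I : Ideal (𝓞 K))) := by
  obtain ⟨J, h1, h3, h4⟩ := cpl K h2 I
  have hN : Ideal.absNorm (I : Ideal (𝓞 K)) ≠ 0 := by
    rw [Ne, Ideal.absNorm_eq_zero_iff]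
    exact nonZeroDivisors.coe_ne_zero I
  exact ⟨J, Nat.one_le_iff_ne_zero.2 hN, rfl, h3, h1, h4, hI, mnc K h2 I J hI h4 h3⟩

theorem cim (K : IntermediateField ℚ ℂ) [NumberField K] (h2 : Module.finrank ℚ K = 2)
    (I J : (Ideal (𝓞 K))⁰) (N : ℕ) (h : CI K I J N) : Pm K I := by
  intro n hn
  exact prm1 K h2 I h.mI n hn

theorem mnl (K : IntermediateField ℚ ℂ) [NumberField K]
    (I J : (Ideal (𝓞 K))⁰) (N : ℕ) (h : CI K I J N) (x : 𝓞 K) (hx : x ∈ (I : Ideal (𝓞 K)))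
    (hx0 : x ≠ 0) : N ^ 2 ≤ Ideal.absNorm (Ideal.span {x}) := by
  obtain ⟨X, hX⟩ := Ideal.dvd_iff_le.2 ((Ideal.span_singleton_le_iff_mem _).2 hx)
  have hS0 : Ideal.span {x} ≠ 0 := by
    rw [Ne, Ideal.zero_eq_bot, Ideal.span_singleton_eq_bot]
    exact hx0
  have hX0 : X ≠ 0 := by
    rintro rfl
    rw [mul_zero] at hX
    exact hS0 hX
  let S' : (Ideal (𝓞 K))⁰ := ⟨Ideal.span {x}, mem_nonZeroDivisors_iff_ne_zero.2 hS0⟩
  let X' : (Ideal (𝓞 K))⁰ := ⟨X, mem_nonZeroDivisors_iff_ne_zero.2 hX0⟩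
  have hSX : S' = I * X' := Subtype.ext hX
  have hS1 : ClassGroup.mk0 S' = 1 := by
    rw [ClassGroup.mk0_eq_one_iff]
    exact ⟨x, rfl⟩
  have hXC : ClassGroup.mk0 X' = ClassGroup.mk0 J := by
    rw [h.cJ]
    apply eq_inv_of_mul_eq_one_right
    rw [← map_mul, ← hSX, hS1]
  have h1 := h.mJ X' hXC
  rw [h.nJ] at h1
  have h3 : Ideal.absNorm (X' : Ideal (𝓞 K)) = Ideal.absNorm X := rfl
  rw [h3] at h1
  rw [hX, map_mul, h.nI, pow_two]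
  exact Nat.mul_le_mul_left N h1

end Pool.Agent.SMI
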