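import Pool.Agent.FTB.DefsI
import Pool.Agent.SMQ.Defs

/-!
# SMI: from the classes to the integers (ideal half of the second moment of the 3-torsion)

`K` is an imaginary quadratic field, `D = aD K = |D_K|`.  `Co K a t y` means `2 a = t + y √D i`.
-/

set_option autoImplicit false

namespace Pool.Agent.SMI

open NumberField Pool.Agent.FTA Pool.Agent.FTB Pool.Agent.SMQ nonZeroDivisors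

/-- `A`, `B` are independent elements of order 3 -/
def Ind {G : Type*} [CommGroup G] (A B : G) : Prop :=
  A ^ 3 = 1 ∧ B ^ 3 = 1 ∧ A ≠ 1 ∧ B ≠ 1 ∧ A ≠ B ∧ A * B ≠ 1

/-- `(G, p, y, g)` is a witness of the pair `(A, B)` of classes of `K` -/
def Wit (K : IntermediateField ℚ ℂ) [NumberField K] (A B : ClassGroup (𝓞 K)) (G : ℕ) (p : ℤ)
    (y g : V3) : Prop :=
  ∃ (I J : (Ideal (𝓞 K))⁰) (α β : 𝓞 K) (N1 : ℕ) (x1 x2 : ℤ),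
    ClassGroup.mk0 I = A ∧ ClassGroup.mk0 J = B ∧
    (I : Ideal (𝓞 K)) ^ 3 = Ideal.span {α} ∧ (J : Ideal (𝓞 K)) ^ 3 = Ideal.span {β} ∧
    Co K α x1 (G * y.1) ∧ Co K β x2 (G * y.2.1) ∧
    1 ≤ G ∧ De p y ≠ 0 ∧ y.1 ≠ 0 ∧
    (N1 : ℤ) * De p y = y.1 * g.2.1 * g.2.2 - p * g.1 ^ 2 ∧
    4 * (N1 : ℤ) ^ 3 = x1 ^ 2 + (aD K : ℤ) * ((G : ℤ) * y.1) ^ 2 ∧
    x1 * De p y ^ 2 = 3 * p ^ 2 * y.1 * (g.1 * g.2.1 * g.2.2) -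
      y.1 ^ 2 * (y.2.1 * g.2.2 ^ 3 + y.2.2 * g.2.1 ^ 3) +
      (y.1 * y.2.1 * y.2.2 - 2 * p ^ 3) * g.1 ^ 3 ∧
    x2 * De p y ^ 2 = 3 * p ^ 2 * y.2.1 * (g.1 * g.2.1 * g.2.2) -
      y.2.1 ^ 2 * (y.2.2 * g.1 ^ 3 + y.1 * g.2.2 ^ 3) +
      (y.1 * y.2.1 * y.2.2 - 2 * p ^ 3) * g.2.1 ^ 3

/-- the conditions on the index `1` of the integers of a triple (not divided by the content);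
`2 π = xp + p √-D`, `2 αᵢ = xᵢ + yᵢ √-D`, `2 γᵢ = rᵢ + gᵢ √-D`, and `(aᵢ)`, `(bᵢ)` are the coordinates of
`β₁, β₂, β₃` in a basis of the fourth ideal -/
structure U1 (D N1 N2 N3 N4 : ℕ) (p xp x1 x2 x3 y1 y2 y3 g1 g2 g3 r1 r2 r3 : ℤ)
    (a1 a2 a3 b1 b2 b3 : ℤ) : Prop where
  hN : 1 ≤ N1
  hD : N1 ^ 2 ≤ D
  hy : y1 ≠ 0
  k12 : x1 * y2 ≠ x2 * y1
  ny : 4 * (N1 : ℤ) ^ 3 = x1 ^ 2 + (D : ℤ) * y1 ^ 2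
  ng : 4 * ((N1 : ℤ) ^ 2 * N2 * N3) = r1 ^ 2 + (D : ℤ) * g1 ^ 2
  rel2 : 2 * ((N1 : ℤ) * g1) = y1 * xp - x1 * p
  rel3 : -2 * ((N2 : ℤ) * N3 * g1) = r2 * g3 + r3 * g2
  mm : (N1 : ℤ) * (y1 * y2 * y3 - p ^ 3) = y1 * g2 * g3 - p * g1 ^ 2
  kk : 2 * (y1 * g2 ^ 3 - y2 * g1 ^ 3) = (y1 * y2 * y3 - p ^ 3) * (y1 * x2 - y2 * x1)
  xx : x1 * (y1 * y2 * y3 - p ^ 3) ^ 2 = 3 * p ^ 2 * y1 * (g1 * g2 * g3) -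
    y1 ^ 2 * (y2 * g3 ^ 3 + y3 * g2 ^ 3) + (y1 * y2 * y3 - 2 * p ^ 3) * g1 ^ 3
  gc : ∀ n : ℤ, n ∣ p → n ∣ y1 → n ∣ g1
  cr : g1 = a2 * b3 - a3 * b2
  lb : ∀ s t : ℤ, (s ≠ 0 ∨ t ≠ 0) → √(N4 : ℝ) * |(g1 : ℝ)| ≤
    √(N1 : ℝ) * (|((s * a2 + t * b2 : ℤ) : ℝ)| * √(N2 : ℝ) +
      |((s * a3 + t * b3 : ℤ) : ℝ)| * √(N3 : ℝ))
  /-- a prime power dividing `p, y₁, y₂`, not `y₃` -/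
  lo : ∀ (l r : ℕ), l.Prime → (l : ℤ) ^ (r + 1) ∣ p → (l : ℤ) ^ (r + 1) ∣ y1 →
    (l : ℤ) ^ (r + 1) ∣ y2 → ¬ (l : ℤ) ^ (r + 1) ∣ y3 →
    r = 0 ∧ ¬ (l : ℤ) ^ 2 ∣ y1 ∧ ¬ (l : ℤ) ^ 2 ∣ y2 ∧ (l : ℤ) ∣ g1 ∧ (l : ℤ) ∣ g2 ∧ (l : ℤ) ∣ g3
  nn : ∀ l : ℕ, l.Prime → (l ∣ D ∨ (l : ℤ) ∣ y1) → ¬ l ^ 2 ∣ N1

/-- the integers of a triple -/
structure Uq (D : ℕ) (p xp : ℤ) (x y g r : V3) (N : ℕ × ℕ × ℕ) (N4 : ℕ) (u v : V3) : Prop where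
  np : 4 * ((N.1 : ℤ) * N.2.1 * N.2.2) = xp ^ 2 + (D : ℤ) * p ^ 2
  ll : 2 * (p ^ 2 * ((N.1 : ℤ) * (g.2.1 * g.2.2) ^ 2 + (N.2.1 : ℤ) * (g.2.2 * g.1) ^ 2 +
      (N.2.2 : ℤ) * (g.1 * g.2.1) ^ 2) - (g.1 * g.2.1 * g.2.2) ^ 2) =
    (y.1 * y.2.1 * y.2.2 - p ^ 3) * (p * (r.1 * g.2.1 * g.2.2 + r.2.1 * g.2.2 * g.1 +
      r.2.2 * g.1 * g.2.1) - xp * (g.1 * g.2.1 * g.2.2))
  zz : (3 * ((N.1 : ℤ) * N.2.1 * N.2.2) - (D : ℤ) * p ^ 2) * (y.1 * y.2.1 * y.2.2 - p ^ 3) =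
    xp * ((N.1 : ℤ) * g.1 * y.2.1 * y.2.2 + (N.2.1 : ℤ) * g.2.1 * y.2.2 * y.1 +
      (N.2.2 : ℤ) * g.2.2 * y.1 * y.2.1) -
    ((N.1 : ℤ) * N.2.1 * g.1 * g.2.1 * y.2.2 + (N.2.1 : ℤ) * N.2.2 * g.2.1 * g.2.2 * y.1 +
      (N.2.2 : ℤ) * N.1 * g.2.2 * g.1 * y.2.1)
  e1 : U1 D N.1 N.2.1 N.2.2 N4 p xp x.1 x.2.1 x.2.2 y.1 y.2.1 y.2.2 g.1 g.2.1 g.2.2
    r.1 r.2.1 r.2.2 u.1 u.2.1 u.2.2 v.1 v.2.1 v.2.2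
  e2 : U1 D N.2.1 N.2.2 N.1 N4 p xp x.2.1 x.2.2 x.1 y.2.1 y.2.2 y.1 g.2.1 g.2.2 g.1
    r.2.1 r.2.2 r.1 u.2.1 u.2.2 u.1 v.2.1 v.2.2 v.1
  e3 : U1 D N.2.2 N.1 N.2.1 N4 p xp x.2.2 x.1 x.2.1 y.2.2 y.1 y.2.1 g.2.2 g.1 g.2.1
    r.2.2 r.1 r.2.1 u.2.2 u.1 u.2.1 v.2.2 v.1 v.2.1

/-- `I` is primitive -/
def Pm (K : IntermediateField ℚ ℂ) [NumberField K] (I : (Ideal (𝓞 K))⁰) : Prop :=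
  ∀ n : ℕ, 2 ≤ n → ¬ ((I : Ideal (𝓞 K)) ≤ Ideal.span {(n : 𝓞 K)})

/-- an ideal `I` of minimal norm `N ≥ 1` and its conjugate `J` -/
structure CI (K : IntermediateField ℚ ℂ) [NumberField K]
    (I J : (Ideal (𝓞 K))⁰) (N : ℕ) : Prop where
  n1 : 1 ≤ N
  nI : Ideal.absNorm (I : Ideal (𝓞 K)) = N
  nJ : Ideal.absNorm (J : Ideal (𝓞 K)) = N
  IJ : (I : Ideal (𝓞 K)) * (J : Ideal (𝓞 K)) = Ideal.span {(N : 𝓞 K)}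
  cJ : ClassGroup.mk0 J = (ClassGroup.mk0 I)⁻¹
  mI : MinI K I
  mJ : MinI K J

/-- the embedding of `𝓞 K` in `ℂ` -/
noncomputable def cv (K : IntermediateField ℚ ℂ) [NumberField K] (z : 𝓞 K) : ℂ := ((z : K) : ℂ)

/-- the elements attached to a triple of ideals, index `1` -/
structure E1 (K : IntermediateField ℚ ℂ) [NumberField K] (I1 I2 I3 J1 J2 J3 E : (Ideal (𝓞 K))⁰)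
    (N1 N2 N3 N4 : ℕ) (π β1 β2 β3 γ1 γ2 γ3 α1 : 𝓞 K) : Prop where
  sb : Ideal.span {β1} = (E : Ideal (𝓞 K)) * (J2 : Ideal (𝓞 K)) * (I3 : Ideal (𝓞 K))
  sg : Ideal.span {γ1} = (I1 : Ideal (𝓞 K)) ^ 2 * ((J2 : Ideal (𝓞 K)) * (J3 : Ideal (𝓞 K)))
  sa : Ideal.span {α1} = (I1 : Ideal (𝓞 K)) ^ 3
  nb : cv K β1 * (starRingEnd ℂ) (cv K β1) = (N4 : ℂ) * N2 * N3
  qg : (N4 : ℂ) * cv K γ1 = cv K β2 * (starRingEnd ℂ) (cv K β3)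
  qa : (N2 : ℂ) * N3 * cv K α1 = cv K π * cv K γ1

/-- the elements attached to a triple of ideals -/
structure El (K : IntermediateField ℚ ℂ) [NumberField K] (I1 I2 I3 J1 J2 J3 E : (Ideal (𝓞 K))⁰)
    (N1 N2 N3 N4 : ℕ) (π β1 β2 β3 γ1 γ2 γ3 α1 α2 α3 : 𝓞 K) : Prop where
  sp : Ideal.span {π} = (I1 : Ideal (𝓞 K)) * (I2 : Ideal (𝓞 K)) * (I3 : Ideal (𝓞 K))
  np : cv K π * (starRingEnd ℂ) (cv K π) = (N1 : ℂ) * N2 * N3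
  e1 : E1 K I1 I2 I3 J1 J2 J3 E N1 N2 N3 N4 π β1 β2 β3 γ1 γ2 γ3 α1
  e2 : E1 K I2 I3 I1 J2 J3 J1 E N2 N3 N1 N4 π β2 β3 β1 γ2 γ3 γ1 α2
  e3 : E1 K I3 I1 I2 J3 J1 J2 E N3 N1 N2 N4 π β3 β1 β2 γ3 γ1 γ2 α3

end Pool.Agent.SMI
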