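import Pool.Agent.SMI.Defs
import Pool.Agent.FTB.Cor
import Pool.Agent.FTB.ImZ
import Pool.Agent.FTA.IntDiv

/-!
# SMI/Itl: division by a prime

PROOF of `itl`.  As FTA/IntDiv.lean (`intDiv`), without the parity: let `A = ((a : K) : ℂ)`; `t = n t'`,
`absNorm (span {a}) = n ^ 2 ν'`.  `A + conj A = t` and `A * conj A = absNorm (span {a})` (from `Co`:
`2 A = t + y √D i`, and `co_norm`).  So `β = (a : K) / n` is a root of `X ^ 2 - t' X + ν'`, `β` is integral
over `ℤ` and `a = n β`.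
PROOF of `itd`.  `co_norm`: `t ^ 2 + D y ^ 2 = 4 absNorm (span {a})`, `l ∣ D`, `l ^ 2 ∣ absNorm`: `l ∣ t ^ 2`,
`l ∣ t`; `itl` gives `a = l b`; coordinates `(t', y')` of `b` (`co_exists`) and `co_nat`, `co_unique`
give `y = l y'`.
-/

set_option autoImplicit false

namespace Pool.Agent.SMI

open NumberField Pool.Agent.FTA Pool.Agent.FTB Pool.Agent.SMQ nonZeroDivisors

theorem itl (K : IntermediateField ℚ ℂ) [NumberField K] (h2 : Module.finrank ℚ K = 2)
    (him : ∃ x : K, (x : ℂ).im ≠ 0) (a : 𝓞 K) (t y : ℤ) (h : Co K a t y)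
    (n : ℕ) (hn : 1 ≤ n) (ht : (n : ℤ) ∣ t) (hN : n ^ 2 ∣ Ideal.absNorm (Ideal.span {a})) :
    ∃ b : 𝓞 K, a = (n : 𝓞 K) * b := by
  have hn0 : n ≠ 0 := by omega
  obtain ⟨t', rfl⟩ := ht
  obtain ⟨ν', hν'⟩ := hN
  unfold Co at h
  set A : ℂ := ((a : K) : ℂ) with hA
  have hre : 2 * A.re = (((n : ℤ) * t' : ℤ) : ℝ) := by
    have h1 := congrArg Complex.re h
    simp only [Complex.mul_re, Complex.add_re, Complex.intCast_re, Complex.intCast_im,
      Complex.ofReal_re, Complex.ofReal_im, Complex.I_re, Complex.I_im, Complex.mul_im,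
      Complex.re_ofNat, Complex.im_ofNat] at h1
    linarith
  have hprod : ((Ideal.absNorm (Ideal.span {a}) : ℕ) : ℂ) = A * (starRingEnd ℂ) A := by
    have h1 := absNorm_span K h2 him a
    rw [Complex.mul_conj, Complex.normSq_eq_norm_sq, hA, ← h1]
    push_cast
    rfl
  have hnK : (n : K) ≠ 0 := by exact_mod_cast hn0
  have hquad : (a : K) ^ 2 - ((n : K) * (t' : K)) * (a : K) + (n : K) ^ 2 * (ν' : K) = 0 := by
    have h5 : A ^ 2 - (((n : ℤ) * t' : ℤ) : ℂ) * A +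
        ((Ideal.absNorm (Ideal.span {a}) : ℕ) : ℂ) = 0 := by
      have h6 : (((n : ℤ) * t' : ℤ) : ℂ) = A + (starRingEnd ℂ) A := by
        apply Complex.ext
        · rw [Complex.intCast_re, Complex.add_re, Complex.conj_re, ← hre]; ring
        · rw [Complex.intCast_im, Complex.add_im, Complex.conj_im]; ring
      rw [h6, hprod]
      ring
    rw [hν'] at h5
    apply Subtype.ext
    push_cast at h5 ⊢
    rw [← h5]
  have hint : IsIntegral ℤ ((a : K) / (n : K)) := by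
    refine ⟨Polynomial.X ^ 2 - Polynomial.C t' * Polynomial.X + Polynomial.C (ν' : ℤ), ?_, ?_⟩
    · monicity!
    · rw [Polynomial.eval₂_add, Polynomial.eval₂_sub, Polynomial.eval₂_mul, Polynomial.eval₂_pow,
        Polynomial.eval₂_X, Polynomial.eval₂_C, Polynomial.eval₂_C]
      simp only [algebraMap_int_eq, eq_intCast, Int.cast_natCast]
      field_simp
      linear_combination hquad
  obtain ⟨b, hb⟩ : ∃ b : 𝓞 K, (b : K) = (a : K) / (n : K) := ⟨⟨_, hint⟩, rfl⟩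
  refine ⟨b, ?_⟩
  apply RingOfIntegers.ext
  have h7 : (((n : 𝓞 K) * b : 𝓞 K) : K) = (n : K) * (b : K) := by
    simp
  rw [h7, hb]
  field_simp

theorem itd (K : IntermediateField ℚ ℂ) [NumberField K] (h2 : Module.finrank ℚ K = 2)
    (him : ∃ x : K, (x : ℂ).im ≠ 0) (a : 𝓞 K) (t y : ℤ) (h : Co K a t y)
    (l : ℕ) (hl : l.Prime) (hD : l ∣ aD K) (hN : l ^ 2 ∣ Ideal.absNorm (Ideal.span {a})) :
    (l : ℤ) ∣ y := by
  have h1 := co_norm K h2 him a t y h
  have hlp : Prime (l : ℤ) := Nat.prime_iff_prime_int.1 hl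
  have ht : (l : ℤ) ∣ t := by
    have h3 : (l : ℤ) ∣ t ^ 2 := by
      have e : t ^ 2 = 4 * (Ideal.absNorm (Ideal.span {a}) : ℤ) - (aD K : ℤ) * y ^ 2 := by
        linarith
      rw [e]
      refine dvd_sub (Dvd.dvd.mul_left ?_ 4) (Dvd.dvd.mul_right ?_ _)
      · exact_mod_cast (dvd_pow_self l two_ne_zero).trans hN
      · exact_mod_cast hD
    exact hlp.dvd_of_dvd_pow h3
  obtain ⟨b, hb⟩ := itl K h2 him a t y h l hl.one_le ht hN
  obtain ⟨t', y', hb'⟩ := co_exists K h2 him b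
  have h4 := co_nat K b t' y' l hb'
  rw [← hb] at h4
  obtain ⟨_, h5⟩ := co_unique K a _ _ _ _ h h4
  exact ⟨y', h5⟩

end Pool.Agent.SMI
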