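import Pool.Agent.SMI.Bas
import Pool.Agent.SMI.Itl
import Pool.Agent.FTB.CMn

/-!
# SMI/Ram: ramified primes

`I` is a primitive ideal of norm `N`, `span {α} = I ^ 3`, `Co K α x y`; `bas` gives `x0 ∈ I` with
`Co K x0 b0 1` and `4 N ∣ b0 ^ 2 + D`; `N ∣ absNorm (span {x0})`, `absNorm (span {α}) = N ^ 3`.
PROOF of `ramB`.  If `l ^ 2 ∣ N` then `l ^ 2 ∣ absNorm (span {x0})` and `itd` gives `l ∣ 1`.
PROOF of `ramC`.  `l ^ 2 ∣ N ^ 3 = absNorm (span {α})`, `itd`.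
PROOF of `ramA`.  `l ∣ N ^ 3 = absNorm (span {α})` and `l ∣ y`: `pdv` gives `α = l b`.  `x0 ^ 3 ∈ I ^ 3 = span {α}`,
so `x0 ^ 3 = l b'`, and the second coordinate of `x0 ^ 3` is divisible by `l` (`co_exists`, `co_nat`,
`co_unique`); by `co_mul` twice it is `Y` with `4 Y = 3 b0 ^ 2 - D`, i.e. `Y = b0 ^ 2 - n0` with
`4 n0 = b0 ^ 2 + D`.  `l ∣ N ∣ n0`, so `l ∣ b0 ^ 2`, `l ∣ b0`, and `D = 4 n0 - b0 ^ 2`: `l ∣ D`.
If `l ^ 2 ∣ y`: `α = l b`, `Co K b x' y'` with `y = l y'`, so `l ∣ y'`; `absNorm (span {α}) = l ^ 2 absNorm (span {b})`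
(`nrm_nat`) and `l ^ 3 ∣ N ^ 3`, so `l ∣ absNorm (span {b})`; `pdv`: `b = l b''`, so `l ^ 4 ∣ N ^ 3`; but
`l ^ 2` does not divide `N` (`ramB`), so `l ^ 4` does not divide `N ^ 3` (`N = l N'`, `l ∤ N'`).
-/

set_option autoImplicit false

namespace Pool.Agent.SMI

open NumberField Pool.Agent.FTA Pool.Agent.FTB Pool.Agent.SMQ nonZeroDivisors

theorem ramB (K : IntermediateField ℚ ℂ) [NumberField K] (h2 : Module.finrank ℚ K = 2)
    (him : ∃ x : K, (x : ℂ).im ≠ 0) (I : (Ideal (𝓞 K))⁰) (hI : Pm K I)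
    (N : ℕ) (hN1 : 1 ≤ N) (hN : Ideal.absNorm (I : Ideal (𝓞 K)) = N)
    (l : ℕ) (hl : l.Prime) (hD : l ∣ aD K) : ¬ l ^ 2 ∣ N := by
  intro hsq
  obtain ⟨x0, b0, hx0, hco, -, -⟩ := bas K h2 him I hI N hN1 hN
  have h1 : N ∣ Ideal.absNorm (Ideal.span {x0}) := by
    rw [← hN]
    exact Ideal.absNorm_dvd_absNorm_of_le ((Ideal.span_singleton_le_iff_mem _).2 hx0)
  have h3 := itd K h2 him x0 b0 1 hco l hl hD (dvd_trans hsq h1)
  have h4 : l ∣ 1 := by exact_mod_cast h3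
  have h5 := Nat.le_of_dvd one_pos h4
  have := hl.two_le
  omega

theorem ramC (K : IntermediateField ℚ ℂ) [NumberField K] (h2 : Module.finrank ℚ K = 2)
    (him : ∃ x : K, (x : ℂ).im ≠ 0) (I : (Ideal (𝓞 K))⁰)
    (N : ℕ) (hN : Ideal.absNorm (I : Ideal (𝓞 K)) = N)
    (α : 𝓞 K) (hα : Ideal.span {α} = (I : Ideal (𝓞 K)) ^ 3) (x y : ℤ) (hc : Co K α x y)
    (l : ℕ) (hl : l.Prime) (hD : l ∣ aD K) (hlN : l ∣ N) : (l : ℤ) ∣ y := by
  have h1 : Ideal.absNorm (Ideal.span {α}) = N ^ 3 := by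
    rw [hα, map_pow, hN]
  have h3 : l ^ 2 ∣ Ideal.absNorm (Ideal.span {α}) := by
    rw [h1]
    exact dvd_trans (pow_dvd_pow_of_dvd hlN 2) (pow_dvd_pow N (by norm_num))
  exact itd K h2 him α x y hc l hl hD h3

theorem ramA (K : IntermediateField ℚ ℂ) [NumberField K] (h2 : Module.finrank ℚ K = 2)
    (him : ∃ x : K, (x : ℂ).im ≠ 0) (I : (Ideal (𝓞 K))⁰) (hI : Pm K I)
    (N : ℕ) (hN1 : 1 ≤ N) (hN : Ideal.absNorm (I : Ideal (𝓞 K)) = N)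
    (α : 𝓞 K) (hα : Ideal.span {α} = (I : Ideal (𝓞 K)) ^ 3) (x y : ℤ) (hc : Co K α x y)
    (l : ℕ) (hl : l.Prime) (hlN : l ∣ N) (hly : (l : ℤ) ∣ y) :
    l ∣ aD K ∧ ¬ (l : ℤ) ^ 2 ∣ y := by
  have hNα : Ideal.absNorm (Ideal.span {α}) = N ^ 3 := by
    rw [hα, map_pow, hN]
  have hlα : l ∣ Ideal.absNorm (Ideal.span {α}) := by
    rw [hNα]
    exact dvd_pow hlN (by norm_num)
  obtain ⟨b, hb⟩ := pdv K h2 him α x y hc l hl hly hlα
  have hD : l ∣ aD K := by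
    obtain ⟨x0, b0, hx0, hco, -, hk⟩ := bas K h2 him I hI N hN1 hN
    obtain ⟨k, hk⟩ := hk
    have hmem : x0 ^ 3 ∈ Ideal.span {α} := by
      rw [hα]
      exact Ideal.pow_mem_pow hx0 3
    obtain ⟨c, hc3⟩ := Ideal.mem_span_singleton'.1 hmem
    obtain ⟨T2, Y2, h22⟩ := co_exists K h2 him (x0 * x0)
    obtain ⟨T3, Y3, h33⟩ := co_exists K h2 him (x0 * x0 * x0)
    obtain ⟨e1, e2⟩ := co_mul K x0 x0 b0 1 b0 1 T2 Y2 hco hco h22
    obtain ⟨e3, e4⟩ := co_mul K (x0 * x0) x0 T2 Y2 b0 1 T3 Y3 h22 hco h33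
    obtain ⟨T4, Y4, h44⟩ := co_exists K h2 him (c * b)
    have h45 := co_nat K (c * b) T4 Y4 l h44
    have h46 : (l : 𝓞 K) * (c * b) = x0 * x0 * x0 := by
      have : x0 * x0 * x0 = x0 ^ 3 := by ring
      rw [this, ← hc3, hb]
      ring
    rw [h46] at h45
    have hY : Y3 = l * Y4 := (co_unique K _ _ _ _ _ h33 h45).2
    have hY3 : (l : ℤ) ∣ Y3 := ⟨Y4, hY⟩
    have hNl : (l : ℤ) ∣ (N : ℤ) := by exact_mod_cast hlN
    have hY3' : Y3 = b0 ^ 2 - N * k := by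
      have hY2 : Y2 = b0 := by linarith
      subst hY2
      linarith
    have hb2 : (l : ℤ) ∣ b0 ^ 2 := by
      have h5 : b0 ^ 2 = Y3 + N * k := by linarith
      rw [h5]
      exact dvd_add hY3 (Dvd.dvd.mul_right hNl k)
    have hDZ : (l : ℤ) ∣ (aD K : ℤ) := by
      have h5 : (aD K : ℤ) = N * (4 * k) - b0 ^ 2 := by linarith
      rw [h5]
      exact dvd_sub (Dvd.dvd.mul_right hNl _) hb2
    exact_mod_cast hDZ
  refine ⟨hD, ?_⟩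
  intro hly2
  have hl0 : 0 < l := hl.pos
  obtain ⟨x', y', hb'⟩ := co_exists K h2 him b
  have h5 := co_nat K b x' y' l hb'
  rw [← hb] at h5
  have hy : y = l * y' := (co_unique K _ _ _ _ _ hc h5).2
  have hly' : (l : ℤ) ∣ y' := by
    rw [hy, pow_two] at hly2
    exact Int.dvd_of_mul_dvd_mul_left (by exact_mod_cast hl0.ne') hly2
  have hsp : ∀ z w : 𝓞 K, z = (l : 𝓞 K) * w →
      Ideal.absNorm (Ideal.span {z}) = l ^ 2 * Ideal.absNorm (Ideal.span {w}) := by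
    intro z w hzw
    rw [hzw, ← Ideal.span_singleton_mul_span_singleton, map_mul, nrm_nat K h2]
  have h6 := hsp α b hb
  rw [hNα] at h6
  have h7 : l ^ 3 ∣ N ^ 3 := pow_dvd_pow_of_dvd hlN 3
  have h8 : l ∣ Ideal.absNorm (Ideal.span {b}) := by
    rw [h6, pow_succ] at h7
    exact Nat.dvd_of_mul_dvd_mul_left (pow_pos hl0 2) h7
  obtain ⟨b'', hb''⟩ := pdv K h2 him b x' y' hb' l hl hly' h8
  have h9 := hsp b b'' hb''
  rw [h9] at h6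
  obtain ⟨N', hN'⟩ := hlN
  have h10 : l ∣ N' ^ 3 := by
    have h11 : l ^ 3 * (l * Ideal.absNorm (Ideal.span {b''})) = l ^ 3 * N' ^ 3 := by
      have h12 : l ^ 3 * N' ^ 3 = N ^ 3 := by rw [hN']; ring
      rw [h12, h6]
      ring
    have h13 := Nat.eq_of_mul_eq_mul_left (pow_pos hl0 3) h11
    exact ⟨_, h13.symm⟩
  have h14 : l ∣ N' := hl.dvd_of_dvd_pow h10
  apply ramB K h2 him I hI N hN1 hN l hl hD
  obtain ⟨m, hm⟩ := h14
  exact ⟨m, by rw [hN', hm]; ring⟩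

end Pool.Agent.SMI
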