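import Mathlib

/-!
# SMI/Abc: cube roots

PROOF.  All numbers are nonzero (their products with their conjugates are).
`N4 ^ 2 γ1 conj γ1 = |β2| ^ 2 |β3| ^ 2 = (N4 N3 N1) (N4 N1 N2)`, so `γ1 conj γ1 = N1 ^ 2 N2 N3`, and cyclically.
`(N2 N3) ^ 2 α1 conj α1 = (N1 N2 N3) (N1 ^ 2 N2 N3)`, so `α1 conj α1 = N1 ^ 3`, and cyclically.
`N4 ^ 3 γ1 γ2 γ3 = β2 conj β3 β3 conj β1 β1 conj β2 = N4 ^ 3 (N1 N2 N3) ^ 2`, so `γ1 γ2 γ3 = (N1 N2 N3) ^ 2`, and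
`(N1 N2 N3) ^ 2 α1 α2 α3 = π ^ 3 γ1 γ2 γ3`, so `α1 α2 α3 = π ^ 3`.
Let `a ^ 3 = α1`, `b ^ 3 = α2` (`IsAlgClosed.exists_pow_nat_eq`), `c = π / (a b)`.  `(a conj a) ^ 3 = N1 ^ 3` with
`a conj a = |a| ^ 2 ≥ 0` real, so `a conj a = N1`; the same for `b`; `c conj c = N3`, `c ^ 3 = α3`.
`N2 N3 α1 = π γ1` and `π conj π = N1 N2 N3` give `N1 γ1 = α1 conj π`, so
`γ1 = a ^ 3 conj a conj b conj c / (a conj a) = a ^ 2 conj b conj c`; cyclically.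
-/

set_option autoImplicit false

namespace Pool.Agent.SMI

private lemma Abc_g {N : ℕ} (hN : 1 ≤ N) {γ β β' A B : ℂ}
    (h : (N : ℂ) * γ = β * (starRingEnd ℂ) β') (hb : β * (starRingEnd ℂ) β = N * A)
    (hb' : β' * (starRingEnd ℂ) β' = N * B) : γ * (starRingEnd ℂ) γ = A * B := by
  have hN0 : (N : ℂ) ≠ 0 := by exact_mod_cast (by omega : N ≠ 0)
  have h' : (N : ℂ) * (starRingEnd ℂ) γ = (starRingEnd ℂ) β * β' := by
    have := congrArg (starRingEnd ℂ) h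
    simpa [map_mul, map_natCast] using this
  apply mul_left_cancel₀ (mul_ne_zero hN0 hN0)
  calc (N * N : ℂ) * (γ * (starRingEnd ℂ) γ) = (N * γ) * (N * (starRingEnd ℂ) γ) := by ring
    _ = (β * (starRingEnd ℂ) β') * ((starRingEnd ℂ) β * β') := by rw [h, h']
    _ = (β * (starRingEnd ℂ) β) * (β' * (starRingEnd ℂ) β') := by ring
    _ = (N * A) * (N * B) := by rw [hb, hb']
    _ = N * N * (A * B) := by ring

private lemma Abc_a {M : ℂ} (hM : (starRingEnd ℂ) M = M) (hM0 : M ≠ 0) {α π γ A : ℂ}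
    (h : M * α = π * γ) (hA : (π * (starRingEnd ℂ) π) * (γ * (starRingEnd ℂ) γ) = M * M * A) :
    α * (starRingEnd ℂ) α = A := by
  have h' : M * (starRingEnd ℂ) α = (starRingEnd ℂ) π * (starRingEnd ℂ) γ := by
    have := congrArg (starRingEnd ℂ) h
    simpa [map_mul, hM] using this
  apply mul_left_cancel₀ (mul_ne_zero hM0 hM0)
  calc M * M * (α * (starRingEnd ℂ) α) = (M * α) * (M * (starRingEnd ℂ) α) := by ring
    _ = (π * γ) * ((starRingEnd ℂ) π * (starRingEnd ℂ) γ) := by rw [h, h']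
    _ = (π * (starRingEnd ℂ) π) * (γ * (starRingEnd ℂ) γ) := by ring
    _ = M * M * A := hA

private lemma Abc_r {a : ℂ} {N : ℕ} (h : a ^ 3 * (starRingEnd ℂ) (a ^ 3) = (N : ℂ) ^ 3) :
    a * (starRingEnd ℂ) a = N := by
  rw [map_pow, ← mul_pow, Complex.mul_conj] at h
  rw [Complex.mul_conj]
  have h' : (Complex.normSq a) ^ 3 = (N : ℝ) ^ 3 := by exact_mod_cast h
  have h2 : Complex.normSq a = N :=
    (pow_left_inj₀ (Complex.normSq_nonneg a) (Nat.cast_nonneg N) (by norm_num)).mp h'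
  rw [h2]
  push_cast
  rfl

theorem abc (π β1 β2 β3 γ1 γ2 γ3 α1 α2 α3 : ℂ) (N1 N2 N3 N4 : ℕ) (o1 : 1 ≤ N1) (o2 : 1 ≤ N2)
    (o3 : 1 ≤ N3) (o4 : 1 ≤ N4)
    (np : π * (starRingEnd ℂ) π = (N1 : ℂ) * N2 * N3)
    (b1 : β1 * (starRingEnd ℂ) β1 = (N4 : ℂ) * N2 * N3)
    (b2 : β2 * (starRingEnd ℂ) β2 = (N4 : ℂ) * N3 * N1)
    (b3 : β3 * (starRingEnd ℂ) β3 = (N4 : ℂ) * N1 * N2)
    (q1 : (N4 : ℂ) * γ1 = β2 * (starRingEnd ℂ) β3)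
    (q2 : (N4 : ℂ) * γ2 = β3 * (starRingEnd ℂ) β1)
    (q3 : (N4 : ℂ) * γ3 = β1 * (starRingEnd ℂ) β2)
    (a1 : (N2 : ℂ) * N3 * α1 = π * γ1) (a2 : (N3 : ℂ) * N1 * α2 = π * γ2)
    (a3 : (N1 : ℂ) * N2 * α3 = π * γ3) :
    ∃ a b c : ℂ, a * (starRingEnd ℂ) a = N1 ∧ b * (starRingEnd ℂ) b = N2 ∧
      c * (starRingEnd ℂ) c = N3 ∧ π = a * b * c ∧ α1 = a ^ 3 ∧ α2 = b ^ 3 ∧ α3 = c ^ 3 ∧
      γ1 = a ^ 2 * (starRingEnd ℂ) b * (starRingEnd ℂ) c ∧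
      γ2 = b ^ 2 * (starRingEnd ℂ) c * (starRingEnd ℂ) a ∧
      γ3 = c ^ 2 * (starRingEnd ℂ) a * (starRingEnd ℂ) b := by
  have n1 : (N1 : ℂ) ≠ 0 := by exact_mod_cast (by omega : N1 ≠ 0)
  have n2 : (N2 : ℂ) ≠ 0 := by exact_mod_cast (by omega : N2 ≠ 0)
  have n3 : (N3 : ℂ) ≠ 0 := by exact_mod_cast (by omega : N3 ≠ 0)
  have n4 : (N4 : ℂ) ≠ 0 := by exact_mod_cast (by omega : N4 ≠ 0)
  have b1' : β1 * (starRingEnd ℂ) β1 = (N4 : ℂ) * (N2 * N3) := by rw [b1]; ring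
  have b2' : β2 * (starRingEnd ℂ) β2 = (N4 : ℂ) * (N3 * N1) := by rw [b2]; ring
  have b3' : β3 * (starRingEnd ℂ) β3 = (N4 : ℂ) * (N1 * N2) := by rw [b3]; ring
  have g1 := Abc_g o4 q1 b2' b3'
  have g2 := Abc_g o4 q2 b3' b1'
  have g3 := Abc_g o4 q3 b1' b2'
  have hα1 : α1 * (starRingEnd ℂ) α1 = (N1 : ℂ) ^ 3 := by
    refine Abc_a (M := (N2 : ℂ) * N3) (by simp) (mul_ne_zero n2 n3) a1 ?_
    rw [np, g1]; ring
  have hα2 : α2 * (starRingEnd ℂ) α2 = (N2 : ℂ) ^ 3 := by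
    refine Abc_a (M := (N3 : ℂ) * N1) (by simp) (mul_ne_zero n3 n1) a2 ?_
    rw [np, g2]; ring
  have hγ : γ1 * γ2 * γ3 = ((N1 : ℂ) * N2 * N3) ^ 2 := by
    apply mul_left_cancel₀ (pow_ne_zero 3 n4)
    calc (N4 : ℂ) ^ 3 * (γ1 * γ2 * γ3) = (N4 * γ1) * (N4 * γ2) * (N4 * γ3) := by ring
      _ = (β1 * (starRingEnd ℂ) β1) * (β2 * (starRingEnd ℂ) β2) *
          (β3 * (starRingEnd ℂ) β3) := by rw [q1, q2, q3]; ring
      _ = (N4 : ℂ) ^ 3 * ((N1 : ℂ) * N2 * N3) ^ 2 := by rw [b1, b2, b3]; ring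
  have hα : α1 * α2 * α3 = π ^ 3 := by
    have h0 : ((N1 : ℂ) * N2 * N3) ^ 2 ≠ 0 := pow_ne_zero 2 (mul_ne_zero (mul_ne_zero n1 n2) n3)
    apply mul_left_cancel₀ h0
    calc ((N1 : ℂ) * N2 * N3) ^ 2 * (α1 * α2 * α3) =
        (N2 * N3 * α1) * (N3 * N1 * α2) * (N1 * N2 * α3) := by ring
      _ = (γ1 * γ2 * γ3) * π ^ 3 := by rw [a1, a2, a3]; ring
      _ = ((N1 : ℂ) * N2 * N3) ^ 2 * π ^ 3 := by rw [hγ]
  obtain ⟨a, ha⟩ := IsAlgClosed.exists_pow_nat_eq α1 (n := 3) (by norm_num)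
  obtain ⟨b, hb⟩ := IsAlgClosed.exists_pow_nat_eq α2 (n := 3) (by norm_num)
  have ha' : a * (starRingEnd ℂ) a = N1 := Abc_r (by rw [ha]; exact hα1)
  have hb' : b * (starRingEnd ℂ) b = N2 := Abc_r (by rw [hb]; exact hα2)
  have ha0 : a ≠ 0 := by
    rintro rfl
    rw [zero_mul] at ha'
    exact n1 ha'.symm
  have hb0 : b ≠ 0 := by
    rintro rfl
    rw [zero_mul] at hb'
    exact n2 hb'.symm
  have hπ0 : π ≠ 0 := by
    rintro rfl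
    rw [zero_mul] at np
    exact mul_ne_zero (mul_ne_zero n1 n2) n3 np.symm
  obtain ⟨c, hc⟩ : ∃ c : ℂ, c = π / (a * b) := ⟨_, rfl⟩
  have hπ : π = a * b * c := by
    rw [hc, mul_div_cancel₀ _ (mul_ne_zero ha0 hb0)]
  have hc3 : α3 = c ^ 3 := by
    have h0 : α1 * α2 ≠ 0 := by
      rw [← ha, ← hb]
      exact mul_ne_zero (pow_ne_zero 3 ha0) (pow_ne_zero 3 hb0)
    apply mul_left_cancel₀ h0
    rw [hα, hπ, ← ha, ← hb]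
    ring
  have hc' : c * (starRingEnd ℂ) c = N3 := by
    apply mul_left_cancel₀ (mul_ne_zero n1 n2)
    calc (N1 : ℂ) * N2 * (c * (starRingEnd ℂ) c) = (a * (starRingEnd ℂ) a) *
        (b * (starRingEnd ℂ) b) * (c * (starRingEnd ℂ) c) := by rw [ha', hb']
      _ = (a * b * c) * (starRingEnd ℂ) (a * b * c) := by rw [map_mul, map_mul]; ring
      _ = (N1 : ℂ) * N2 * N3 := by rw [← hπ, np]
  refine ⟨a, b, c, ha', hb', hc', hπ, ha.symm, hb.symm, hc3, ?_, ?_, ?_⟩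
  · apply mul_left_cancel₀ hπ0
    rw [← a1, ← ha, ← hb', ← hc', hπ]
    ring
  · apply mul_left_cancel₀ hπ0
    rw [← a2, ← hb, ← ha', ← hc', hπ]
    ring
  · apply mul_left_cancel₀ hπ0
    rw [← a3, hc3, ← ha', ← hb', hπ]
    ring

end Pool.Agent.SMI
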