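import Pool.Agent.SMI.Bas

/-!
# SMI/Gci: the second coordinate of a product

PROOF.  `bas`: `x = m N + y x0`, `x' = m' N + y' x0` with `Co K x0 b0 1`, `2 cv x0 = b0 + √D i`.  So
`cv x * conj (cv x') = m m' N ^ 2 + m y' N conj (cv x0) + m' y N cv x0 + y y' |cv x0| ^ 2`, and the imaginary
part of the equation `2 N cv γ = 2 cv x * conj (cv x')` is `N g √D = N (m' y - m y') √D`; `√D ≠ 0`
(`aD K ≠ 0`: `aD K` is the absolute value of the discriminant, `NumberField.discr_ne_zero`), `N ≠ 0`, so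
`g = m' y - m y'`.
-/

set_option autoImplicit false

namespace Pool.Agent.SMI

open NumberField Pool.Agent.FTA Pool.Agent.FTB Pool.Agent.SMQ nonZeroDivisors

theorem gci (K : IntermediateField ℚ ℂ) [NumberField K] (h2 : Module.finrank ℚ K = 2)
    (him : ∃ x : K, (x : ℂ).im ≠ 0) (I : (Ideal (𝓞 K))⁰) (hI : Pm K I)
    (N : ℕ) (hN1 : 1 ≤ N) (hN : Ideal.absNorm (I : Ideal (𝓞 K)) = N)
    (x x' γ : 𝓞 K) (t y t' y' T g : ℤ) (hx : x ∈ (I : Ideal (𝓞 K)))
    (hx' : x' ∈ (I : Ideal (𝓞 K))) (c : Co K x t y) (c' : Co K x' t' y') (cg : Co K γ T g)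
    (h : (N : ℂ) * cv K γ = cv K x * (starRingEnd ℂ) (cv K x')) (n : ℤ) (hy : n ∣ y)
    (hy' : n ∣ y') : n ∣ g := by
  obtain ⟨x0, b0, hx0, hc0, hmem, -⟩ := bas K h2 him I hI N hN1 hN
  obtain ⟨m, hm⟩ := hmem x hx t y c
  obtain ⟨m', hm'⟩ := hmem x' hx' t' y' c'
  have hX : cv K x = (m : ℂ) * (N : ℂ) + (y : ℂ) * cv K x0 := by
    unfold cv
    rw [hm]
    push_cast
    rfl
  have hX' : cv K x' = (m' : ℂ) * (N : ℂ) + (y' : ℂ) * cv K x0 := by
    unfold cv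
    rw [hm']
    push_cast
    rfl
  have hs : 0 < √(aD K : ℝ) := Real.sqrt_pos.2 (by exact_mod_cast aD_pos K)
  have hi0 : 2 * (cv K x0).im = √(aD K : ℝ) := by
    have h3 := congrArg Complex.im hc0
    simpa [cv] using h3
  have hig : 2 * (cv K γ).im = (g : ℝ) * √(aD K : ℝ) := by
    have h3 := congrArg Complex.im cg
    simpa [cv] using h3
  have h3 := congrArg Complex.im h
  rw [hX, hX'] at h3
  simp at h3
  have hN0 : (N : ℝ) ≠ 0 := by
    have : (1 : ℝ) ≤ (N : ℝ) := by exact_mod_cast hN1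
    linarith
  have h4 : (N : ℝ) * √(aD K : ℝ) * (g : ℝ) =
      (N : ℝ) * √(aD K : ℝ) * ((m' : ℝ) * y - m * y') := by
    linear_combination 2 * h3 - (N : ℝ) * hig + (N : ℝ) * ((m' : ℝ) * y - m * y') * hi0
  have h5 : (g : ℝ) = (m' : ℝ) * y - m * y' :=
    mul_left_cancel₀ (mul_ne_zero hN0 hs.ne') h4
  have h6 : g = m' * y - m * y' := by exact_mod_cast h5
  rw [h6]
  exact dvd_sub (Dvd.dvd.mul_left hy m') (Dvd.dvd.mul_left hy' m)

end Pool.Agent.SMI
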