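import Pool.Agent.SMI.Pid

/-!
# SMI/Idn: the integer identities
-/

set_option autoImplicit false

namespace Pool.Agent.SMI

private theorem Idn_sne (D : ℕ) (hD : 1 ≤ D) : ((√(D : ℝ) : ℝ) : ℂ) * Complex.I ≠ 0 := by
  have h1 : (0 : ℝ) < (D : ℝ) := by exact_mod_cast hD
  have h2 : (√(D : ℝ) : ℝ) ≠ 0 := (Real.sqrt_pos.mpr h1).ne'
  exact mul_ne_zero (by exact_mod_cast h2) Complex.I_ne_zero

private theorem Idn_sq (D : ℕ) : (((√(D : ℝ) : ℝ) : ℂ) * Complex.I) ^ 2 = -(D : ℂ) := by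
  have h1 : ((√(D : ℝ) : ℝ)) ^ 2 = (D : ℝ) := Real.sq_sqrt (Nat.cast_nonneg D)
  have h2 : (((√(D : ℝ) : ℝ) : ℂ)) ^ 2 = (D : ℂ) := by exact_mod_cast h1
  rw [mul_pow, h2, Complex.I_sq]
  ring

private theorem Idn_cj (D : ℕ) (x p : ℤ) (w : ℂ)
    (h : 2 * w = (x : ℂ) + (p : ℂ) * ((√(D : ℝ) : ℝ) : ℂ) * Complex.I) :
    (((√(D : ℝ) : ℝ) : ℂ) * Complex.I) * (p : ℂ) = w - (starRingEnd ℂ) w ∧
      (x : ℂ) = w + (starRingEnd ℂ) w := by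
  have h2 := congrArg (starRingEnd ℂ) h
  rw [map_mul, map_add, map_mul, map_mul, Complex.conj_I, Complex.conj_ofReal] at h2
  have e2 : (starRingEnd ℂ) (2 : ℂ) = 2 := by
    have := Complex.conj_ofReal 2
    simpa using this
  have ex : (starRingEnd ℂ) ((x : ℤ) : ℂ) = (x : ℂ) := by
    have := Complex.conj_ofReal (x : ℝ)
    simpa using this
  have ep : (starRingEnd ℂ) ((p : ℤ) : ℂ) = (p : ℂ) := by
    have := Complex.conj_ofReal (p : ℝ)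
    simpa using this
  rw [e2, ex, ep] at h2
  constructor
  · have : (2 : ℂ) * ((((√(D : ℝ) : ℝ) : ℂ) * Complex.I) * (p : ℂ)) =
        2 * (w - (starRingEnd ℂ) w) := by
      linear_combination h2 - h
    exact mul_left_cancel₀ two_ne_zero this
  · have : (2 : ℂ) * (x : ℂ) = 2 * (w + (starRingEnd ℂ) w) := by
      linear_combination -h2 - h
    exact mul_left_cancel₀ two_ne_zero this

theorem idn1 (D N1 N2 N3 : ℕ) (hD : 1 ≤ D) (a b c : ℂ) (ha : a * (starRingEnd ℂ) a = N1)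
    (hb : b * (starRingEnd ℂ) b = N2) (hc : c * (starRingEnd ℂ) c = N3)
    (p xp x1 x2 x3 y1 y2 y3 g1 g2 g3 r1 r2 r3 : ℤ)
    (hp : 2 * (a * b * c) = (xp : ℂ) + (p : ℂ) * ((√(D : ℝ) : ℝ) : ℂ) * Complex.I)
    (h1 : 2 * a ^ 3 = (x1 : ℂ) + (y1 : ℂ) * ((√(D : ℝ) : ℝ) : ℂ) * Complex.I)
    (h2 : 2 * b ^ 3 = (x2 : ℂ) + (y2 : ℂ) * ((√(D : ℝ) : ℝ) : ℂ) * Complex.I)
    (h3 : 2 * c ^ 3 = (x3 : ℂ) + (y3 : ℂ) * ((√(D : ℝ) : ℝ) : ℂ) * Complex.I)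
    (k1 : 2 * (a ^ 2 * (starRingEnd ℂ) b * (starRingEnd ℂ) c) =
      (r1 : ℂ) + (g1 : ℂ) * ((√(D : ℝ) : ℝ) : ℂ) * Complex.I)
    (k2 : 2 * (b ^ 2 * (starRingEnd ℂ) c * (starRingEnd ℂ) a) =
      (r2 : ℂ) + (g2 : ℂ) * ((√(D : ℝ) : ℝ) : ℂ) * Complex.I)
    (k3 : 2 * (c ^ 2 * (starRingEnd ℂ) a * (starRingEnd ℂ) b) =
      (r3 : ℂ) + (g3 : ℂ) * ((√(D : ℝ) : ℝ) : ℂ) * Complex.I) :
    2 * ((N1 : ℤ) * g1) = y1 * xp - x1 * p ∧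
    -2 * ((N2 : ℤ) * N3 * g1) = r2 * g3 + r3 * g2 ∧
    (N1 : ℤ) * (y1 * y2 * y3 - p ^ 3) = y1 * g2 * g3 - p * g1 ^ 2 ∧
    2 * (y1 * g2 ^ 3 - y2 * g1 ^ 3) = (y1 * y2 * y3 - p ^ 3) * (y1 * x2 - y2 * x1) ∧
    x1 * (y1 * y2 * y3 - p ^ 3) ^ 2 = 3 * p ^ 2 * y1 * (g1 * g2 * g3) -
      y1 ^ 2 * (y2 * g3 ^ 3 + y3 * g2 ^ 3) + (y1 * y2 * y3 - 2 * p ^ 3) * g1 ^ 3 := by
  have hs := Idn_sne D hD
  obtain ⟨p1, p2⟩ := Idn_cj D xp p _ hp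
  obtain ⟨u1, v1⟩ := Idn_cj D x1 y1 _ h1
  obtain ⟨u2, v2⟩ := Idn_cj D x2 y2 _ h2
  obtain ⟨u3, v3⟩ := Idn_cj D x3 y3 _ h3
  obtain ⟨w1, z1⟩ := Idn_cj D r1 g1 _ k1
  obtain ⟨w2, z2⟩ := Idn_cj D r2 g2 _ k2
  obtain ⟨w3, z3⟩ := Idn_cj D r3 g3 _ k3
  simp only [map_mul, map_pow, Complex.conj_conj] at p1 p2 u1 u2 u3 v1 v2 v3 w1 w2 w3 z1 z2 z3
  generalize (((√(D : ℝ) : ℝ) : ℂ) * Complex.I) = s at hs p1 u1 u2 u3 w1 w2 w3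
  generalize (starRingEnd ℂ) a = a' at *
  generalize (starRingEnd ℂ) b = b' at *
  generalize (starRingEnd ℂ) c = c' at *
  refine ⟨?_, ?_, ?_, ?_, ?_⟩
  · apply Int.cast_injective (α := ℂ)
    push_cast
    apply mul_left_cancel₀ hs
    calc s * (2 * ((N1 : ℂ) * g1)) = 2 * ((N1 : ℂ) * (s * g1)) := by ring
      _ = (s * y1) * xp - x1 * (s * p) := by
          rw [← ha, w1, u1, p1, p2, v1]; ring
      _ = s * ((y1 : ℂ) * xp - x1 * p) := by ring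
  · apply Int.cast_injective (α := ℂ)
    push_cast
    apply mul_left_cancel₀ hs
    calc s * (-2 * ((N2 : ℂ) * N3 * g1)) = -2 * ((N2 : ℂ) * N3 * (s * g1)) := by ring
      _ = r2 * (s * g3) + r3 * (s * g2) := by
          rw [← hb, ← hc, w1, w2, w3, z2, z3]; ring
      _ = s * ((r2 : ℂ) * g3 + r3 * g2) := by ring
  · apply Int.cast_injective (α := ℂ)
    push_cast
    rw [← ha]
    exact pid_m a a' b b' c c' s p y1 y2 y3 g1 g2 g3 hs p1 u1 u2 u3 w1 w2 w3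
  · apply Int.cast_injective (α := ℂ)
    push_cast
    exact pid_k a a' b b' c c' s p y1 y2 y3 g1 g2 x1 x2 hs p1 u1 u2 u3 w1 w2 v1 v2
  · apply Int.cast_injective (α := ℂ)
    push_cast
    exact pid_x a a' b b' c c' s p y1 y2 y3 g1 g2 g3 x1 hs p1 u1 u2 u3 w1 w2 w3 v1

theorem idn2 (D N1 N2 N3 : ℕ) (hD : 1 ≤ D) (a b c : ℂ) (ha : a * (starRingEnd ℂ) a = N1)
    (hb : b * (starRingEnd ℂ) b = N2) (hc : c * (starRingEnd ℂ) c = N3)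
    (p xp x1 x2 x3 y1 y2 y3 g1 g2 g3 r1 r2 r3 : ℤ)
    (hp : 2 * (a * b * c) = (xp : ℂ) + (p : ℂ) * ((√(D : ℝ) : ℝ) : ℂ) * Complex.I)
    (h1 : 2 * a ^ 3 = (x1 : ℂ) + (y1 : ℂ) * ((√(D : ℝ) : ℝ) : ℂ) * Complex.I)
    (h2 : 2 * b ^ 3 = (x2 : ℂ) + (y2 : ℂ) * ((√(D : ℝ) : ℝ) : ℂ) * Complex.I)
    (h3 : 2 * c ^ 3 = (x3 : ℂ) + (y3 : ℂ) * ((√(D : ℝ) : ℝ) : ℂ) * Complex.I)
    (k1 : 2 * (a ^ 2 * (starRingEnd ℂ) b * (starRingEnd ℂ) c) =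
      (r1 : ℂ) + (g1 : ℂ) * ((√(D : ℝ) : ℝ) : ℂ) * Complex.I)
    (k2 : 2 * (b ^ 2 * (starRingEnd ℂ) c * (starRingEnd ℂ) a) =
      (r2 : ℂ) + (g2 : ℂ) * ((√(D : ℝ) : ℝ) : ℂ) * Complex.I)
    (k3 : 2 * (c ^ 2 * (starRingEnd ℂ) a * (starRingEnd ℂ) b) =
      (r3 : ℂ) + (g3 : ℂ) * ((√(D : ℝ) : ℝ) : ℂ) * Complex.I) :
    2 * (p ^ 2 * ((N1 : ℤ) * (g2 * g3) ^ 2 + (N2 : ℤ) * (g3 * g1) ^ 2 +
      (N3 : ℤ) * (g1 * g2) ^ 2) - (g1 * g2 * g3) ^ 2) =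
    (y1 * y2 * y3 - p ^ 3) * (p * (r1 * g2 * g3 + r2 * g3 * g1 + r3 * g1 * g2) -
      xp * (g1 * g2 * g3)) ∧
    (3 * ((N1 : ℤ) * N2 * N3) - (D : ℤ) * p ^ 2) * (y1 * y2 * y3 - p ^ 3) =
      xp * ((N1 : ℤ) * g1 * y2 * y3 + (N2 : ℤ) * g2 * y3 * y1 + (N3 : ℤ) * g3 * y1 * y2) -
      ((N1 : ℤ) * N2 * g1 * g2 * y3 + (N2 : ℤ) * N3 * g2 * g3 * y1 +
        (N3 : ℤ) * N1 * g3 * g1 * y2) := by
  have hs := Idn_sne D hD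
  have hsq := Idn_sq D
  obtain ⟨p1, p2⟩ := Idn_cj D xp p _ hp
  obtain ⟨u1, v1⟩ := Idn_cj D x1 y1 _ h1
  obtain ⟨u2, v2⟩ := Idn_cj D x2 y2 _ h2
  obtain ⟨u3, v3⟩ := Idn_cj D x3 y3 _ h3
  obtain ⟨w1, z1⟩ := Idn_cj D r1 g1 _ k1
  obtain ⟨w2, z2⟩ := Idn_cj D r2 g2 _ k2
  obtain ⟨w3, z3⟩ := Idn_cj D r3 g3 _ k3
  simp only [map_mul, map_pow, Complex.conj_conj] at p1 p2 u1 u2 u3 v1 v2 v3 w1 w2 w3 z1 z2 z3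
  generalize (((√(D : ℝ) : ℝ) : ℂ) * Complex.I) = s at hs hsq p1 u1 u2 u3 w1 w2 w3
  generalize (starRingEnd ℂ) a = a' at *
  generalize (starRingEnd ℂ) b = b' at *
  generalize (starRingEnd ℂ) c = c' at *
  refine ⟨?_, ?_⟩
  · apply Int.cast_injective (α := ℂ)
    push_cast
    rw [← ha, ← hb, ← hc]
    exact pid_l a a' b b' c c' s p y1 y2 y3 g1 g2 g3 xp r1 r2 r3 hs p1 u1 u2 u3 w1 w2 w3 p2
      z1 z2 z3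
  · apply Int.cast_injective (α := ℂ)
    push_cast
    have h := pid_z a a' b b' c c' s p y1 y2 y3 g1 g2 g3 xp hs p1 u1 u2 u3 w1 w2 w3 p2
    rw [hsq] at h
    rw [← ha, ← hb, ← hc]
    linear_combination h

end Pool.Agent.SMI
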