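import Pool.Agent.SMI.Mnc
import Pool.Agent.SMI.Cvn

/-!
# SMI/Lbj: the lattice of the fourth ideal

PROOF.  First claim: as in SMI/Gci: `2 N4 cv γ1 = 2 cv β2 * conj (cv β3)`, with
`cv β2 = b2 N4 + a2 cv x0`, `cv β3 = b3 N4 + a3 cv x0`, `2 cv x0 = b0 + √D i`; the imaginary part gives
`N4 g1 √D = N4 (a2 b3 - a3 b2) √D`.
Second claim: put `z = s N4 - t x0 ∈ E`; `z ≠ 0` (the coordinates of `z` are `(2 s N4 - t b0, -t)`), and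
with `x2 = s a2 + t b2`, `x3 = s a3 + t b3`:  `x2 β3 - x3 β2 = (a2 b3 - a3 b2) z = g1 z` in `𝓞 K` (`ring`).
`|cv z| ^ 2 = absNorm (span {z}) ≥ N4 ^ 2` (`mnl`; `cvn` in SMI/Cvn), so `N4 |g1| ≤ |g1| |cv z| ≤
|x2| |cv β3| + |x3| |cv β2| = |x2| √(N4 N1 N2) + |x3| √(N4 N3 N1)`; divide by `√N4` (`√N4 * √N4 = N4`).
-/

set_option autoImplicit false

namespace Pool.Agent.SMI

open NumberField Pool.Agent.FTA Pool.Agent.FTB Pool.Agent.SMQ nonZeroDivisors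

/-- the imaginary part -/
private lemma Lbj_im (s : ℝ) (hs : 0 < s) (N4 : ℕ) (hN : 1 ≤ N4) (T g1 a2 b2 a3 b3 b0 : ℤ)
    (c γ β2 β3 : ℂ) (hc : 2 * c = (b0 : ℂ) + ((1 : ℤ) : ℂ) * (s : ℂ) * Complex.I)
    (hγ : 2 * γ = (T : ℂ) + (g1 : ℂ) * (s : ℂ) * Complex.I)
    (h2 : β2 = (b2 : ℂ) * (N4 : ℂ) + (a2 : ℂ) * c) (h3 : β3 = (b3 : ℂ) * (N4 : ℂ) + (a3 : ℂ) * c)
    (hq : (N4 : ℂ) * γ = β2 * (starRingEnd ℂ) β3) : g1 = a2 * b3 - a3 * b2 := by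
  have k2 : 2 * β2 = ((2 * b2 * N4 + a2 * b0 : ℝ) : ℂ) + ((a2 * s : ℝ) : ℂ) * Complex.I := by
    calc 2 * β2 = 2 * ((b2 : ℂ) * (N4 : ℂ)) + (a2 : ℂ) * (2 * c) := by rw [h2]; ring
      _ = _ := by rw [hc]; push_cast; ring
  have k3 : 2 * β3 = ((2 * b3 * N4 + a3 * b0 : ℝ) : ℂ) + ((a3 * s : ℝ) : ℂ) * Complex.I := by
    calc 2 * β3 = 2 * ((b3 : ℂ) * (N4 : ℂ)) + (a3 : ℂ) * (2 * c) := by rw [h3]; ring
      _ = _ := by rw [hc]; push_cast; ring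
  have k4 : ((2 * N4 : ℝ) : ℂ) * (((T : ℝ) : ℂ) + ((g1 * s : ℝ) : ℂ) * Complex.I) =
      (2 * β2) * (starRingEnd ℂ) (2 * β3) := by
    rw [map_mul, show (starRingEnd ℂ) (2 : ℂ) = 2 from Complex.conj_ofNat 2]
    calc ((2 * N4 : ℝ) : ℂ) * (((T : ℝ) : ℂ) + ((g1 * s : ℝ) : ℂ) * Complex.I) =
        2 * (N4 : ℂ) * ((T : ℂ) + (g1 : ℂ) * (s : ℂ) * Complex.I) := by push_cast; ring
      _ = 4 * ((N4 : ℂ) * γ) := by rw [← hγ]; ring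
      _ = _ := by rw [hq]; ring
  rw [k2, k3] at k4
  have k5 := congrArg Complex.im k4
  simp only [Complex.mul_im, Complex.add_re, Complex.add_im, Complex.ofReal_re, Complex.ofReal_im,
    Complex.I_re, Complex.I_im, Complex.mul_re, map_add, map_mul, Complex.conj_ofReal,
    Complex.conj_I, Complex.neg_re, Complex.neg_im] at k5
  have hN0 : (0 : ℝ) < N4 := by exact_mod_cast hN
  have k6 : (2 * N4 * s : ℝ) * (g1 : ℝ) = (2 * N4 * s) * ((a2 : ℝ) * b3 - a3 * b2) := by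
    linear_combination k5
  have k7 : (g1 : ℝ) = (a2 : ℝ) * b3 - a3 * b2 := mul_left_cancel₀ (by positivity) k6
  exact_mod_cast k7

theorem lbj (K : IntermediateField ℚ ℂ) [NumberField K] (h2 : Module.finrank ℚ K = 2)
    (him : ∃ x : K, (x : ℂ).im ≠ 0) (E F : (Ideal (𝓞 K))⁰) (N4 : ℕ)
    (c4 : CI K E F N4) (x0 : 𝓞 K) (b0 : ℤ) (hx0 : x0 ∈ (E : Ideal (𝓞 K))) (cx : Co K x0 b0 1)
    (β2 β3 γ1 : 𝓞 K) (a2 b2 a3 b3 : ℤ)
    (e2 : β2 = (b2 : 𝓞 K) * (N4 : 𝓞 K) + (a2 : 𝓞 K) * x0)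
    (e3 : β3 = (b3 : 𝓞 K) * (N4 : 𝓞 K) + (a3 : 𝓞 K) * x0)
    (T g1 : ℤ) (cg : Co K γ1 T g1)
    (hq : (N4 : ℂ) * cv K γ1 = cv K β2 * (starRingEnd ℂ) (cv K β3)) (N1 N2 N3 : ℕ)
    (m2 : cv K β2 * (starRingEnd ℂ) (cv K β2) = (N4 : ℂ) * N3 * N1)
    (m3 : cv K β3 * (starRingEnd ℂ) (cv K β3) = (N4 : ℂ) * N1 * N2) :
    g1 = a2 * b3 - a3 * b2 ∧ ∀ s t : ℤ, (s ≠ 0 ∨ t ≠ 0) → √(N4 : ℝ) * |(g1 : ℝ)| ≤
      √(N1 : ℝ) * (|((s * a2 + t * b2 : ℤ) : ℝ)| * √(N2 : ℝ) +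
        |((s * a3 + t * b3 : ℤ) : ℝ)| * √(N3 : ℝ)) := by
  have hs : 0 < √(aD K : ℝ) := Real.sqrt_pos.2 (by exact_mod_cast aD_pos K)
  have hN1 : 1 ≤ N4 := c4.n1
  have hN0 : (0 : ℝ) < N4 := by exact_mod_cast hN1
  have cv2 : cv K β2 = (b2 : ℂ) * (N4 : ℂ) + (a2 : ℂ) * cv K x0 := by
    rw [e2]
    unfold cv
    push_cast
    rfl
  have cv3 : cv K β3 = (b3 : ℂ) * (N4 : ℂ) + (a3 : ℂ) * cv K x0 := by
    rw [e3]
    unfold cv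
    push_cast
    rfl
  have hg : g1 = a2 * b3 - a3 * b2 :=
    Lbj_im (√(aD K : ℝ)) hs N4 hN1 T g1 a2 b2 a3 b3 b0 (cv K x0) (cv K γ1) (cv K β2) (cv K β3)
      cx cg cv2 cv3 hq
  refine ⟨hg, ?_⟩
  intro s t hst
  -- the element `z`
  obtain ⟨z, hz⟩ : ∃ z : 𝓞 K, z = (s : 𝓞 K) * (N4 : 𝓞 K) - (t : 𝓞 K) * x0 := ⟨_, rfl⟩
  have hNE : (N4 : 𝓞 K) ∈ (E : Ideal (𝓞 K)) := by
    have h1 : (N4 : 𝓞 K) ∈ Ideal.span {(N4 : 𝓞 K)} := Ideal.mem_span_singleton_self _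
    have h0 : (E : Ideal (𝓞 K)) * (F : Ideal (𝓞 K)) ≤ (E : Ideal (𝓞 K)) := Ideal.mul_le_left
    have h2 : Ideal.span {(N4 : 𝓞 K)} ≤ (E : Ideal (𝓞 K)) := le_of_eq_of_le c4.IJ.symm h0
    exact h2 h1
  have hzE : z ∈ (E : Ideal (𝓞 K)) := by
    have h1 : (s : 𝓞 K) * (N4 : 𝓞 K) ∈ (E : Ideal (𝓞 K)) :=
      (E : Ideal (𝓞 K)).mul_mem_left (s : 𝓞 K) hNE
    have h3 : (t : 𝓞 K) * x0 ∈ (E : Ideal (𝓞 K)) := (E : Ideal (𝓞 K)).mul_mem_left (t : 𝓞 K) hx0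
    rw [hz]
    exact (E : Ideal (𝓞 K)).sub_mem h1 h3
  have hcz : cv K z = (s : ℂ) * (N4 : ℂ) - (t : ℂ) * cv K x0 := by
    rw [hz]
    unfold cv
    push_cast
    rfl
  have hz0 : z ≠ 0 := by
    intro h0
    have h1 : 2 * ((s : ℂ) * (N4 : ℂ)) = (t : ℂ) * (2 * cv K x0) := by
      have h2 : cv K z = 0 := by
        rw [h0]
        unfold cv
        simp
      rw [hcz] at h2
      linear_combination 2 * h2
    have cx' : 2 * cv K x0 = (b0 : ℂ) + ((1 : ℤ) : ℂ) * ((√(aD K : ℝ) : ℝ) : ℂ) * Complex.I := cx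
    rw [cx'] at h1
    have h3 : ((2 * (s * N4) : ℝ) : ℂ) =
        ((t * b0 : ℝ) : ℂ) + ((t * √(aD K : ℝ) : ℝ) : ℂ) * Complex.I := by
      push_cast
      push_cast at h1
      rw [h1]
      ring
    have h4 := congrArg Complex.im h3
    simp only [Complex.mul_im, Complex.add_im, Complex.ofReal_re, Complex.ofReal_im,
      Complex.I_re, Complex.I_im] at h4
    have h5 : (t : ℝ) * √(aD K : ℝ) = 0 := by linarith
    have h6 : (t : ℝ) = 0 := by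
      rcases mul_eq_zero.mp h5 with h | h
      · exact h
      · exact absurd h hs.ne'
    have h7 := congrArg Complex.re h3
    simp only [Complex.mul_re, Complex.add_re, Complex.ofReal_re, Complex.ofReal_im,
      Complex.I_re, Complex.I_im] at h7
    rw [h6] at h7
    have h8 : (s : ℝ) * N4 = 0 := by linarith
    have h9 : (s : ℝ) = 0 := by
      rcases mul_eq_zero.mp h8 with h | h
      · exact h
      · exact absurd h hN0.ne'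
    rcases hst with h | h
    · exact h (by exact_mod_cast h9)
    · exact h (by exact_mod_cast h6)
  have hnorm : (N4 : ℝ) ≤ ‖cv K z‖ := by
    have h1 := mnl K E F N4 c4 z hzE hz0
    have h3 := cvn K h2 him z
    rw [Complex.mul_conj, Complex.normSq_eq_norm_sq] at h3
    have h4 : ‖cv K z‖ ^ 2 = ((Ideal.absNorm (Ideal.span {z}) : ℕ) : ℝ) := by exact_mod_cast h3
    have h5 : ((N4 : ℝ)) ^ 2 ≤ ‖cv K z‖ ^ 2 := by
      rw [h4]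
      exact_mod_cast h1
    exact (sq_le_sq₀ hN0.le (norm_nonneg _)).mp h5
  have hkey : (((s * a2 + t * b2 : ℤ) : ℝ) : ℂ) * cv K β3 - (((s * a3 + t * b3 : ℤ) : ℝ) : ℂ) * cv K β2 =
      ((g1 : ℝ) : ℂ) * cv K z := by
    rw [cv2, cv3, hcz, hg]
    push_cast
    ring
  have hb2 : ‖cv K β2‖ = √(N4 : ℝ) * √(N3 : ℝ) * √(N1 : ℝ) := by
    rw [Complex.mul_conj, Complex.normSq_eq_norm_sq] at m2
    have h4 : ‖cv K β2‖ ^ 2 = (N4 : ℝ) * N3 * N1 := by exact_mod_cast m2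
    rw [← Real.sqrt_mul (Nat.cast_nonneg _), ← Real.sqrt_mul (by positivity), ← h4,
      Real.sqrt_sq (norm_nonneg _)]
  have hb3 : ‖cv K β3‖ = √(N4 : ℝ) * √(N1 : ℝ) * √(N2 : ℝ) := by
    rw [Complex.mul_conj, Complex.normSq_eq_norm_sq] at m3
    have h4 : ‖cv K β3‖ ^ 2 = (N4 : ℝ) * N1 * N2 := by exact_mod_cast m3
    rw [← Real.sqrt_mul (Nat.cast_nonneg _), ← Real.sqrt_mul (by positivity), ← h4,
      Real.sqrt_sq (norm_nonneg _)]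
  have hmain : |(g1 : ℝ)| * ‖cv K z‖ ≤ |((s * a2 + t * b2 : ℤ) : ℝ)| * ‖cv K β3‖ +
      |((s * a3 + t * b3 : ℤ) : ℝ)| * ‖cv K β2‖ := by
    have h1 := congrArg (fun w : ℂ => ‖w‖) hkey
    simp only [norm_mul, Complex.norm_real, Real.norm_eq_abs] at h1
    rw [← h1]
    refine (norm_sub_le _ _).trans (le_of_eq ?_)
    rw [norm_mul, norm_mul, Complex.norm_real, Complex.norm_real, Real.norm_eq_abs,
      Real.norm_eq_abs]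
  rw [hb2, hb3] at hmain
  have hsq : √(N4 : ℝ) * √(N4 : ℝ) = N4 := Real.mul_self_sqrt hN0.le
  have hs4 : 0 < √(N4 : ℝ) := Real.sqrt_pos.mpr hN0
  have h1 : (N4 : ℝ) * |(g1 : ℝ)| ≤ |(g1 : ℝ)| * ‖cv K z‖ := by
    rw [mul_comm]
    exact mul_le_mul_of_nonneg_left hnorm (abs_nonneg _)
  have h3 : √(N4 : ℝ) * (√(N4 : ℝ) * |(g1 : ℝ)|) ≤ √(N4 : ℝ) *
      (√(N1 : ℝ) * (|((s * a2 + t * b2 : ℤ) : ℝ)| * √(N2 : ℝ) +
        |((s * a3 + t * b3 : ℤ) : ℝ)| * √(N3 : ℝ))) := by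
    calc √(N4 : ℝ) * (√(N4 : ℝ) * |(g1 : ℝ)|) = (N4 : ℝ) * |(g1 : ℝ)| := by
          rw [← mul_assoc, hsq]
      _ ≤ _ := h1.trans hmain
      _ = _ := by ring
  exact le_of_mul_le_mul_left h3 hs4

end Pool.Agent.SMI
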