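import Pool.Agent.SMI.Ram

/-!
# SMI/Lob: the prime is ramified

PROOF.  `α1 = l b`: `l ^ 2 ∣ absNorm (span {α1}) = N1 ^ 3` (`nrm_nat`), so `l ∣ N1`; `l ∣ y1`; `ramA` (`I1`):
`l ∣ D`, `¬ l ^ 2 ∣ y1`, so `r = 0`.  `ramB`: `¬ l ^ 2 ∣ N1`.  `absNorm (span {π}) = N1 N2 N3` is divisible by
`l` and `l ∣ p`: `pdv`: `π = l π'`, so `l ^ 2 ∣ N1 N2 N3` (`nrm_nat`), and as `l ^ 2 ∤ N1`, `l ∣ N2 N3`.
If `l ∣ N3`, `ramC` (`I3`) gives `l ∣ y3`, against `d3` (`r = 0`).  So `l ∣ N2`, and `ramA` (`I2`) gives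
`¬ l ^ 2 ∣ y2`.
-/

set_option autoImplicit false

namespace Pool.Agent.SMI

open NumberField Pool.Agent.FTA Pool.Agent.FTB Pool.Agent.SMQ nonZeroDivisors

theorem lob (K : IntermediateField ℚ ℂ) [NumberField K] (h2 : Module.finrank ℚ K = 2)
    (him : ∃ x : K, (x : ℂ).im ≠ 0) (I1 I2 I3 : (Ideal (𝓞 K))⁰)
    (q1 : Pm K I1) (q2 : Pm K I2) (N1 N2 N3 : ℕ) (o1 : 1 ≤ N1) (o2 : 1 ≤ N2)
    (n1 : Ideal.absNorm (I1 : Ideal (𝓞 K)) = N1) (n2 : Ideal.absNorm (I2 : Ideal (𝓞 K)) = N2)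
    (n3 : Ideal.absNorm (I3 : Ideal (𝓞 K)) = N3) (π α1 α2 α3 : 𝓞 K)
    (sp : Ideal.span {π} = (I1 : Ideal (𝓞 K)) * (I2 : Ideal (𝓞 K)) * (I3 : Ideal (𝓞 K)))
    (s1 : Ideal.span {α1} = (I1 : Ideal (𝓞 K)) ^ 3) (s2 : Ideal.span {α2} = (I2 : Ideal (𝓞 K)) ^ 3)
    (s3 : Ideal.span {α3} = (I3 : Ideal (𝓞 K)) ^ 3)
    (xp p t1 y1 t2 y2 t3 y3 : ℤ) (c0 : Co K π xp p)
    (c1 : Co K α1 t1 y1) (c2 : Co K α2 t2 y2) (c3 : Co K α3 t3 y3) (l r : ℕ) (hl : l.Prime)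
    (d0 : (l : ℤ) ^ (r + 1) ∣ p) (d1 : (l : ℤ) ^ (r + 1) ∣ y1) (d2 : (l : ℤ) ^ (r + 1) ∣ y2)
    (d3 : ¬ (l : ℤ) ^ (r + 1) ∣ y3) (hb : ∃ b : 𝓞 K, α1 = (l : 𝓞 K) * b) :
    r = 0 ∧ ¬ (l : ℤ) ^ 2 ∣ y1 ∧ ¬ (l : ℤ) ^ 2 ∣ y2 ∧ l ∣ aD K ∧ l ∣ N1 ∧ l ∣ N2 := by
  have hly1 : (l : ℤ) ∣ y1 := (dvd_pow_self (l : ℤ) (Nat.succ_ne_zero r)).trans d1
  have hly2 : (l : ℤ) ∣ y2 := (dvd_pow_self (l : ℤ) (Nat.succ_ne_zero r)).trans d2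
  have hlp : (l : ℤ) ∣ p := (dvd_pow_self (l : ℤ) (Nat.succ_ne_zero r)).trans d0
  obtain ⟨b, hb⟩ := hb
  have hnl : ∀ x : 𝓞 K, Ideal.absNorm (Ideal.span {(l : 𝓞 K) * x}) =
      l ^ 2 * Ideal.absNorm (Ideal.span {x}) := by
    intro x
    rw [← Ideal.span_singleton_mul_span_singleton, map_mul, nrm_nat K h2 l]
  have h1 : l ^ 2 * Ideal.absNorm (Ideal.span {b}) = N1 ^ 3 := by
    rw [← hnl, ← hb, s1, map_pow, n1]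
  have hlN1 : l ∣ N1 := by
    apply hl.dvd_of_dvd_pow (n := 3)
    rw [← h1]
    exact Dvd.dvd.mul_right (dvd_pow_self l two_ne_zero) _
  obtain ⟨hlD, hy1⟩ := ramA K h2 him I1 q1 N1 o1 n1 α1 s1 t1 y1 c1 l hl hlN1 hly1
  have hr : r = 0 := by
    by_contra hr
    apply hy1
    exact (pow_dvd_pow (l : ℤ) (by omega : 2 ≤ r + 1)).trans d1
  have hN1 : ¬ l ^ 2 ∣ N1 := ramB K h2 him I1 q1 N1 o1 n1 l hl hlD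
  have hπ : Ideal.absNorm (Ideal.span {π}) = N1 * N2 * N3 := by
    rw [sp, map_mul, map_mul, n1, n2, n3]
  obtain ⟨π', hπ'⟩ := pdv K h2 him π xp p c0 l hl hlp (by
    rw [hπ, mul_assoc]
    exact Dvd.dvd.mul_right hlN1 _)
  have h3 : l ^ 2 ∣ N1 * N2 * N3 := by
    rw [← hπ, hπ', hnl]
    exact Dvd.intro _ rfl
  obtain ⟨m, hm⟩ := hlN1
  have hlm : ¬ l ∣ m := by
    rintro ⟨m', hm'⟩
    apply hN1
    exact ⟨m', by rw [hm, hm']; ring⟩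
  have h4 : l ∣ m * (N2 * N3) := by
    have h5 : l * l ∣ l * (m * (N2 * N3)) := by
      have h6 : N1 * N2 * N3 = l * (m * (N2 * N3)) := by rw [hm]; ring
      rw [← h6, ← pow_two]
      exact h3
    exact Nat.dvd_of_mul_dvd_mul_left hl.pos h5
  have h5 : l ∣ N2 ∨ l ∣ N3 := by
    rcases hl.dvd_mul.1 h4 with h | h
    · exact absurd h hlm
    · exact hl.dvd_mul.1 h
  have hlN2 : l ∣ N2 := by
    rcases h5 with h | h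
    · exact h
    · exfalso
      apply d3
      rw [hr, zero_add, pow_one]
      exact ramC K h2 him I3 N3 n3 α3 s3 t3 y3 c3 l hl hlD h
  obtain ⟨-, hy2⟩ := ramA K h2 him I2 q2 N2 o2 n2 α2 s2 t2 y2 c2 l hl hlN2 hly2
  exact ⟨hr, hy1, hy2, hlD, ⟨m, hm⟩, hlN2⟩

end Pool.Agent.SMI
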