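import Pool.Agent.SMI.Loa
import Pool.Agent.SMI.Lob

/-!
# SMI/Loi: the field lo

PROOF.  `loa`; in the first case `lob`, in the second case `lob` with the indices 1 and 2 exchanged
(`π ^ 3 = α2 * α1 * α3`, `span {π} = I2 * I1 * I3`; `mul_comm`).  So `r = 0`, `¬ l ^ 2 ∣ y1`, `¬ l ^ 2 ∣ y2`,
`l ∣ aD K`, `l ∣ N1`, `l ∣ N2`.  The norms of `γ1, γ2, γ3` are `N1 ^ 2 N2 N3`, `N2 ^ 2 N3 N1`, `N3 ^ 2 N1 N2`, all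
divisible by `l ^ 2`; `itd`.
-/

set_option autoImplicit false

namespace Pool.Agent.SMI

open NumberField Pool.Agent.FTA Pool.Agent.FTB Pool.Agent.SMQ nonZeroDivisors

private theorem Loi_aux (K : IntermediateField ℚ ℂ) [NumberField K]
    (h2 : Module.finrank ℚ K = 2) (him : ∃ x : K, (x : ℂ).im ≠ 0)
    (N1 N2 N3 : ℕ) (γ1 γ2 γ3 : 𝓞 K)
    (m1 : Ideal.absNorm (Ideal.span {γ1}) = N1 ^ 2 * (N2 * N3))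
    (m2 : Ideal.absNorm (Ideal.span {γ2}) = N2 ^ 2 * (N3 * N1))
    (m3 : Ideal.absNorm (Ideal.span {γ3}) = N3 ^ 2 * (N1 * N2))
    (r1 g1 r2 g2 r3 g3 : ℤ)
    (k1 : Co K γ1 r1 g1) (k2 : Co K γ2 r2 g2) (k3 : Co K γ3 r3 g3) (l : ℕ) (hl : l.Prime)
    (hD : l ∣ aD K) (h1 : l ∣ N1) (h2' : l ∣ N2) :
    (l : ℤ) ∣ g1 ∧ (l : ℤ) ∣ g2 ∧ (l : ℤ) ∣ g3 := by
  refine ⟨itd K h2 him γ1 r1 g1 k1 l hl hD ?_, itd K h2 him γ2 r2 g2 k2 l hl hD ?_,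
    itd K h2 him γ3 r3 g3 k3 l hl hD ?_⟩
  · rw [m1]
    exact Dvd.dvd.mul_right (pow_dvd_pow_of_dvd h1 2) _
  · rw [m2]
    exact Dvd.dvd.mul_right (pow_dvd_pow_of_dvd h2' 2) _
  · rw [m3]
    refine Dvd.dvd.mul_left ?_ _
    rw [pow_two]
    exact mul_dvd_mul h1 h2'

theorem loi (K : IntermediateField ℚ ℂ) [NumberField K] (h2 : Module.finrank ℚ K = 2)
    (him : ∃ x : K, (x : ℂ).im ≠ 0) (I1 I2 I3 : (Ideal (𝓞 K))⁰)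
    (q1 : Pm K I1) (q2 : Pm K I2) (N1 N2 N3 : ℕ) (o1 : 1 ≤ N1) (o2 : 1 ≤ N2)
    (n1 : Ideal.absNorm (I1 : Ideal (𝓞 K)) = N1) (n2 : Ideal.absNorm (I2 : Ideal (𝓞 K)) = N2)
    (n3 : Ideal.absNorm (I3 : Ideal (𝓞 K)) = N3) (π α1 α2 α3 γ1 γ2 γ3 : 𝓞 K)
    (sp : Ideal.span {π} = (I1 : Ideal (𝓞 K)) * (I2 : Ideal (𝓞 K)) * (I3 : Ideal (𝓞 K)))
    (s1 : Ideal.span {α1} = (I1 : Ideal (𝓞 K)) ^ 3) (s2 : Ideal.span {α2} = (I2 : Ideal (𝓞 K)) ^ 3)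
    (s3 : Ideal.span {α3} = (I3 : Ideal (𝓞 K)) ^ 3) (hp : π ^ 3 = α1 * α2 * α3)
    (m1 : Ideal.absNorm (Ideal.span {γ1}) = N1 ^ 2 * (N2 * N3))
    (m2 : Ideal.absNorm (Ideal.span {γ2}) = N2 ^ 2 * (N3 * N1))
    (m3 : Ideal.absNorm (Ideal.span {γ3}) = N3 ^ 2 * (N1 * N2))
    (xp p t1 y1 t2 y2 t3 y3 r1 g1 r2 g2 r3 g3 : ℤ) (c0 : Co K π xp p)
    (c1 : Co K α1 t1 y1) (c2 : Co K α2 t2 y2) (c3 : Co K α3 t3 y3)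
    (k1 : Co K γ1 r1 g1) (k2 : Co K γ2 r2 g2) (k3 : Co K γ3 r3 g3) (l r : ℕ) (hl : l.Prime)
    (d0 : (l : ℤ) ^ (r + 1) ∣ p) (d1 : (l : ℤ) ^ (r + 1) ∣ y1) (d2 : (l : ℤ) ^ (r + 1) ∣ y2)
    (d3 : ¬ (l : ℤ) ^ (r + 1) ∣ y3) :
    r = 0 ∧ ¬ (l : ℤ) ^ 2 ∣ y1 ∧ ¬ (l : ℤ) ^ 2 ∣ y2 ∧
      (l : ℤ) ∣ g1 ∧ (l : ℤ) ∣ g2 ∧ (l : ℤ) ∣ g3 := by
  rcases loa K h2 him π α1 α2 α3 hp xp p t1 y1 t2 y2 t3 y3 c0 c1 c2 c3 l r hl d0 d1 d2 d3 with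
    hb | hb
  · obtain ⟨a1, a2, a3, a4, a5, a6⟩ := lob K h2 him I1 I2 I3 q1 q2 N1 N2 N3 o1 o2 n1 n2 n3
      π α1 α2 α3 sp s1 s2 s3 xp p t1 y1 t2 y2 t3 y3 c0 c1 c2 c3 l r hl d0 d1 d2 d3 hb
    exact ⟨a1, a2, a3, Loi_aux K h2 him N1 N2 N3 γ1 γ2 γ3 m1 m2 m3 r1 g1 r2 g2 r3 g3 k1 k2 k3
      l hl a4 a5 a6⟩
  · have sp' : Ideal.span {π} = (I2 : Ideal (𝓞 K)) * (I1 : Ideal (𝓞 K)) * (I3 : Ideal (𝓞 K)) := by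
      rw [sp, mul_comm (I1 : Ideal (𝓞 K)) (I2 : Ideal (𝓞 K))]
    obtain ⟨a1, a2, a3, a4, a5, a6⟩ := lob K h2 him I2 I1 I3 q2 q1 N2 N1 N3 o2 o1 n2 n1 n3
      π α2 α1 α3 sp' s2 s1 s3 xp p t2 y2 t1 y1 t3 y3 c0 c2 c1 c3 l r hl d0 d2 d1 d3 hb
    exact ⟨a1, a3, a2, Loi_aux K h2 him N1 N2 N3 γ1 γ2 γ3 m1 m2 m3 r1 g1 r2 g2 r3 g3 k1 k2 k3
      l hl a4 a6 a5⟩

end Pool.Agent.SMI
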