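import Pool.Agent.SMI.Ram

/-!
# SMI/Nni: the field nn

PROOF.  Suppose `l ^ 2 ∣ N`; then `l ∣ N`.  If `l ∣ aD K`, `ramB` is a contradiction.  If `l ∣ y`, `ramA` gives
`l ∣ aD K`, and again `ramB`.
-/

set_option autoImplicit false

namespace Pool.Agent.SMI

open NumberField Pool.Agent.FTA Pool.Agent.FTB Pool.Agent.SMQ nonZeroDivisors

theorem nni (K : IntermediateField ℚ ℂ) [NumberField K] (h2 : Module.finrank ℚ K = 2)
    (him : ∃ x : K, (x : ℂ).im ≠ 0) (I : (Ideal (𝓞 K))⁰) (hI : Pm K I)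
    (N : ℕ) (hN1 : 1 ≤ N) (hN : Ideal.absNorm (I : Ideal (𝓞 K)) = N)
    (α : 𝓞 K) (hα : Ideal.span {α} = (I : Ideal (𝓞 K)) ^ 3) (x y : ℤ) (hc : Co K α x y)
    (l : ℕ) (hl : l.Prime) (h : l ∣ aD K ∨ (l : ℤ) ∣ y) : ¬ l ^ 2 ∣ N := by
  intro hN2
  have hlN : l ∣ N := (Dvd.intro_left (l ^ 1) (by ring)).trans hN2
  rcases h with hD | hy
  · exact ramB K h2 him I hI N hN1 hN l hl hD hN2
  · exact ramB K h2 him I hI N hN1 hN l hl
      (ramA K h2 him I hI N hN1 hN α hα x y hc l hl hlN hy).1 hN2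

end Pool.Agent.SMI
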