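import Pool.Agent.SMI.Defs
import Pool.Agent.FTB.Cor
import Pool.Agent.FTB.CMn
import Pool.Agent.FTA.KeyP

/-!
# SMI/Nzz: the inequalities y ≠ 0 and x1 y2 ≠ x2 y1

PROOF of `nzy`.  `keyP` with `p = 3` (FTA/KeyP): `2 ≤ absNorm I`, since `absNorm I = 1` gives `I = ⊤`
(`Ideal.absNorm_eq_one_iff`) and `mk0 I = 1`; `cim`-like primitivity is the hypothesis `hI`.
PROOF of `nzk`.  Suppose `x1 y2 = x2 y1`.  `co_conj` gives `α1', α2'` with coordinates `(x1, -y1)`, `(x2, -y2)`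
and `α1 α1' = absNorm (span {α1}) = N1 ^ 3`, so `span {α1} * span {α1'} = span {N1} ^ 3 = I1 ^ 3 J1 ^ 3` and
`span {α1'} = J1 ^ 3` (cancel); in the same way `span {α2'} = J2 ^ 3`.  `α1' α2` and `α1 α2'` have the same
coordinates: by `co_mul` (with `co_exists` for the products) `2 T = x1 x2 + D y1 y2` and
`2 Y = x1 y2 - y1 x2 = 0` for the first, `2 T' = x1 x2 + D y1 y2`, `2 Y' = -x1 y2 + y1 x2 = 0` for the second; so
they are equal (`co_inj`) and `J1 ^ 3 I2 ^ 3 = I1 ^ 3 J2 ^ 3`, `J1 I2 = I1 J2` (`powEq`).  Classes: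
`A⁻¹ B = A B⁻¹`, so `A ^ 2 = B ^ 2`, and `A ^ 3 = B ^ 3 = 1` gives `A = B`, a contradiction.
-/

set_option autoImplicit false

namespace Pool.Agent.SMI

open NumberField Pool.Agent.FTA Pool.Agent.FTB Pool.Agent.SMQ nonZeroDivisors

theorem nzy (K : IntermediateField ℚ ℂ) [NumberField K] (h2 : Module.finrank ℚ K = 2)
    (him : ∃ x : K, (x : ℂ).im ≠ 0) (I : (Ideal (𝓞 K))⁰) (hI : Pm K I)
    (N : ℕ) (hN : Ideal.absNorm (I : Ideal (𝓞 K)) = N) (hA : ClassGroup.mk0 I ≠ 1)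
    (α : 𝓞 K) (hα : Ideal.span {α} = (I : Ideal (𝓞 K)) ^ 3) (x y : ℤ) (hc : Co K α x y) :
    y ≠ 0 ∧ 4 * (N : ℤ) ^ 3 = x ^ 2 + (aD K : ℤ) * y ^ 2 := by
  have hI0 : (I : Ideal (𝓞 K)) ≠ 0 := nonZeroDivisors.coe_ne_zero I
  have hN2 : 2 ≤ Ideal.absNorm (I : Ideal (𝓞 K)) := by
    have h0 : Ideal.absNorm (I : Ideal (𝓞 K)) ≠ 0 := by
      rw [Ne, Ideal.absNorm_eq_zero_iff]
      exact hI0
    have h1 : Ideal.absNorm (I : Ideal (𝓞 K)) ≠ 1 := by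
      intro h
      rw [Ideal.absNorm_eq_one_iff] at h
      apply hA
      rw [ClassGroup.mk0_eq_one_iff, h]
      exact top_isPrincipal
    omega
  obtain ⟨h3, h4, _⟩ := keyP 3 (by decide) K h2 him (I : Ideal (𝓞 K)) hN2 hI α hα.symm x y hc
  refine ⟨h4, ?_⟩
  rw [hN] at h3
  linarith

private theorem nzk_cj (K : IntermediateField ℚ ℂ) [NumberField K] (h2 : Module.finrank ℚ K = 2)
    (him : ∃ x : K, (x : ℂ).im ≠ 0) (I J : (Ideal (𝓞 K))⁰) (N : ℕ) (c : CI K I J N)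
    (α : 𝓞 K) (s : Ideal.span {α} = (I : Ideal (𝓞 K)) ^ 3) (x y : ℤ) (k : Co K α x y) :
    ∃ α' : 𝓞 K, Co K α' x (-y) ∧ Ideal.span {α'} = (J : Ideal (𝓞 K)) ^ 3 := by
  obtain ⟨α', h1, h3⟩ := co_conj K h2 him α x y k
  refine ⟨α', h1, ?_⟩
  have hI0 : (I : Ideal (𝓞 K)) ^ 3 ≠ 0 := pow_ne_zero 3 (nonZeroDivisors.coe_ne_zero I)
  have hn : Ideal.absNorm (Ideal.span {α}) = N ^ 3 := by
    rw [s, map_pow, c.nI]
  apply mul_left_cancel₀ hI0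
  rw [← mul_pow, c.IJ, ← s, Ideal.span_singleton_mul_span_singleton, h3, hn,
    Ideal.span_singleton_pow]
  push_cast
  rfl

private theorem nzk_grp {G : Type*} [CommGroup G] (A B : G) (h : A⁻¹ * B = A * B⁻¹)
    (hA : A ^ 3 = 1) (hB : B ^ 3 = 1) : A = B := by
  rw [inv_mul_eq_iff_eq_mul, ← mul_assoc] at h
  have h5 : B * B = A * A := eq_mul_inv_iff_mul_eq.1 h
  have h9 : A ^ 3 = A * (A * A) := by rw [pow_succ' A 2, pow_two]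
  have h10 : B ^ 3 = B * (B * B) := by rw [pow_succ' B 2, pow_two]
  rw [h9] at hA
  rw [h10, h5] at hB
  exact mul_right_cancel (hA.trans hB.symm)

theorem nzk (K : IntermediateField ℚ ℂ) [NumberField K] (h2 : Module.finrank ℚ K = 2)
    (him : ∃ x : K, (x : ℂ).im ≠ 0) (I1 I2 J1 J2 : (Ideal (𝓞 K))⁰) (N1 N2 : ℕ)
    (c1 : CI K I1 J1 N1) (c2 : CI K I2 J2 N2) (hA : ClassGroup.mk0 I1 ^ 3 = 1)
    (hB : ClassGroup.mk0 I2 ^ 3 = 1) (hne : ClassGroup.mk0 I1 ≠ ClassGroup.mk0 I2)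
    (α1 α2 : 𝓞 K) (s1 : Ideal.span {α1} = (I1 : Ideal (𝓞 K)) ^ 3)
    (s2 : Ideal.span {α2} = (I2 : Ideal (𝓞 K)) ^ 3) (x1 y1 x2 y2 : ℤ) (k1 : Co K α1 x1 y1)
    (k2 : Co K α2 x2 y2) : x1 * y2 ≠ x2 * y1 := by
  intro heq
  obtain ⟨α1', k1', s1'⟩ := nzk_cj K h2 him I1 J1 N1 c1 α1 s1 x1 y1 k1
  obtain ⟨α2', k2', s2'⟩ := nzk_cj K h2 him I2 J2 N2 c2 α2 s2 x2 y2 k2
  obtain ⟨T, Y, hTY⟩ := co_exists K h2 him (α1' * α2)
  obtain ⟨T', Y', hTY'⟩ := co_exists K h2 him (α1 * α2')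
  obtain ⟨e1, e2⟩ := co_mul K α1' α2 x1 (-y1) x2 y2 T Y k1' k2 hTY
  obtain ⟨e3, e4⟩ := co_mul K α1 α2' x1 y1 x2 (-y2) T' Y' k1 k2' hTY'
  have hT : T' = T := by
    have : 2 * T' = 2 * T := by rw [e1, e3]; ring
    linarith
  have hY : Y' = Y := by
    have : 2 * Y' = 2 * Y := by rw [e2, e4]; linarith
    linarith
  rw [hT, hY] at hTY'
  have hprod : α1' * α2 = α1 * α2' := co_inj K _ _ T Y hTY hTY'
  have hid : ((J1 : Ideal (𝓞 K)) * (I2 : Ideal (𝓞 K))) ^ 3 =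
      ((I1 : Ideal (𝓞 K)) * (J2 : Ideal (𝓞 K))) ^ 3 := by
    rw [mul_pow, mul_pow, ← s1', ← s2, ← s1, ← s2', Ideal.span_singleton_mul_span_singleton,
      Ideal.span_singleton_mul_span_singleton, hprod]
  have hid2 := powEq (𝓞 K) _ _ 3 (by norm_num) hid
  have hid3 : J1 * I2 = I1 * J2 := by
    apply Subtype.ext
    push_cast
    exact hid2
  have hcl := congrArg ClassGroup.mk0 hid3
  rw [map_mul, map_mul, c1.cJ, c2.cJ] at hcl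
  exact hne (nzk_grp _ _ hcl hA hB)

end Pool.Agent.SMI
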