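import Pool.Agent.SMI.Defs
import Pool.Agent.FTB.CMn

/-!
# SMI/Vci: ideals of minimal norm

PROOF of `vci`.  `cmn` gives `I`, `cpl` gives `J`, `N = absNorm I ≥ 1` (`I ≠ 0`,
`Ideal.absNorm_eq_zero_iff`).  `MinI K J`: if `mk0 J' = mk0 J` then `cpl` for `J'` gives `I'` with
`mk0 I' = (mk0 J')⁻¹ = mk0 I` and `absNorm I' = absNorm J'`, so
`absNorm J = absNorm I ≤ absNorm I' = absNorm J'`.
PROOF of `vcs`.  Clear (`mul_comm`, `inv_inv`).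
PROOF of `vcn`.  `cmn` for the class `mk0 I` gives `I0` with `(absNorm I0) ^ 2 ≤ aD K`, and
`N = absNorm I ≤ absNorm I0` by `h.mI`.
PROOF of `vcu`.  `h.mI`, `h'.mI` for each other.
PROOF of `vcv`.  `N = absNorm J`, `mk0 J = (mk0 I)⁻¹ = mk0 I'`, `h.mJ`, `h'.mI`.
-/

set_option autoImplicit false

namespace Pool.Agent.SMI

open NumberField Pool.Agent.FTA Pool.Agent.FTB Pool.Agent.SMQ nonZeroDivisors

theorem vci (K : IntermediateField ℚ ℂ) [NumberField K] (h2 : Module.finrank ℚ K = 2)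
    (C : ClassGroup (𝓞 K)) :
    ∃ (I J : (Ideal (𝓞 K))⁰) (N : ℕ), CI K I J N ∧ ClassGroup.mk0 I = C := by
  obtain ⟨I, hI, -, hmin⟩ := cmn K h2 C
  obtain ⟨J, hIJ, hJ, hcJ⟩ := cpl K h2 I
  refine ⟨I, J, Ideal.absNorm (I : Ideal (𝓞 K)), ⟨?_, rfl, hJ, hIJ, hcJ, hmin, ?_⟩, hI⟩
  · rw [Nat.one_le_iff_ne_zero]
    intro h0
    exact nonZeroDivisors.coe_ne_zero I (Ideal.absNorm_eq_zero_iff.1 h0)
  · intro J' hJ'
    obtain ⟨I', -, hn, hc⟩ := cpl K h2 J'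
    rw [hJ, ← hn]
    apply hmin
    rw [hc, hJ', hcJ, inv_inv]

theorem vcs (K : IntermediateField ℚ ℂ) [NumberField K] (I J : (Ideal (𝓞 K))⁰) (N : ℕ)
    (h : CI K I J N) : CI K J I N :=
  ⟨h.n1, h.nJ, h.nI, by rw [mul_comm]; exact h.IJ, by rw [h.cJ, inv_inv], h.mJ, h.mI⟩

theorem vcn (K : IntermediateField ℚ ℂ) [NumberField K] (h2 : Module.finrank ℚ K = 2)
    (I J : (Ideal (𝓞 K))⁰) (N : ℕ) (h : CI K I J N) : N ^ 2 ≤ aD K := by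
  obtain ⟨I0, hI0, hn, -⟩ := cmn K h2 (ClassGroup.mk0 I)
  have h1 := h.mI I0 hI0
  rw [h.nI] at h1
  exact le_trans (Nat.pow_le_pow_left h1 2) hn

theorem vcu (K : IntermediateField ℚ ℂ) [NumberField K] (I J I' J' : (Ideal (𝓞 K))⁰) (N N' : ℕ)
    (h : CI K I J N) (h' : CI K I' J' N') (e : ClassGroup.mk0 I = ClassGroup.mk0 I') :
    N = N' := by
  have h1 := h.mI I' e.symm
  have h2 := h'.mI I e
  rw [h.nI, h'.nI] at h1
  rw [h.nI, h'.nI] at h2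
  exact le_antisymm h1 h2

theorem vcv (K : IntermediateField ℚ ℂ) [NumberField K] (I J I' J' : (Ideal (𝓞 K))⁰) (N N' : ℕ)
    (h : CI K I J N) (h' : CI K I' J' N') (e : (ClassGroup.mk0 I)⁻¹ = ClassGroup.mk0 I') :
    N = N' :=
  vcu K J I I' J' N N' (vcs K I J N h) h' (by rw [h.cJ, e])

end Pool.Agent.SMI
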