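import Pool.Agent.SMI.Elm
import Pool.Agent.SMI.Abc
import Pool.Agent.SMI.Idn
import Pool.Agent.SMI.Nzz
import Pool.Agent.SMI.Gci
import Pool.Agent.SMI.Lbj
import Pool.Agent.SMI.Loi
import Pool.Agent.SMI.Nni

/-!
# SMI/Dex: from three ideals of minimal norm to the integers

PROOF.  `elm` gives the elements; `co_exists` their coordinates; `abc` (applied to the values of `cv`)
gives `a, b, c`; `Co K z t y` is the equation `2 cv z = t + y √D i` (unfold `Co`, `cv`).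
`np`: `co_norm` for `π` (`absNorm (span {π}) = N1 N2 N3`).  `ll`, `zz`: `idn2`.  `rel2, rel3, mm, kk, xx`:
`idn1`, for the index 2 with `(b, c, a)`, for the index 3 with `(c, a, b)` (products commute; `π = b c a`).
`ny`, `hy`: `nzy`; `ng`: `co_norm` for `γ1`, `absNorm (span {γ1}) = N1 ^ 2 (N2 N3)`.  `hD`: `mnd`.
`k12`: `nzk`; the classes of `I1, I2, I3` are different: `A ≠ B`; `B = C` would give `A B ^ 2 = 1`, `A = B`;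
`C = A` would give `A ^ 2 B = 1`, `B = A`; none of them is 1 (`A B ≠ 1`), and their cubes are 1.
`gc`: `gci` for `I1` with `x = α1`, `x' = π`: `α1 ∈ I1 ^ 3 ≤ I1`, `π ∈ I1 I2 I3 ≤ I1`, and
`N1 cv γ1 = cv α1 * conj (cv π)` follows from `γ1 = a ^ 2 conj b conj c`, `α1 = a ^ 3`, `π = a b c`,
`a conj a = N1`.  `cr`, `lb`: `bas` for `E` (`cim`) gives `x0` and `βj = bj N4 + aj x0` (`βj ∈ E`, since
`span {βj} = E * .. ≤ E`); put `u = (a1, a2, a3)`, `v = (b1, b2, b3)`; `lbj` for the three cyclic permutations.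
`lo`: `loi`, `nn`: `nni` (the ideals are primitive by `cim`); the relation `π ^ 3 = α1 α2 α3` in `𝓞 K` follows
from the one in `ℂ` (`a ^ 3 b ^ 3 c ^ 3 = (a b c) ^ 3`).  For the index 2 use
`span {π} = I2 * I3 * I1`, `π ^ 3 = α2 α3 α1` and so on.
-/

set_option autoImplicit false

namespace Pool.Agent.SMI

open NumberField Pool.Agent.FTA Pool.Agent.FTB Pool.Agent.SMQ nonZeroDivisors

private theorem Dex_grp {G : Type*} [CommGroup G] {A B C : G} (hi : Ind A B)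
    (hc : A * B * C = 1) :
    C ^ 3 = 1 ∧ C ≠ 1 ∧ B ≠ C ∧ C ≠ A := by
  obtain ⟨hA, hB, _, _, hAB, hAB1⟩ := hi
  have hC : C = (A * B)⁻¹ := eq_inv_of_mul_eq_one_right hc
  refine ⟨?_, ?_, ?_, ?_⟩
  · rw [hC, inv_pow, mul_pow, hA, hB, mul_one, inv_one]
  · intro h
    rw [h, mul_one] at hc
    exact hAB1 hc
  · intro h
    rw [← h] at hc
    apply hAB
    calc A = A * B ^ 3 := by rw [hB, mul_one]
      _ = (A * B * B) * B := by simp only [pow_succ, pow_zero, one_mul, mul_assoc]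
      _ = B := by rw [hc, one_mul]
  · intro h
    rw [h] at hc
    apply hAB
    calc A = A * B * A * A := by rw [hc, one_mul]
      _ = A ^ 3 * B := by
          simp only [pow_succ, pow_zero, one_mul]
          rw [mul_comm A B, mul_assoc, mul_assoc, mul_comm B]
          simp only [mul_assoc]
      _ = B := by rw [hA, one_mul]

private theorem Dex_u1 (K : IntermediateField ℚ ℂ) [NumberField K]
    (h2 : Module.finrank ℚ K = 2) (him : ∃ x : K, (x : ℂ).im ≠ 0)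
    (I1 I2 I3 E J1 J2 J3 F : (Ideal (𝓞 K))⁰) (N1 N2 N3 N4 : ℕ)
    (c1 : CI K I1 J1 N1) (c2 : CI K I2 J2 N2) (c3 : CI K I3 J3 N3) (c4 : CI K E F N4)
    (hA : ClassGroup.mk0 I1 ^ 3 = 1) (hB : ClassGroup.mk0 I2 ^ 3 = 1)
    (hA1 : ClassGroup.mk0 I1 ≠ 1) (hne : ClassGroup.mk0 I1 ≠ ClassGroup.mk0 I2)
    (π β1 β2 β3 γ1 γ2 γ3 α1 α2 α3 : 𝓞 K)
    (sp : Ideal.span {π} = (I1 : Ideal (𝓞 K)) * (I2 : Ideal (𝓞 K)) * (I3 : Ideal (𝓞 K)))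
    (e1 : E1 K I1 I2 I3 J1 J2 J3 E N1 N2 N3 N4 π β1 β2 β3 γ1 γ2 γ3 α1)
    (e2 : E1 K I2 I3 I1 J2 J3 J1 E N2 N3 N1 N4 π β2 β3 β1 γ2 γ3 γ1 α2)
    (e3 : E1 K I3 I1 I2 J3 J1 J2 E N3 N1 N2 N4 π β3 β1 β2 γ3 γ1 γ2 α3)
    (a b c : ℂ) (ha : a * (starRingEnd ℂ) a = N1) (hb : b * (starRingEnd ℂ) b = N2)
    (hc : c * (starRingEnd ℂ) c = N3) (hπ : cv K π = a * b * c)
    (h1 : cv K α1 = a ^ 3) (h2' : cv K α2 = b ^ 3) (h3 : cv K α3 = c ^ 3)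
    (k1 : cv K γ1 = a ^ 2 * (starRingEnd ℂ) b * (starRingEnd ℂ) c)
    (k2 : cv K γ2 = b ^ 2 * (starRingEnd ℂ) c * (starRingEnd ℂ) a)
    (k3 : cv K γ3 = c ^ 2 * (starRingEnd ℂ) a * (starRingEnd ℂ) b)
    (p xp x1 x2 x3 y1 y2 y3 g1 g2 g3 r1 r2 r3 : ℤ) (d0 : Co K π xp p)
    (d1 : Co K α1 x1 y1) (d2 : Co K α2 x2 y2) (d3 : Co K α3 x3 y3)
    (f1 : Co K γ1 r1 g1) (f2 : Co K γ2 r2 g2) (f3 : Co K γ3 r3 g3)
    (x0 : 𝓞 K) (b0 : ℤ) (hx0 : x0 ∈ (E : Ideal (𝓞 K))) (cx : Co K x0 b0 1)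
    (a1 a2 a3 b1 b2 b3 : ℤ)
    (l2 : β2 = (b2 : 𝓞 K) * (N4 : 𝓞 K) + (a2 : 𝓞 K) * x0)
    (l3 : β3 = (b3 : 𝓞 K) * (N4 : 𝓞 K) + (a3 : 𝓞 K) * x0) :
    U1 (aD K) N1 N2 N3 N4 p xp x1 x2 x3 y1 y2 y3 g1 g2 g3 r1 r2 r3 a1 a2 a3 b1 b2 b3 := by
  have hDp : 1 ≤ aD K := aD_pos K
  have hp' : 2 * (a * b * c) = (xp : ℂ) + (p : ℂ) * ((√(aD K : ℝ) : ℝ) : ℂ) * Complex.I := by
    rw [← hπ]; exact d0
  have h1' : 2 * a ^ 3 = (x1 : ℂ) + (y1 : ℂ) * ((√(aD K : ℝ) : ℝ) : ℂ) * Complex.I := by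
    rw [← h1]; exact d1
  have h2'' : 2 * b ^ 3 = (x2 : ℂ) + (y2 : ℂ) * ((√(aD K : ℝ) : ℝ) : ℂ) * Complex.I := by
    rw [← h2']; exact d2
  have h3' : 2 * c ^ 3 = (x3 : ℂ) + (y3 : ℂ) * ((√(aD K : ℝ) : ℝ) : ℂ) * Complex.I := by
    rw [← h3]; exact d3
  have k1' : 2 * (a ^ 2 * (starRingEnd ℂ) b * (starRingEnd ℂ) c) =
      (r1 : ℂ) + (g1 : ℂ) * ((√(aD K : ℝ) : ℝ) : ℂ) * Complex.I := by
    rw [← k1]; exact f1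
  have k2' : 2 * (b ^ 2 * (starRingEnd ℂ) c * (starRingEnd ℂ) a) =
      (r2 : ℂ) + (g2 : ℂ) * ((√(aD K : ℝ) : ℝ) : ℂ) * Complex.I := by
    rw [← k2]; exact f2
  have k3' : 2 * (c ^ 2 * (starRingEnd ℂ) a * (starRingEnd ℂ) b) =
      (r3 : ℂ) + (g3 : ℂ) * ((√(aD K : ℝ) : ℝ) : ℂ) * Complex.I := by
    rw [← k3]; exact f3
  obtain ⟨i1, i2, i3, i4, i5⟩ := idn1 (aD K) N1 N2 N3 hDp a b c ha hb hc p xp x1 x2 x3 y1 y2 y3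
    g1 g2 g3 r1 r2 r3 hp' h1' h2'' h3' k1' k2' k3'
  have q1 : Pm K I1 := cim K h2 I1 J1 N1 c1
  have q2 : Pm K I2 := cim K h2 I2 J2 N2 c2
  obtain ⟨hy, hny⟩ := nzy K h2 him I1 q1 N1 c1.nI hA1 α1 e1.sa x1 y1 d1
  have m1 : Ideal.absNorm (Ideal.span {γ1}) = N1 ^ 2 * (N2 * N3) := by
    rw [e1.sg, map_mul, map_mul, map_pow, c1.nI, c2.nJ, c3.nJ]
  have m2 : Ideal.absNorm (Ideal.span {γ2}) = N2 ^ 2 * (N3 * N1) := by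
    rw [e2.sg, map_mul, map_mul, map_pow, c2.nI, c3.nJ, c1.nJ]
  have m3 : Ideal.absNorm (Ideal.span {γ3}) = N3 ^ 2 * (N1 * N2) := by
    rw [e3.sg, map_mul, map_mul, map_pow, c3.nI, c1.nJ, c2.nJ]
  have hng := co_norm K h2 him γ1 r1 g1 f1
  rw [m1] at hng
  obtain ⟨hcr, hlb⟩ := lbj K h2 him E F N4 c4 x0 b0 hx0 cx β2 β3 γ1 a2 b2 a3 b3 l2 l3 r1 g1 f1
    e1.qg N1 N2 N3 e2.nb e3.nb
  have hp3 : π ^ 3 = α1 * α2 * α3 := by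
    apply RingOfIntegers.ext
    apply Subtype.ext
    have e : cv K π ^ 3 = cv K α1 * cv K α2 * cv K α3 := by
      rw [hπ, h1, h2', h3]
      ring
    simpa [cv] using e
  have hα1 : α1 ∈ (I1 : Ideal (𝓞 K)) := by
    have t : α1 ∈ Ideal.span {α1} := Ideal.mem_span_singleton_self α1
    rw [e1.sa] at t
    exact Ideal.pow_le_self (by norm_num) t
  have hπ1 : π ∈ (I1 : Ideal (𝓞 K)) := by
    have t : π ∈ Ideal.span {π} := Ideal.mem_span_singleton_self π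
    rw [sp, mul_assoc] at t
    exact Ideal.mul_le_left t
  have hgc : (N1 : ℂ) * cv K γ1 = cv K α1 * (starRingEnd ℂ) (cv K π) := by
    rw [k1, h1, hπ, map_mul, map_mul, ← ha]
    ring
  exact
    { hN := c1.n1
      hD := by
        have t := mnd K h2 I1 c1.mI
        rwa [c1.nI] at t
      hy := hy
      k12 := nzk K h2 him I1 I2 J1 J2 N1 N2 c1 c2 hA hB hne α1 α2 e1.sa e2.sa x1 y1 x2 y2 d1 d2
      ny := hny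
      ng := by
        rw [← hng]
        push_cast
        ring
      rel2 := i1
      rel3 := i2
      mm := i3
      kk := i4
      xx := i5
      gc := fun n hn1 hn2 => gci K h2 him I1 q1 N1 c1.n1 c1.nI α1 π γ1 x1 y1 xp p r1 g1 hα1 hπ1
        d1 d0 f1 hgc n hn2 hn1
      cr := hcr
      lb := hlb
      lo := fun l r hl t0 t1 t2 t3 => loi K h2 him I1 I2 I3 q1 q2 N1 N2 N3 c1.n1 c2.n1 c1.nI
        c2.nI c3.nI π α1 α2 α3 γ1 γ2 γ3 sp e1.sa e2.sa e3.sa hp3 m1 m2 m3 xp p x1 y1 x2 y2 x3 y3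
        r1 g1 r2 g2 r3 g3 d0 d1 d2 d3 f1 f2 f3 l r hl t0 t1 t2 t3
      nn := fun l hl t => nni K h2 him I1 q1 N1 c1.n1 c1.nI α1 e1.sa x1 y1 d1 l hl t }

theorem dex (K : IntermediateField ℚ ℂ) [NumberField K] (h2 : Module.finrank ℚ K = 2)
    (him : ∃ x : K, (x : ℂ).im ≠ 0) (I1 I2 I3 E J1 J2 J3 F : (Ideal (𝓞 K))⁰) (N1 N2 N3 N4 : ℕ)
    (c1 : CI K I1 J1 N1) (c2 : CI K I2 J2 N2) (c3 : CI K I3 J3 N3) (c4 : CI K E F N4)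
    (hi : Ind (ClassGroup.mk0 I1) (ClassGroup.mk0 I2))
    (hc : ClassGroup.mk0 I1 * ClassGroup.mk0 I2 * ClassGroup.mk0 I3 = 1)
    (he : ClassGroup.mk0 E = ClassGroup.mk0 I1 * (ClassGroup.mk0 I2)⁻¹) :
    ∃ (π α1 α2 α3 : 𝓞 K) (p xp : ℤ) (x y g r u v : V3),
      Ideal.span {π} = (I1 : Ideal (𝓞 K)) * (I2 : Ideal (𝓞 K)) * (I3 : Ideal (𝓞 K)) ∧
      Ideal.span {α1} = (I1 : Ideal (𝓞 K)) ^ 3 ∧ Ideal.span {α2} = (I2 : Ideal (𝓞 K)) ^ 3 ∧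
      Ideal.span {α3} = (I3 : Ideal (𝓞 K)) ^ 3 ∧
      Co K π xp p ∧ Co K α1 x.1 y.1 ∧ Co K α2 x.2.1 y.2.1 ∧ Co K α3 x.2.2 y.2.2 ∧
      Uq (aD K) p xp x y g r (N1, N2, N3) N4 u v := by
  obtain ⟨π, β1, β2, β3, γ1, γ2, γ3, α1, α2, α3, he'⟩ := elm K h2 him I1 I2 I3 E J1 J2 J3 F
    N1 N2 N3 N4 c1 c2 c3 c4 hi hc he
  obtain ⟨sp, np, e1, e2, e3⟩ := he'
  obtain ⟨a, b, c, ha, hb, hc', hπ, h1, h2', h3, k1, k2, k3⟩ := abc (cv K π) (cv K β1) (cv K β2)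
    (cv K β3) (cv K γ1) (cv K γ2) (cv K γ3) (cv K α1) (cv K α2) (cv K α3) N1 N2 N3 N4 c1.n1 c2.n1
    c3.n1 c4.n1 np e1.nb e2.nb e3.nb e1.qg e2.qg e3.qg e1.qa e2.qa e3.qa
  obtain ⟨hC3, hC1, hBC, hCA⟩ := Dex_grp hi hc
  obtain ⟨hA3, hB3, hA1, hB1, hAB, -⟩ := hi
  obtain ⟨xp, p, d0⟩ := co_exists K h2 him π
  obtain ⟨x1, y1, d1⟩ := co_exists K h2 him α1
  obtain ⟨x2, y2, d2⟩ := co_exists K h2 him α2
  obtain ⟨x3, y3, d3⟩ := co_exists K h2 him α3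
  obtain ⟨r1, g1, f1⟩ := co_exists K h2 him γ1
  obtain ⟨r2, g2, f2⟩ := co_exists K h2 him γ2
  obtain ⟨r3, g3, f3⟩ := co_exists K h2 him γ3
  obtain ⟨s1, a1, t1⟩ := co_exists K h2 him β1
  obtain ⟨s2, a2, t2⟩ := co_exists K h2 him β2
  obtain ⟨s3, a3, t3⟩ := co_exists K h2 him β3
  obtain ⟨x0, b0, hx0, cx, hbas, -⟩ := bas K h2 him E (cim K h2 E F N4 c4) N4 c4.n1 c4.nI
  have hβ : ∀ (β : 𝓞 K) (J I : Ideal (𝓞 K)), Ideal.span {β} = (E : Ideal (𝓞 K)) * J * I →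
      β ∈ (E : Ideal (𝓞 K)) := by
    intro β J I h
    have t : β ∈ Ideal.span {β} := Ideal.mem_span_singleton_self β
    rw [h, mul_assoc] at t
    exact Ideal.mul_le_left t
  obtain ⟨b1, l1⟩ := hbas β1 (hβ β1 _ _ e1.sb) s1 a1 t1
  obtain ⟨b2, l2⟩ := hbas β2 (hβ β2 _ _ e2.sb) s2 a2 t2
  obtain ⟨b3, l3⟩ := hbas β3 (hβ β3 _ _ e3.sb) s3 a3 t3
  have hDp : 1 ≤ aD K := aD_pos K
  have hp' : 2 * (a * b * c) = (xp : ℂ) + (p : ℂ) * ((√(aD K : ℝ) : ℝ) : ℂ) * Complex.I := by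
    rw [← hπ]; exact d0
  have h1' : 2 * a ^ 3 = (x1 : ℂ) + (y1 : ℂ) * ((√(aD K : ℝ) : ℝ) : ℂ) * Complex.I := by
    rw [← h1]; exact d1
  have h2'' : 2 * b ^ 3 = (x2 : ℂ) + (y2 : ℂ) * ((√(aD K : ℝ) : ℝ) : ℂ) * Complex.I := by
    rw [← h2']; exact d2
  have h3' : 2 * c ^ 3 = (x3 : ℂ) + (y3 : ℂ) * ((√(aD K : ℝ) : ℝ) : ℂ) * Complex.I := by
    rw [← h3]; exact d3
  have k1' : 2 * (a ^ 2 * (starRingEnd ℂ) b * (starRingEnd ℂ) c) =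
      (r1 : ℂ) + (g1 : ℂ) * ((√(aD K : ℝ) : ℝ) : ℂ) * Complex.I := by
    rw [← k1]; exact f1
  have k2' : 2 * (b ^ 2 * (starRingEnd ℂ) c * (starRingEnd ℂ) a) =
      (r2 : ℂ) + (g2 : ℂ) * ((√(aD K : ℝ) : ℝ) : ℂ) * Complex.I := by
    rw [← k2]; exact f2
  have k3' : 2 * (c ^ 2 * (starRingEnd ℂ) a * (starRingEnd ℂ) b) =
      (r3 : ℂ) + (g3 : ℂ) * ((√(aD K : ℝ) : ℝ) : ℂ) * Complex.I := by
    rw [← k3]; exact f3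
  obtain ⟨ill, izz⟩ := idn2 (aD K) N1 N2 N3 hDp a b c ha hb hc' p xp x1 x2 x3 y1 y2 y3
    g1 g2 g3 r1 r2 r3 hp' h1' h2'' h3' k1' k2' k3'
  have hnp := co_norm K h2 him π xp p d0
  rw [sp, map_mul, map_mul, c1.nI, c2.nI, c3.nI] at hnp
  have sp2 : Ideal.span {π} = (I2 : Ideal (𝓞 K)) * (I3 : Ideal (𝓞 K)) * (I1 : Ideal (𝓞 K)) := by
    rw [sp]; ring
  have sp3 : Ideal.span {π} = (I3 : Ideal (𝓞 K)) * (I1 : Ideal (𝓞 K)) * (I2 : Ideal (𝓞 K)) := by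
    rw [sp]; ring
  refine ⟨π, α1, α2, α3, p, xp, (x1, x2, x3), (y1, y2, y3), (g1, g2, g3), (r1, r2, r3),
    (a1, a2, a3), (b1, b2, b3), sp, e1.sa, e2.sa, e3.sa, d0, d1, d2, d3, ?_⟩
  exact
    { np := by
        rw [← hnp]
        push_cast
        ring
      ll := ill
      zz := izz
      e1 := Dex_u1 K h2 him I1 I2 I3 E J1 J2 J3 F N1 N2 N3 N4 c1 c2 c3 c4 hA3 hB3 hA1 hAB
        π β1 β2 β3 γ1 γ2 γ3 α1 α2 α3 sp e1 e2 e3 a b c ha hb hc' hπ h1 h2' h3 k1 k2 k3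
        p xp x1 x2 x3 y1 y2 y3 g1 g2 g3 r1 r2 r3 d0 d1 d2 d3 f1 f2 f3 x0 b0 hx0 cx
        a1 a2 a3 b1 b2 b3 l2 l3
      e2 := Dex_u1 K h2 him I2 I3 I1 E J2 J3 J1 F N2 N3 N1 N4 c2 c3 c1 c4 hB3 hC3 hB1 hBC
        π β2 β3 β1 γ2 γ3 γ1 α2 α3 α1 sp2 e2 e3 e1 b c a hb hc' ha (by rw [hπ]; ring)
        h2' h3 h1 k2 k3 k1
        p xp x2 x3 x1 y2 y3 y1 g2 g3 g1 r2 r3 r1 d0 d2 d3 d1 f2 f3 f1 x0 b0 hx0 cx
        a2 a3 a1 b2 b3 b1 l3 l1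
      e3 := Dex_u1 K h2 him I3 I1 I2 E J3 J1 J2 F N3 N1 N2 N4 c3 c1 c2 c4 hC3 hA3 hC1 hCA
        π β3 β1 β2 γ3 γ1 γ2 α3 α1 α2 sp3 e3 e1 e2 c a b hc' ha hb (by rw [hπ]; ring)
        h3 h1 h2' k3 k1 k2
        p xp x3 x1 x2 y3 y1 y2 g3 g1 g2 r3 r1 r2 d0 d3 d1 d2 f3 f1 f2 x0 b0 hx0 cx
        a3 a1 a2 b3 b1 b2 l1 l2 }

end Pool.Agent.SMI
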