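import Pool.Agent.SMI.Defs
import Pool.Agent.SMI.Dex

/-!
# SMI/Vdx: the integers attached to a triple of ideals
-/

set_option autoImplicit false

namespace Pool.Agent.SMI

open NumberField Pool.Agent.FTA Pool.Agent.FTB Pool.Agent.SMQ nonZeroDivisors

/-- the integers attached to a triple of ideals -/
structure Dx (K : IntermediateField ℚ ℂ) [NumberField K] (I1 I2 I3 : (Ideal (𝓞 K))⁰)
    (N : ℕ × ℕ × ℕ) (N4 : ℕ) (p xp : ℤ) (x y g : V3) : Prop where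
  sp : ∃ a : 𝓞 K, Co K a xp p ∧
    Ideal.span {a} = (I1 : Ideal (𝓞 K)) * (I2 : Ideal (𝓞 K)) * (I3 : Ideal (𝓞 K))
  s1 : ∃ a : 𝓞 K, Co K a x.1 y.1 ∧ Ideal.span {a} = (I1 : Ideal (𝓞 K)) ^ 3
  s2 : ∃ a : 𝓞 K, Co K a x.2.1 y.2.1 ∧ Ideal.span {a} = (I2 : Ideal (𝓞 K)) ^ 3
  s3 : ∃ a : 𝓞 K, Co K a x.2.2 y.2.2 ∧ Ideal.span {a} = (I3 : Ideal (𝓞 K)) ^ 3
  uq : ∃ r u v : V3, Uq (aD K) p xp x y g r N N4 u v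

theorem vdx (K : IntermediateField ℚ ℂ) [NumberField K] (h2 : Module.finrank ℚ K = 2)
    (him : ∃ x : K, (x : ℂ).im ≠ 0) (I1 I2 I3 E J1 J2 J3 F : (Ideal (𝓞 K))⁰) (N1 N2 N3 N4 : ℕ)
    (c1 : CI K I1 J1 N1) (c2 : CI K I2 J2 N2) (c3 : CI K I3 J3 N3) (c4 : CI K E F N4)
    (hi : Ind (ClassGroup.mk0 I1) (ClassGroup.mk0 I2))
    (hc : ClassGroup.mk0 I1 * ClassGroup.mk0 I2 * ClassGroup.mk0 I3 = 1)
    (he : ClassGroup.mk0 E = ClassGroup.mk0 I1 * (ClassGroup.mk0 I2)⁻¹) :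
    ∃ (p xp : ℤ) (x y g : V3), Dx K I1 I2 I3 (N1, N2, N3) N4 p xp x y g := by
  obtain ⟨a, a1, a2, a3, p, xp, x, y, g, r, u, v, h1, h2, h3, h4, h5, h6, h7, h8, h9⟩ :=
    dex K h2 him I1 I2 I3 E J1 J2 J3 F N1 N2 N3 N4 c1 c2 c3 c4 hi hc he
  exact ⟨p, xp, x, y, g, ⟨a, h5, h1⟩, ⟨a1, h6, h2⟩, ⟨a2, h7, h3⟩, ⟨a3, h8, h4⟩, r, u, v, h9⟩

end Pool.Agent.SMI
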