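import Pool.Agent.SMI.Defs

/-!
# SMI/Vpl: the four lines of the plane spanned by `A` and `B`

PROOF of `vpl`.  Let `m` be the smallest of `ν A`, `ν B`, `ν (A B)`, `ν (A B⁻¹)`.
* `m = ν A`: `A' = A`, `B' = B`; `A A B = (A B⁻¹)⁻¹` as `A ^ 3 = 1`.
* `m = ν B`: `A' = B`, `B' = A`; `B B A = A B⁻¹`.
* `m = ν (A B)`: `A' = A B`, `B' = A`; `A' B' = A ^ 2 B = (A B⁻¹)⁻¹`, `A' A' B' = A ^ 3 B ^ 2 = B⁻¹`;
  `A = B'`, `B = A' B' ^ 2`.
* `m = ν (A B⁻¹)`: `A' = A B⁻¹`, `B' = A`; `A' B' = A ^ 2 B⁻¹ = (A B)⁻¹`, `A' A' B' = A ^ 3 B⁻² = B`;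
  `A = B'`, `B = A' ^ 2 B'` (as `A ^ 3 = 1`, `B⁻² = B`).
`Ind` of the new pairs: products of powers of `A`, `B` (e.g. `A B = 1` is excluded, `A ^ 2 B = 1` means
`B = A`, ...).
PROOF of `vwd`.  `B' = A' ^ 2 (A' B')`, so `A = A' ^ i B' ^ j = A' ^ (i + 2 j) (A' B') ^ j`; reduce the exponent
modulo `3` (`A' ^ 3 = 1`; `fin_cases` on the exponents or `pow_mod`-like lemmas).  `Ind`: `(A' B') ^ 3 = 1`,
`A' B' ≠ 1`, `A' ≠ A' B'` as `B' ≠ 1`, and `A' A' B' = 1` would give `B' = A'`.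
-/

set_option autoImplicit false

namespace Pool.Agent.SMI

theorem vpl {G : Type*} [CommGroup G] (ν : G → ℕ) (hν : ∀ C, ν C⁻¹ = ν C) (A B : G)
    (h : Ind A B) :
    ∃ A' B' : G, Ind A' B' ∧ ν A' ≤ ν B' ∧ ν A' ≤ ν (A' * B') ∧ ν A' ≤ ν (A' * (A' * B')) ∧
      ∃ i j k l : Fin 3, A = A' ^ (i : ℕ) * B' ^ (j : ℕ) ∧ B = A' ^ (k : ℕ) * B' ^ (l : ℕ) := by
  obtain ⟨hA, hB, nA, nB, nAB, nm⟩ := h
  have hA' : A * A * A = 1 := by rw [← hA]; simp [pow_succ]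
  have hB' : B * B * B = 1 := by rw [← hB]; simp [pow_succ]
  have iA : A⁻¹ = A * A := by
    rw [inv_eq_iff_mul_eq_one]; rw [← mul_assoc]; exact hA'
  have iB : B⁻¹ = B * B := by
    rw [inv_eq_iff_mul_eq_one]; rw [← mul_assoc]; exact hB'
  have e1 : ν (A * (A * B)) = ν (A * B⁻¹) := by
    rw [← hν (A * B⁻¹)]
    congr 1
    rw [mul_inv, inv_inv, iA, mul_assoc]
  have e2 : ν (B * (B * A)) = ν (A * B⁻¹) := by
    congr 1
    rw [iB]; rw [← mul_assoc, mul_comm (B * B) A]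
  have hcases : (ν A ≤ ν B ∧ ν A ≤ ν (A * B) ∧ ν A ≤ ν (A * B⁻¹)) ∨
      (ν B ≤ ν A ∧ ν B ≤ ν (A * B) ∧ ν B ≤ ν (A * B⁻¹)) ∨
      (ν (A * B) ≤ ν A ∧ ν (A * B) ≤ ν B ∧ ν (A * B) ≤ ν (A * B⁻¹)) ∨
      (ν (A * B⁻¹) ≤ ν A ∧ ν (A * B⁻¹) ≤ ν B ∧ ν (A * B⁻¹) ≤ ν (A * B)) := by omega
  rcases hcases with ⟨h1, h2, h3⟩ | ⟨h1, h2, h3⟩ | ⟨h1, h2, h3⟩ | ⟨h1, h2, h3⟩
  · refine ⟨A, B, ⟨hA, hB, nA, nB, nAB, nm⟩, h1, h2, ?_, 1, 0, 0, 1, ?_, ?_⟩
    · rw [e1]; exact h3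
    · simp
    · simp
  · refine ⟨B, A, ⟨hB, hA, nB, nA, fun h => nAB h.symm, fun h => nm (by rw [mul_comm]; exact h)⟩,
      h1, ?_, ?_, 0, 1, 1, 0, ?_, ?_⟩
    · rw [mul_comm]; exact h2
    · rw [e2]; exact h3
    · simp
    · simp
  · refine ⟨A * B, A, ⟨?_, hA, nm, nA, ?_, ?_⟩, h1, ?_, ?_, 0, 1, 1, 2, ?_, ?_⟩
    · rw [mul_pow, hA, hB, one_mul]
    · intro h
      exact nB (by simpa using h)
    · intro h
      apply nAB
      have : A * A * B = 1 := by rw [← h]; rw [mul_assoc, mul_comm]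
      have h5 : A * A * A = A * A * B := by rw [hA', this]
      exact mul_left_cancel h5
    · have : A * B * A = A * (A * B) := by rw [mul_comm]
      rw [this, e1]; exact h3
    · have : A * B * (A * B * A) = B⁻¹ := by
        have h6 : A * B * (A * B * A) = (A * A * A) * (B * B) := by
          rw [mul_assoc A B, mul_comm B (A * B * A)]
          rw [mul_assoc (A * B) A B, mul_comm A B, ← mul_assoc]
          simp only [mul_comm, mul_left_comm, mul_assoc]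
        rw [h6, hA', one_mul, iB]
      rw [this, hν]; exact h2
    · simp
    · have h7 : A * B * A ^ 2 = (A * A * A) * B := by
        rw [pow_two]
        simp only [mul_comm, mul_left_comm, mul_assoc]
      have : (A * B) ^ ((1 : Fin 3) : ℕ) * A ^ ((2 : Fin 3) : ℕ) = A * B * A ^ 2 := by
        simp
      rw [this, h7, hA', one_mul]
  · refine ⟨A * B⁻¹, A, ⟨?_, hA, ?_, nA, ?_, ?_⟩, h1, ?_, ?_, 0, 1, 2, 1, ?_, ?_⟩
    · rw [mul_pow, hA, inv_pow, hB, inv_one, one_mul]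
    · intro h
      exact nAB (mul_inv_eq_one.mp h)
    · intro h
      have : B⁻¹ = 1 := by simpa using h
      exact nB (by simpa using this)
    · intro h
      apply nm
      have h8 : A * A = B := by
        have : A * B⁻¹ * A = (A * A) * B⁻¹ := by
          simp only [mul_comm, mul_left_comm, mul_assoc]
        rw [this] at h
        exact mul_inv_eq_one.mp h
      rw [← h8, ← mul_assoc]; exact hA'
    · have : A * B⁻¹ * A = (A * B)⁻¹ := by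
        rw [mul_inv, iA]
        simp only [mul_comm, mul_left_comm, mul_assoc]
      rw [this, hν]; exact h3
    · have : A * B⁻¹ * (A * B⁻¹ * A) = B := by
        have h6 : A * B⁻¹ * (A * B⁻¹ * A) = (A * A * A) * (B⁻¹ * B⁻¹) := by
          simp only [mul_comm, mul_left_comm, mul_assoc]
        rw [h6, hA', one_mul, ← mul_inv, ← iB, inv_inv]
      rw [this]; exact h2
    · simp
    · have : (A * B⁻¹) ^ ((2 : Fin 3) : ℕ) * A ^ ((1 : Fin 3) : ℕ) = (A * B⁻¹) ^ 2 * A := by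
        simp
      rw [this]
      have h6 : (A * B⁻¹) ^ 2 * A = (A * A * A) * (B⁻¹ * B⁻¹) := by
        rw [pow_two]
        simp only [mul_comm, mul_left_comm, mul_assoc]
      rw [h6, hA', one_mul, ← mul_inv, ← iB, inv_inv]

theorem vwd {G : Type*} [CommGroup G] (A B A' B' : G) (h : Ind A' B')
    (hw : ∃ i j k l : Fin 3, A = A' ^ (i : ℕ) * B' ^ (j : ℕ) ∧ B = A' ^ (k : ℕ) * B' ^ (l : ℕ)) :
    Ind A' (A' * B') ∧ ∃ i j k l : Fin 3, A = A' ^ (i : ℕ) * (A' * B') ^ (j : ℕ) ∧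
      B = A' ^ (k : ℕ) * (A' * B') ^ (l : ℕ) := by
  obtain ⟨hA, hB, nA, nB, nAB, nm⟩ := h
  have hA' : A' * A' * A' = 1 := by rw [← hA]; simp [pow_succ]
  have key : ∀ i j : Fin 3, ∃ i' j' : Fin 3, A' ^ (i : ℕ) * B' ^ (j : ℕ) =
      A' ^ (i' : ℕ) * (A' * B') ^ (j' : ℕ) := by
    intro i j
    refine ⟨⟨((i : ℕ) + 2 * (j : ℕ)) % 3, Nat.mod_lt _ (by norm_num)⟩, j, ?_⟩
    have h1 : A' ^ (((i : ℕ) + 2 * (j : ℕ)) % 3) = A' ^ ((i : ℕ) + 2 * (j : ℕ)) := by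
      conv_rhs => rw [← Nat.mod_add_div ((i : ℕ) + 2 * (j : ℕ)) 3, pow_add, pow_mul, hA, one_pow,
        mul_one]
    show A' ^ (i : ℕ) * B' ^ (j : ℕ) = A' ^ (((i : ℕ) + 2 * (j : ℕ)) % 3) * (A' * B') ^ (j : ℕ)
    rw [h1, mul_pow, ← mul_assoc, ← pow_add]
    have h2 : (i : ℕ) + 2 * (j : ℕ) + (j : ℕ) = i + 3 * j := by ring
    rw [h2, pow_add, pow_mul, hA, one_pow, mul_one]
  obtain ⟨i, j, k, l, e1, e2⟩ := hw
  obtain ⟨i', j', e3⟩ := key i j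
  obtain ⟨k', l', e4⟩ := key k l
  refine ⟨⟨hA, ?_, nA, nm, ?_, ?_⟩, i', j', k', l', e1.trans e3, e2.trans e4⟩
  · rw [mul_pow, hA, hB, one_mul]
  · intro h
    exact nB (by simpa using h.symm)
  · intro h
    apply nAB
    have h5 : A' * A' * A' = A' * A' * B' := by rw [hA', mul_assoc, h]
    exact mul_left_cancel h5

end Pool.Agent.SMI
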