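import Pool.Agent.SMI.Defs
import Pool.Agent.FTB.Cor

/-!
# SMI/Vun: units

PROOF of `vu5`.  Otherwise `|discr K| = aD K ≤ 4 < π ^ 2 = (2 * (π / 4) ^ r₂ * (n ^ n / n!)) ^ 2` with `n = 2`,
`r₂ = nrComplexPlaces K = 1` (`K` is not real: see `CMin_bound` in Pool/Agent/FTA/CMin.lean for `r₂ = 1`), so
`𝓞 K` is a principal ideal ring (`RingOfIntegers.isPrincipalIdealRing_of_abs_discr_lt` in Mathlib,
Mathlib/NumberTheory/NumberField/ClassNumber.lean) and the class group is trivial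
(`card_classGroup_eq_one_iff` or `ClassGroup.mk0_eq_one_iff`), which contradicts `hC`.
PROOF of `vun`.  `a = u b` with a unit `u` (`Ideal.span_singleton_eq_span_singleton`, `Associated`).  Let `(t, z)` be
the coordinates of `u` (`co_exists`); `absNorm (span {u}) = 1`, so `4 = t ^ 2 + D z ^ 2` (`co_norm`), `D ≥ 5`, so
`z = 0`, `t = ± 2`; `u = ± 1` (`co_inj`, `Co K 1 2 0`, `co_neg`).  So `a = ± b` and `co_unique`, `co_neg` give the claim.
-/

set_option autoImplicit false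

namespace Pool.Agent.SMI

open NumberField Pool.Agent.FTA Pool.Agent.FTB Pool.Agent.SMQ nonZeroDivisors

theorem vu5 (K : IntermediateField ℚ ℂ) [NumberField K] (h2 : Module.finrank ℚ K = 2)
    (him : ∃ x : K, (x : ℂ).im ≠ 0) (C : ClassGroup (𝓞 K)) (hC : C ≠ 1) : 5 ≤ aD K := by
  by_contra hlt
  apply hC
  have hr : InfinitePlace.nrComplexPlaces K ≤ 1 := by
    have := InfinitePlace.card_add_two_mul_card_eq_rank K
    omega
  have hpi := Real.pi_gt_three
  have hpi4 : Real.pi / 4 ≤ 1 := by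
    rw [div_le_iff₀ (by norm_num : (0 : ℝ) < 4)]
    linarith [Real.pi_lt_four]
  have hpi0 : 0 ≤ Real.pi / 4 := by positivity
  have h1 : Real.pi / 4 ≤ (Real.pi / 4) ^ InfinitePlace.nrComplexPlaces K := by
    calc Real.pi / 4 = (Real.pi / 4) ^ 1 := (pow_one _).symm
      _ ≤ (Real.pi / 4) ^ InfinitePlace.nrComplexPlaces K :=
        pow_le_pow_of_le_one hpi0 hpi4 hr
  have hd : |(discr K : ℝ)| ≤ 4 := by
    have h3 : aD K ≤ 4 := by omega
    rw [aD_eq] at h3
    have h4 : (((discr K).natAbs : ℕ) : ℝ) = |(discr K : ℝ)| := by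
      rw [Nat.cast_natAbs, Int.cast_abs]
    rw [← h4]
    exact_mod_cast h3
  have hpid : IsPrincipalIdealRing (𝓞 K) := by
    apply RingOfIntegers.isPrincipalIdealRing_of_abs_discr_lt
    rw [h2]
    have h4 : ((2 : ℕ) : ℝ) ^ 2 / ((2 : ℕ).factorial : ℝ) = 2 := by
      norm_num [Nat.factorial]
    rw [h4]
    have h5 : 3 < 2 * (Real.pi / 4) ^ InfinitePlace.nrComplexPlaces K * 2 := by linarith
    have h6 : (3 : ℝ) ^ 2 < (2 * (Real.pi / 4) ^ InfinitePlace.nrComplexPlaces K * 2) ^ 2 :=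
      pow_lt_pow_left₀ h5 (by norm_num) (by norm_num)
    push_cast
    linarith
  obtain ⟨I, rfl⟩ := ClassGroup.mk0_surjective C
  exact (ClassGroup.mk0_eq_one_iff I.2).2 (IsPrincipalIdealRing.principal _)

theorem vun (K : IntermediateField ℚ ℂ) [NumberField K] (h2 : Module.finrank ℚ K = 2)
    (him : ∃ x : K, (x : ℂ).im ≠ 0) (hD : 5 ≤ aD K) (a b : 𝓞 K)
    (h : Ideal.span {a} = Ideal.span {b}) (s t z w : ℤ) (ha : Co K a s z) (hb : Co K b t w) :
    ∃ e : ℤ, e ^ 2 = 1 ∧ t = e * s ∧ w = e * z := by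
  obtain ⟨u, hu⟩ := Ideal.span_singleton_eq_span_singleton.1 h
  obtain ⟨p, r, hpr⟩ := co_exists K h2 him (u : 𝓞 K)
  have h1 := co_norm K h2 him (u : 𝓞 K) p r hpr
  have hN1 : Ideal.absNorm (Ideal.span {(u : 𝓞 K)}) = 1 := by
    rw [Ideal.span_singleton_eq_top.2 u.isUnit, Ideal.absNorm_top]
  rw [hN1] at h1
  have hone : Co K (1 : 𝓞 K) 2 0 := by
    unfold Co
    push_cast
    simp
  have hD' : (5 : ℤ) ≤ (aD K : ℤ) := by exact_mod_cast hD
  have hr : r = 0 := by
    by_contra hr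
    have h3 : 1 ≤ r ^ 2 := by
      have := sq_nonneg r
      have h4 : r ^ 2 ≠ 0 := pow_ne_zero 2 hr
      omega
    have h4 := sq_nonneg p
    push_cast at h1
    nlinarith
  subst hr
  have hp : p ^ 2 = 2 ^ 2 := by
    push_cast at h1
    linarith
  rcases sq_eq_sq_iff_eq_or_eq_neg.1 hp with hp | hp
  · subst hp
    have h3 : (u : 𝓞 K) = 1 := co_inj K _ _ _ _ hpr hone
    rw [h3, mul_one] at hu
    rw [← hu] at hb
    obtain ⟨h4, h5⟩ := co_unique K _ _ _ _ _ ha hb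
    exact ⟨1, by norm_num, by linarith, by linarith⟩
  · subst hp
    have h4 := co_neg K _ _ _ hpr
    have h3 : -(u : 𝓞 K) = 1 := co_inj K _ _ _ _ (by simpa using h4) hone
    have h5 : (u : 𝓞 K) = -1 := by rw [← h3, neg_neg]
    rw [h5] at hu
    have hu' : -a = b := by rw [← hu]; ring
    rw [← hu'] at hb
    obtain ⟨h6, h7⟩ := co_unique K _ _ _ _ _ (co_neg K _ _ _ ha) hb
    exact ⟨-1, by norm_num, by linarith, by linarith⟩

end Pool.Agent.SMI
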