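import Pool.Agent.SMI.Defs
import Pool.Agent.SMI.Vun
import Pool.Agent.FTB.Cor

/-!
# SMI/Vgn: generators of the cubes of conjugate ideals

PROOF.  `co_conj` gives `a'` with `Co K a' s (-z)` and `a a' = absNorm (span {a}) = N ^ 3`
(`ha`, `map_pow`, `c.nI`).  `span {a b} = (I J) ^ 3 = span {N ^ 3} = span {a a'}`
(`Ideal.span_singleton_mul_span_singleton`, `Ideal.span_singleton_pow`, `mul_pow`, `c.IJ`), and
`span {a} ≠ ⊥` cancels (`mul_left_cancel₀`; `I ≠ 0`), so `span {a'} = span {b}`.  Then `vun` for `a'`, `b`.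
-/

set_option autoImplicit false

namespace Pool.Agent.SMI

open NumberField Pool.Agent.FTA Pool.Agent.FTB Pool.Agent.SMQ nonZeroDivisors

theorem vgn (K : IntermediateField ℚ ℂ) [NumberField K] (h2 : Module.finrank ℚ K = 2)
    (him : ∃ x : K, (x : ℂ).im ≠ 0) (hD : 5 ≤ aD K) (I J : (Ideal (𝓞 K))⁰) (N : ℕ)
    (c : CI K I J N) (a b : 𝓞 K) (ha : Ideal.span {a} = (I : Ideal (𝓞 K)) ^ 3)
    (hb : Ideal.span {b} = (J : Ideal (𝓞 K)) ^ 3) (s t z w : ℤ) (h1 : Co K a s z)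
    (h3 : Co K b t w) : ∃ e : ℤ, e ^ 2 = 1 ∧ t = e * s ∧ w = -(e * z) := by
  obtain ⟨a', ha', haa⟩ := co_conj K h2 him a s z h1
  have hN : Ideal.absNorm (Ideal.span {a}) = N ^ 3 := by
    rw [ha, map_pow, c.nI]
  rw [hN] at haa
  have hI0 : (I : Ideal (𝓞 K)) ≠ 0 := nonZeroDivisors.coe_ne_zero I
  have ha0 : Ideal.span {a} ≠ 0 := by
    rw [ha]
    exact pow_ne_zero 3 hI0
  have h4 : Ideal.span {a} * Ideal.span {a'} = Ideal.span {a} * Ideal.span {b} := by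
    rw [Ideal.span_singleton_mul_span_singleton, haa, hb]
    rw [ha, ← mul_pow, c.IJ, Ideal.span_singleton_pow]
    push_cast
    rfl
  have h5 : Ideal.span {a'} = Ideal.span {b} := mul_left_cancel₀ ha0 h4
  obtain ⟨e, he, h6, h7⟩ := vun K h2 him hD a' b h5 s t (-z) w ha' h3
  exact ⟨e, he, h6, by rw [h7]; ring⟩

end Pool.Agent.SMI
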