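import Pool.Agent.SMI.Defs
import Pool.Agent.SMI.Vun
import Pool.Agent.FTB.Cor

/-!
# SMI/Vpi: the product of the three elements `π`

PROOF.  `span {a1 a2 a3} = (I B1 C2) (I B2 C3) (I B3 C1) = I ^ 3 (B1 C1) (B2 C2) (B3 C3) = span {N1 N2 N3 α}`
(`Ideal.span_singleton_mul_span_singleton`; ideals form a commutative semiring: `ring` or `mul_comm`).
Let `(T', Y')` be the coordinates of `a1 a2`, `(T, Y)` those of `a1 a2 a3` (`co_exists`): `co_mul` gives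
`2 T' = u1 u2 - D p1 p2`, `2 Y' = u1 p2 + u2 p1`, `2 T = T' u3 - D Y' p3`, `2 Y = T' p3 + u3 Y'`.  With
`n = N1 N2 N3`, `Co K (n α) (n x) (n y)` (`co_nat`), so by `vun` (for `a1 a2 a3` and `n α`) `n x = e T`, `n y = e Y`,
`e ^ 2 = 1`, so `n y T = e Y T = n x Y`, and `y T = x Y` as `n ≠ 0`; multiply by `4`.
-/

set_option autoImplicit false

namespace Pool.Agent.SMI

open NumberField Pool.Agent.FTA Pool.Agent.FTB Pool.Agent.SMQ nonZeroDivisors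

theorem vpi (K : IntermediateField ℚ ℂ) [NumberField K] (h2 : Module.finrank ℚ K = 2)
    (him : ∃ x : K, (x : ℂ).im ≠ 0) (hD : 5 ≤ aD K) (I B1 B2 B3 C1 C2 C3 : (Ideal (𝓞 K))⁰)
    (N1 N2 N3 : ℕ) (c1 : CI K B1 C1 N1) (c2 : CI K B2 C2 N2) (c3 : CI K B3 C3 N3)
    (a1 a2 a3 α : 𝓞 K)
    (h1 : Ideal.span {a1} = (I : Ideal (𝓞 K)) * (B1 : Ideal (𝓞 K)) * (C2 : Ideal (𝓞 K)))
    (h3 : Ideal.span {a2} = (I : Ideal (𝓞 K)) * (B2 : Ideal (𝓞 K)) * (C3 : Ideal (𝓞 K)))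
    (h4 : Ideal.span {a3} = (I : Ideal (𝓞 K)) * (B3 : Ideal (𝓞 K)) * (C1 : Ideal (𝓞 K)))
    (h5 : Ideal.span {α} = (I : Ideal (𝓞 K)) ^ 3)
    (x y u1 u2 u3 p1 p2 p3 : ℤ) (k : Co K α x y) (k1 : Co K a1 u1 p1) (k2 : Co K a2 u2 p2)
    (k3 : Co K a3 u3 p3) :
    y * (u1 * u2 * u3 - (aD K : ℤ) * (p1 * p2 * u3 + p1 * u2 * p3 + u1 * p2 * p3)) =
      x * (p1 * u2 * u3 + u1 * p2 * u3 + u1 * u2 * p3 - (aD K : ℤ) * (p1 * p2 * p3)) := by
  obtain ⟨T', Y', hT'⟩ := co_exists K h2 him (a1 * a2)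
  obtain ⟨T, Y, hT⟩ := co_exists K h2 him (a1 * a2 * a3)
  obtain ⟨m1, m2⟩ := co_mul K a1 a2 u1 p1 u2 p2 T' Y' k1 k2 hT'
  obtain ⟨m3, m4⟩ := co_mul K (a1 * a2) a3 T' Y' u3 p3 T Y hT' k3 hT
  have hn := co_nat K α x y (N1 * N2 * N3) k
  have hspan : Ideal.span {a1 * a2 * a3} = Ideal.span {((N1 * N2 * N3 : ℕ) : 𝓞 K) * α} := by
    have e1 : Ideal.span {a1 * a2 * a3} =
        Ideal.span {a1} * Ideal.span {a2} * Ideal.span {a3} := by
      rw [Ideal.span_singleton_mul_span_singleton, Ideal.span_singleton_mul_span_singleton]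
    have e2 : Ideal.span {((N1 * N2 * N3 : ℕ) : 𝓞 K) * α} =
        Ideal.span {(N1 : 𝓞 K)} * Ideal.span {(N2 : 𝓞 K)} * Ideal.span {(N3 : 𝓞 K)} *
          Ideal.span {α} := by
      rw [Ideal.span_singleton_mul_span_singleton, Ideal.span_singleton_mul_span_singleton,
        Ideal.span_singleton_mul_span_singleton]
      push_cast
      rfl
    rw [e1, e2, h1, h3, h4, h5, ← c1.IJ, ← c2.IJ, ← c3.IJ]
    ring
  obtain ⟨e, he, ex, ey⟩ := vun K h2 him hD (a1 * a2 * a3) (((N1 * N2 * N3 : ℕ) : 𝓞 K) * α) hspan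
    T _ Y _ hT hn
  have hn0 : ((N1 * N2 * N3 : ℕ) : ℤ) ≠ 0 := by
    have a1 := c1.n1
    have a2 := c2.n1
    have a3 := c3.n1
    have : 0 < N1 * N2 * N3 := by positivity
    exact_mod_cast this.ne'
  have hyT : y * T = x * Y := by
    apply mul_left_cancel₀ hn0
    linear_combination T * ey - Y * ex
  linear_combination 4 * hyT + y * (2 * m3 + (-(aD K : ℤ) * p3) * m2 + u3 * m1) * (-1) +
    x * (2 * m4 + p3 * m1 + u3 * m2)

end Pool.Agent.SMI
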