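import Mathlib

/-!
# SMI/Lem: one of the three triples has `p Δ ≠ 0`

`TrR D N1 N2 N3 x1 x2 x3 y1 y2 y3 xp p g1 g2 g3`: the real relations of a triple of elements
`(α₁, α₂, α₃; π)` with `π ^ 3 = α₁ α₂ α₃`, `2 αᵢ = xᵢ + yᵢ √-D`, `2 π = xp + p √-D`,
`gᵢ = im (αᵢ π̄ / Nᵢ)`.
-/

set_option autoImplicit false

namespace Pool.Agent.SMI

/-- the relations of a triple -/
structure TrR (D N1 N2 N3 x1 x2 x3 y1 y2 y3 xp p g1 g2 g3 : ℝ) : Prop where
  hD : 0 < D
  n1 : 0 < N1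
  n2 : 0 < N2
  n3 : 0 < N3
  a1 : 4 * N1 ^ 3 = x1 ^ 2 + D * y1 ^ 2
  a2 : 4 * N2 ^ 3 = x2 ^ 2 + D * y2 ^ 2
  a3 : 4 * N3 ^ 3 = x3 ^ 2 + D * y3 ^ 2
  ap : 4 * (N1 * N2 * N3) = xp ^ 2 + D * p ^ 2
  y10 : y1 ≠ 0
  y20 : y2 ≠ 0
  y30 : y3 ≠ 0
  k12 : x1 * y2 ≠ x2 * y1
  k23 : x2 * y3 ≠ x3 * y2
  k31 : x3 * y1 ≠ x1 * y3
  r1 : 2 * (N1 * g1) = y1 * xp - x1 * p
  r2 : 2 * (N2 * g2) = y2 * xp - x2 * p
  r3 : 2 * (N3 * g3) = y3 * xp - x3 * p
  m1 : N1 * (y1 * y2 * y3 - p ^ 3) = y1 * g2 * g3 - p * g1 ^ 2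
  m2 : N2 * (y1 * y2 * y3 - p ^ 3) = y2 * g3 * g1 - p * g2 ^ 2
  m3 : N3 * (y1 * y2 * y3 - p ^ 3) = y3 * g1 * g2 - p * g3 ^ 2
  /-- `(L)` for `Δ = 0` -/
  ll : y1 * y2 * y3 = p ^ 3 →
    p ^ 2 * (N1 * (g2 * g3) ^ 2 + N2 * (g3 * g1) ^ 2 + N3 * (g1 * g2) ^ 2) = (g1 * g2 * g3) ^ 2
  /-- `(K)` for `Δ = 0` -/
  kk1 : y1 * y2 * y3 = p ^ 3 → y1 * g2 ^ 3 = y2 * g1 ^ 3
  kk2 : y1 * y2 * y3 = p ^ 3 → y2 * g3 ^ 3 = y3 * g2 ^ 3
  kk3 : y1 * y2 * y3 = p ^ 3 → y3 * g1 ^ 3 = y1 * g3 ^ 3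

/-- in a triple with `Δ = 0` all `g` are nonzero -/
private lemma lem_g {D N1 N2 N3 x1 x2 x3 y1 y2 y3 xp p g1 g2 g3 : ℝ}
    (t : TrR D N1 N2 N3 x1 x2 x3 y1 y2 y3 xp p g1 g2 g3) (h : y1 * y2 * y3 = p ^ 3) :
    p ≠ 0 ∧ g1 ≠ 0 ∧ g2 ≠ 0 ∧ g3 ≠ 0 := by
  have hp : p ≠ 0 := by
    rintro rfl
    have : y1 * y2 * y3 ≠ 0 := mul_ne_zero (mul_ne_zero t.y10 t.y20) t.y30
    apply this
    rw [h]; ring
  have h1 := t.m1
  have h2 := t.m2
  have h3 := t.m3
  have hz : y1 * y2 * y3 - p ^ 3 = 0 := by linarith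
  rw [hz, mul_zero] at h1 h2 h3
  have key : ¬ (g1 = 0 ∧ g2 = 0 ∧ g3 = 0) := by
    rintro ⟨e1, e2, e3⟩
    have r1 := t.r1
    have r2 := t.r2
    rw [e1] at r1
    rw [e2] at r2
    apply t.k12
    have : p * (x1 * y2 - x2 * y1) = 0 := by
      have q1 : x1 * p = y1 * xp := by linarith
      have q2 : x2 * p = y2 * xp := by linarith
      calc p * (x1 * y2 - x2 * y1) = (x1 * p) * y2 - (x2 * p) * y1 := by ring
        _ = 0 := by rw [q1, q2]; ring
    rcases mul_eq_zero.mp this with h' | h'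
    · exact absurd h' hp
    · linarith
  refine ⟨hp, ?_, ?_, ?_⟩
  · intro e
    apply key
    have q2 : g2 = 0 := by
      have : p * g2 ^ 2 = 0 := by rw [e] at h2; linarith
      simpa [hp] using this
    have q3 : g3 = 0 := by
      have : p * g3 ^ 2 = 0 := by rw [e] at h3; linarith
      simpa [hp] using this
    exact ⟨e, q2, q3⟩
  · intro e
    apply key
    have q1 : g1 = 0 := by
      have : p * g1 ^ 2 = 0 := by rw [e] at h1; linarith
      simpa [hp] using this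
    have q3 : g3 = 0 := by
      have : p * g3 ^ 2 = 0 := by rw [e] at h3; linarith
      simpa [hp] using this
    exact ⟨q1, e, q3⟩
  · intro e
    apply key
    have q1 : g1 = 0 := by
      have : p * g1 ^ 2 = 0 := by rw [e] at h1; linarith
      simpa [hp] using this
    have q2 : g2 = 0 := by
      have : p * g2 ^ 2 = 0 := by rw [e] at h2; linarith
      simpa [hp] using this
    exact ⟨q1, q2, e⟩

/-- the shape of a triple with `Δ = 0` -/
private structure LSh (D N1 N2 N3 x1 x2 x3 y1 y2 y3 xp p g1 lam e2 e3 X2 X3 Z2 Z3 : ℝ) : Prop where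
  hp : p ≠ 0
  hg : g1 ≠ 0
  he2 : e2 ≠ 0
  he3 : e3 ≠ 0
  hX2 : 0 < X2
  hX3 : 0 < X3
  n2 : N2 = X2 * e2 ^ 2
  n3 : N3 = X3 * e3 ^ 2
  z2 : x2 = Z2 * e2 ^ 3
  z3 : x3 = Z3 * e3 ^ 3
  w2 : y2 = y1 * e2 ^ 3
  w3 : y3 = y1 * e3 ^ 3
  l2 : Z2 = x1 + lam * (X2 - N1)
  l3 : Z3 = x1 + lam * (X3 - N1)
  s : N1 + X2 + X3 = lam ^ 2 / 4
  u : xp * y1 = p * (x1 - lam * N1)

private lemma lem_sh {D N1 N2 N3 x1 x2 x3 y1 y2 y3 xp p g1 g2 g3 : ℝ}
    (t : TrR D N1 N2 N3 x1 x2 x3 y1 y2 y3 xp p g1 g2 g3) (h : y1 * y2 * y3 = p ^ 3) :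
    ∃ lam e2 e3 X2 X3 Z2 Z3 : ℝ,
      LSh D N1 N2 N3 x1 x2 x3 y1 y2 y3 xp p g1 lam e2 e3 X2 X3 Z2 Z3 := by
  obtain ⟨hp, hg1, hg2, hg3⟩ := lem_g t h
  have k1 := t.kk1 h
  have k3 := t.kk3 h
  have ll := t.ll h
  have r1 := t.r1
  have r2 := t.r2
  have r3 := t.r3
  have hn2 := t.n2
  have hn3 := t.n3
  have he2 : g2 / g1 ≠ 0 := div_ne_zero hg2 hg1
  have he3 : g3 / g1 ≠ 0 := div_ne_zero hg3 hg1
  have w2 : y2 = y1 * (g2 / g1) ^ 3 := by
    field_simp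
    linarith
  have w3 : y3 = y1 * (g3 / g1) ^ 3 := by
    field_simp
    linarith
  refine ⟨-2 * g1 / p, g2 / g1, g3 / g1, N2 / (g2 / g1) ^ 2, N3 / (g3 / g1) ^ 2,
    x2 / (g2 / g1) ^ 3, x3 / (g3 / g1) ^ 3, ?_⟩
  refine ⟨hp, hg1, he2, he3, by positivity, by positivity, by field_simp, by field_simp,
    by field_simp, by field_simp, w2, w3, ?_, ?_, ?_, ?_⟩
  · -- x2/e³ = x1 + lam (N2/e² - N1)
    have hy : y1 ≠ 0 := t.y10
    -- y2 (2 N1 g1 + x1 p) = y1 (2 N2 g2 + x2 p)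
    have q : y2 * (2 * (N1 * g1) + x1 * p) = y1 * (2 * (N2 * g2) + x2 * p) := by
      rw [r1, r2]; ring
    have q' : g2 ^ 3 * (2 * (N1 * g1) + x1 * p) = g1 ^ 3 * (2 * (N2 * g2) + x2 * p) := by
      apply mul_left_cancel₀ hy
      calc y1 * (g2 ^ 3 * (2 * (N1 * g1) + x1 * p)) = (y1 * g2 ^ 3) * (2 * (N1 * g1) + x1 * p) := by
            ring
        _ = g1 ^ 3 * (y2 * (2 * (N1 * g1) + x1 * p)) := by rw [k1]; ring
        _ = y1 * (g1 ^ 3 * (2 * (N2 * g2) + x2 * p)) := by rw [q]; ring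
    field_simp
    linear_combination (-1 : ℝ) * q'
  · have hy : y1 ≠ 0 := t.y10
    have q : y3 * (2 * (N1 * g1) + x1 * p) = y1 * (2 * (N3 * g3) + x3 * p) := by
      rw [r1, r3]; ring
    have q' : g3 ^ 3 * (2 * (N1 * g1) + x1 * p) = g1 ^ 3 * (2 * (N3 * g3) + x3 * p) := by
      apply mul_left_cancel₀ hy
      calc y1 * (g3 ^ 3 * (2 * (N1 * g1) + x1 * p)) = (y1 * g3 ^ 3) * (2 * (N1 * g1) + x1 * p) := by
            ring
        _ = g1 ^ 3 * (y3 * (2 * (N1 * g1) + x1 * p)) := by rw [← k3]; ring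
        _ = y1 * (g1 ^ 3 * (2 * (N3 * g3) + x3 * p)) := by rw [q]; ring
    field_simp
    linear_combination (-1 : ℝ) * q'
  · field_simp
    linear_combination 4 * ll
  · field_simp
    linarith

/-- two cubes with opposite cube roots -/
private lemma lem_cube {y z e f : ℝ} (hy : y ≠ 0) (h1 : z = y * e ^ 3) (h2 : -z = y * f ^ 3) :
    f = -e := by
  have h3 : y * (f ^ 3 + e ^ 3) = 0 := by linear_combination -h2 - h1
  have h4 : f ^ 3 + e ^ 3 = 0 := by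
    rcases mul_eq_zero.mp h3 with h | h
    · exact absurd h hy
    · exact h
  have h5 : (f + e) * (f ^ 2 - f * e + e ^ 2) = 0 := by linear_combination h4
  rcases mul_eq_zero.mp h5 with h | h
  · linarith
  · have : f ^ 2 - f * e + e ^ 2 = (f - e / 2) ^ 2 + 3 / 4 * e ^ 2 := by ring
    have h6 : e ^ 2 = 0 := by nlinarith [sq_nonneg (f - e / 2), sq_nonneg e]
    have h7 : e = 0 := by simpa using h6
    have h8 : f = 0 := by
      rw [h7] at h
      have : f ^ 2 = 0 := by linarith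
      simpa using this
    rw [h7, h8]; ring

/-- the common element `β = (z, w)` of norm `M` of two triples with `Δ = 0`: in the first one it is
`β̄` (slope `a`), in the second one `β` (slope `b`) -/
private structure Shr (D N x y M z a b X Z : ℝ) : Prop where
  hX : 0 < X
  h1 : a * (N - X) = x + Z
  h2 : b * (N - X) = x - Z
  h3 : 4 * X ^ 3 = Z ^ 2 + D * y ^ 2
  h4 : Z = 0 → z = 0

private lemma lem_shr {D N x y M z w a b e f X X' Z Z' : ℝ} (hy : y ≠ 0)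
    (he : e ≠ 0) (hX : 0 < X)
    (hN : 4 * M ^ 3 = z ^ 2 + D * w ^ 2)
    (n1 : M = X * e ^ 2) (n2 : M = X' * f ^ 2)
    (z1 : z = Z * e ^ 3) (z2 : z = Z' * f ^ 3)
    (w1 : w = y * e ^ 3) (w2 : -w = y * f ^ 3)
    (l1 : Z = x + b * (X - N)) (l2 : Z' = x + a * (X' - N)) :
    X' = X ∧ Shr D N x y M z a b X Z := by
  have hf : f = -e := lem_cube hy w1 w2
  have he2 : e ^ 2 ≠ 0 := pow_ne_zero _ he
  have he3 : e ^ 3 ≠ 0 := pow_ne_zero _ he
  have hX' : X' = X := by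
    have : X' * e ^ 2 = X * e ^ 2 := by rw [hf] at n2; linear_combination n1 - n2
    exact mul_right_cancel₀ he2 this
  have hZ' : Z' = -Z := by
    have : Z' * e ^ 3 = (-Z) * e ^ 3 := by rw [hf] at z2; linear_combination z2 - z1
    exact mul_right_cancel₀ he3 this
  refine ⟨hX', hX, ?_, ?_, ?_, ?_⟩
  · rw [hZ', hX'] at l2; linarith
  · linarith
  · have he6 : e ^ 6 ≠ 0 := pow_ne_zero _ he
    apply mul_right_cancel₀ he6
    rw [n1, z1, w1] at hN
    linear_combination hN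
  · intro h
    rw [z1, h]; ring

/-- case (c) -/
private lemma lem_c {D N x y M z a b X Z : ℝ} (hN : 0 < N) (h0 : 4 * N ^ 3 = x ^ 2 + D * y ^ 2)
    (hs : Shr D N x y M z a b X Z) (hab : a * b = 4 * N) : x = 0 ∧ z = 0 := by
  obtain ⟨hX, h1, h2, h3, h4⟩ := hs
  have q : 4 * N * (N - X) ^ 2 = 4 * (N ^ 3 - X ^ 3) := by
    calc 4 * N * (N - X) ^ 2 = (a * (N - X)) * (b * (N - X)) := by rw [← hab]; ring
      _ = (x + Z) * (x - Z) := by rw [h1, h2]
      _ = 4 * (N ^ 3 - X ^ 3) := by linear_combination h3 - h0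
  have q2 : (N - X) * (X * (X + 2 * N)) = 0 := by linear_combination (-1 / 4 : ℝ) * q
  rcases mul_eq_zero.mp q2 with h | h
  · rw [h] at h1 h2
    have hx : x = 0 := by linarith
    have hZ : Z = 0 := by linarith
    exact ⟨hx, h4 hZ⟩
  · exfalso
    have : 0 < X * (X + 2 * N) := by positivity
    linarith

/-- case (b) -/
private lemma lem_b {D N N1 N2 x x1 x2 y y1 y2 xp p g1 g2 g3 : ℝ}
    (t : TrR D N N1 N2 x x1 x2 y y1 y2 xp p g1 g2 g3) (h : y * y1 * y2 = p ^ 3)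
    (h2 : y * xp = x * p) : False := by
  obtain ⟨_, hg, _, _⟩ := lem_g t h
  have r1 := t.r1
  have : 2 * (N * g1) = 0 := by rw [r1]; linarith
  have hn := t.n1
  have : N * g1 = 0 := by linarith
  rcases mul_eq_zero.mp this with h' | h'
  · linarith
  · exact hg h'

/-- the product of the slopes in case (c) -/
private lemma lem_cc {D N x y u2 p2 u3 p3 a b : ℝ} (hN : 0 < N) (hy : y ≠ 0)
    (h0 : 4 * N ^ 3 = x ^ 2 + D * y ^ 2) (hp2 : p2 ≠ 0) (hp3 : p3 ≠ 0)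
    (e2 : u2 * y = p2 * (x - a * N)) (e3 : u3 * y = p3 * (x - b * N))
    (h : y * (u2 * u3 - D * (p2 * p3)) = x * (p2 * u3 + u2 * p3)) : a * b = 4 * N := by
  have hN2 : N ^ 2 ≠ 0 := by positivity
  apply mul_right_cancel₀ hN2
  have hpp : p2 * p3 * y ≠ 0 := mul_ne_zero (mul_ne_zero hp2 hp3) hy
  apply mul_left_cancel₀ hpp
  -- p2 p3 y (a b N^2) = p2 p3 y 4 N^3
  have q : y ^ 2 * (y * (u2 * u3 - D * (p2 * p3))) = y ^ 2 * (x * (p2 * u3 + u2 * p3)) := by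
    rw [h]
  have q2 : y * ((u2 * y) * (u3 * y) - D * y ^ 2 * (p2 * p3)) =
      x * y * (p2 * (u3 * y) + (u2 * y) * p3) := by linear_combination q
  rw [e2, e3] at q2
  linear_combination q2 - p2 * p3 * y * h0

/-- case (d): the three slopes -/
private lemma lem_d {D N x y a b c X1 X2 X3 : ℝ} (hN : 0 < N)
    (h0 : 4 * N ^ 3 = x ^ 2 + D * y ^ 2)
    (s1 : N + X1 + X2 = a ^ 2 / 4) (s2 : N + X2 + X3 = b ^ 2 / 4) (s3 : N + X3 + X1 = c ^ 2 / 4)
    (q1 : (c + a) * (N - X1) = 2 * x) (q2 : (a + b) * (N - X2) = 2 * x)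
    (q3 : (b + c) * (N - X3) = 2 * x)
    (h : (x - a * N) * (x - b * N) * (x - c * N) -
        D * y ^ 2 * ((x - a * N) + (x - b * N) + (x - c * N)) =
      x * ((x - a * N) * (x - b * N) + (x - b * N) * (x - c * N) + (x - c * N) * (x - a * N)) -
        x * (D * y ^ 2)) : a = b ∧ b = c := by
  have hX1 : 8 * X1 = a ^ 2 + c ^ 2 - b ^ 2 - 4 * N := by linarith
  have hX2 : 8 * X2 = a ^ 2 + b ^ 2 - c ^ 2 - 4 * N := by linarith
  have hX3 : 8 * X3 = b ^ 2 + c ^ 2 - a ^ 2 - 4 * N := by linarith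
  have r1 : (c + a) * (12 * N - a ^ 2 - c ^ 2 + b ^ 2) = 16 * x := by
    linear_combination 8 * q1 + (c + a) * hX1
  have r2 : (a + b) * (12 * N - a ^ 2 - b ^ 2 + c ^ 2) = 16 * x := by
    linear_combination 8 * q2 + (a + b) * hX2
  have r3 : (b + c) * (12 * N - b ^ 2 - c ^ 2 + a ^ 2) = 16 * x := by
    linear_combination 8 * q3 + (b + c) * hX3
  have d1 : (b - c) * (12 * N - (a + b + c) ^ 2) = 0 := by linear_combination r2 - r1
  have d2 : (c - a) * (12 * N - (a + b + c) ^ 2) = 0 := by linear_combination r3 - r2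
  have d3 : (a - b) * (12 * N - (a + b + c) ^ 2) = 0 := by linear_combination r1 - r3
  by_cases hE : 12 * N - (a + b + c) ^ 2 = 0
  · -- e3 = 4 (N e1 - 2 x)
    have e3 : a * b * c = 4 * (N * (a + b + c) - 2 * x) := by
      have hN3 : N ^ 3 ≠ 0 := by positivity
      apply mul_right_cancel₀ hN3
      linear_combination (-1 : ℝ) * h - (N * (a + b + c) - 2 * x) * h0
    have e12 : (a + b) * (b + c) * (c + a) = 8 * x := by
      linear_combination (1 / 2 : ℝ) * r2 - (1 / 2 : ℝ) * (a + b) * hE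
    have e2 : (a + b + c) * (a * b + b * c + c * a - 4 * N) = 0 := by
      linear_combination e12 + e3
    have hne : a + b + c ≠ 0 := by
      intro h'
      rw [h'] at hE
      nlinarith
    have e2' : a * b + b * c + c * a - 4 * N = 0 := by
      rcases mul_eq_zero.mp e2 with h' | h'
      · exact absurd h' hne
      · exact h'
    have sq : (a - b) ^ 2 + (b - c) ^ 2 + (c - a) ^ 2 = 0 := by
      linear_combination (-2 : ℝ) * hE - 6 * e2'
    have z1 : (a - b) ^ 2 = 0 := by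
      nlinarith [sq_nonneg (a - b), sq_nonneg (b - c), sq_nonneg (c - a)]
    have z2 : (b - c) ^ 2 = 0 := by
      nlinarith [sq_nonneg (a - b), sq_nonneg (b - c), sq_nonneg (c - a)]
    have z1' : a - b = 0 := by simpa using z1
    have z2' : b - c = 0 := by simpa using z2
    exact ⟨by linarith, by linarith⟩
  · have z1 : b - c = 0 := by
      rcases mul_eq_zero.mp d1 with h' | h'
      · exact h'
      · exact absurd h' hE
    have z3 : a - b = 0 := by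
      rcases mul_eq_zero.mp d3 with h' | h'
      · exact h'
      · exact absurd h' hE
    exact ⟨by linarith, by linarith⟩

/-- `α = (x, y)`, `βᵢ = (xᵢ, yᵢ)` for `i = 1, 2, 3`; the triples are `(α, β₁, β̄₂)`,
`(α, β₂, β̄₃)`, `(α, β₃, β̄₁)`, and `π₁ π₂ π₃` is a rational multiple of `α` -/
theorem lem0 (D N N1 N2 N3 x x1 x2 x3 y y1 y2 y3 u1 u2 u3 p1 p2 p3 : ℝ)
    (g11 g12 g13 g21 g22 g23 g31 g32 g33 : ℝ)
    (t1 : TrR D N N1 N2 x x1 x2 y y1 (-y2) u1 p1 g11 g12 g13)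
    (t2 : TrR D N N2 N3 x x2 x3 y y2 (-y3) u2 p2 g21 g22 g23)
    (t3 : TrR D N N3 N1 x x3 x1 y y3 (-y1) u3 p3 g31 g32 g33)
    (h : y * (u1 * u2 * u3 - D * (p1 * p2 * u3 + p1 * u2 * p3 + u1 * p2 * p3)) =
      x * (p1 * u2 * u3 + u1 * p2 * u3 + u1 * u2 * p3 - D * (p1 * p2 * p3))) :
    (p1 ≠ 0 ∧ y * y1 * (-y2) - p1 ^ 3 ≠ 0) ∨ (p2 ≠ 0 ∧ y * y2 * (-y3) - p2 ^ 3 ≠ 0) ∨
      (p3 ≠ 0 ∧ y * y3 * (-y1) - p3 ^ 3 ≠ 0) := by
  by_contra hcon
  push Not at hcon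
  obtain ⟨c1, c2, c3⟩ := hcon
  have hN := t1.n1
  have hy := t1.y10
  have h0 := t1.a1
  have hD1 : p1 ≠ 0 → y * y1 * (-y2) = p1 ^ 3 := fun h' => by linarith [c1 h']
  have hD2 : p2 ≠ 0 → y * y2 * (-y3) = p2 ^ 3 := fun h' => by linarith [c2 h']
  have hD3 : p3 ≠ 0 → y * y3 * (-y1) = p3 ^ 3 := fun h' => by linarith [c3 h']
  have hu1 : p1 = 0 → u1 ≠ 0 := by
    intro h1 h2
    have := t1.ap
    rw [h1, h2] at this
    have h3 : 0 < N * N1 * N2 := mul_pos (mul_pos t1.n1 t1.n2) t1.n3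
    nlinarith
  have hu2 : p2 = 0 → u2 ≠ 0 := by
    intro h1 h2
    have := t2.ap
    rw [h1, h2] at this
    have h3 : 0 < N * N2 * N3 := mul_pos (mul_pos t2.n1 t2.n2) t2.n3
    nlinarith
  have hu3 : p3 = 0 → u3 ≠ 0 := by
    intro h1 h2
    have := t3.ap
    rw [h1, h2] at this
    have h3 : 0 < N * N3 * N1 := mul_pos (mul_pos t3.n1 t3.n2) t3.n3
    nlinarith
  by_cases hp1 : p1 = 0
  · by_cases hp2 : p2 = 0
    · by_cases hp3 : p3 = 0
      · rw [hp1, hp2, hp3] at h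
        have : y * (u1 * u2 * u3) = 0 := by linarith
        exact mul_ne_zero hy (mul_ne_zero (mul_ne_zero (hu1 hp1) (hu2 hp2)) (hu3 hp3)) this
      · -- p1 = p2 = 0
        apply lem_b t3 (hD3 hp3)
        rw [hp1, hp2] at h
        have h' : (u1 * u2) * (y * u3) = (u1 * u2) * (x * p3) := by linarith
        exact mul_left_cancel₀ (mul_ne_zero (hu1 hp1) (hu2 hp2)) h'
    · by_cases hp3 : p3 = 0
      · apply lem_b t2 (hD2 hp2)
        rw [hp1, hp3] at h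
        have h' : (u1 * u3) * (y * u2) = (u1 * u3) * (x * p2) := by linarith
        exact mul_left_cancel₀ (mul_ne_zero (hu1 hp1) (hu3 hp3)) h'
      · -- case (c), common β₃ of t2 and t3
        obtain ⟨a, e2, e3, X2, X3, Z2, Z3, s2⟩ := lem_sh t2 (hD2 hp2)
        obtain ⟨b, f3, f1, W3, W1, V3, V1, s3⟩ := lem_sh t3 (hD3 hp3)
        have hab : a * b = 4 * N := by
          apply lem_cc hN hy h0 hp2 hp3 s2.u s3.u
          rw [hp1] at h
          have h' : u1 * (y * (u2 * u3 - D * (p2 * p3))) = u1 * (x * (p2 * u3 + u2 * p3)) := by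
            linarith
          exact mul_left_cancel₀ (hu1 hp1) h'
        obtain ⟨_, hs⟩ := lem_shr hy s3.he2 s3.hX2 t3.a2 s3.n2 s2.n3 s3.z2 s2.z3 s3.w2 s2.w3
          s3.l2 s2.l3
        obtain ⟨hx, hz⟩ := lem_c hN h0 hs hab
        apply t3.k12
        rw [hx, hz]; ring
  · by_cases hp2 : p2 = 0
    · by_cases hp3 : p3 = 0
      · apply lem_b t1 (hD1 hp1)
        rw [hp2, hp3] at h
        have h' : (u2 * u3) * (y * u1) = (u2 * u3) * (x * p1) := by linarith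
        exact mul_left_cancel₀ (mul_ne_zero (hu2 hp2) (hu3 hp3)) h'
      · -- common β₁ of t3 and t1
        obtain ⟨a, e3, e1, X3, X1, Z3, Z1, s3⟩ := lem_sh t3 (hD3 hp3)
        obtain ⟨b, f1, f2, W1, W2, V1, V2, s1⟩ := lem_sh t1 (hD1 hp1)
        have hab : a * b = 4 * N := by
          apply lem_cc hN hy h0 hp3 hp1 s3.u s1.u
          rw [hp2] at h
          have h' : u2 * (y * (u3 * u1 - D * (p3 * p1))) = u2 * (x * (p3 * u1 + u3 * p1)) := by
            linarith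
          exact mul_left_cancel₀ (hu2 hp2) h'
        obtain ⟨_, hs⟩ := lem_shr hy s1.he2 s1.hX2 t1.a2 s1.n2 s3.n3 s1.z2 s3.z3 s1.w2 s3.w3
          s1.l2 s3.l3
        obtain ⟨hx, hz⟩ := lem_c hN h0 hs hab
        apply t1.k12
        rw [hx, hz]; ring
    · by_cases hp3 : p3 = 0
      · -- common β₂ of t1 and t2
        obtain ⟨a, e1, e2, X1, X2, Z1, Z2, s1⟩ := lem_sh t1 (hD1 hp1)
        obtain ⟨b, f2, f3, W2, W3, V2, V3, s2⟩ := lem_sh t2 (hD2 hp2)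
        have hab : a * b = 4 * N := by
          apply lem_cc hN hy h0 hp1 hp2 s1.u s2.u
          rw [hp3] at h
          have h' : u3 * (y * (u1 * u2 - D * (p1 * p2))) = u3 * (x * (p1 * u2 + u1 * p2)) := by
            linarith
          exact mul_left_cancel₀ (hu3 hp3) h'
        obtain ⟨_, hs⟩ := lem_shr hy s2.he2 s2.hX2 t2.a2 s2.n2 s1.n3 s2.z2 s1.z3 s2.w2 s1.w3
          s2.l2 s1.l3
        obtain ⟨hx, hz⟩ := lem_c hN h0 hs hab
        apply t2.k12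
        rw [hx, hz]; ring
      · -- case (d)
        obtain ⟨a, e1, e2, X1, X2, Z1, Z2, s1⟩ := lem_sh t1 (hD1 hp1)
        obtain ⟨b, f2, f3, W2, W3, V2, V3, s2⟩ := lem_sh t2 (hD2 hp2)
        obtain ⟨c, k3, k1, T3, T1, R3, R1, s3⟩ := lem_sh t3 (hD3 hp3)
        -- β₂: first as conjugate in t1 (slope a), then in t2 (slope b)
        obtain ⟨hX2, hs2⟩ := lem_shr hy s2.he2 s2.hX2 t2.a2 s2.n2 s1.n3 s2.z2 s1.z3 s2.w2 s1.w3
          s2.l2 s1.l3
        obtain ⟨hX3, hs3⟩ := lem_shr hy s3.he2 s3.hX2 t3.a2 s3.n2 s2.n3 s3.z2 s2.z3 s3.w2 s2.w3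
          s3.l2 s2.l3
        obtain ⟨hX1, hs1⟩ := lem_shr hy s1.he2 s1.hX2 t1.a2 s1.n2 s3.n3 s1.z2 s3.z3 s1.w2 s3.w3
          s1.l2 s3.l3
        have q2 : (a + b) * (N - W2) = 2 * x := by linarith [hs2.h1, hs2.h2]
        have q3 : (b + c) * (N - T3) = 2 * x := by linarith [hs3.h1, hs3.h2]
        have q1 : (c + a) * (N - X1) = 2 * x := by linarith [hs1.h1, hs1.h2]
        have w1 : N + X1 + W2 = a ^ 2 / 4 := by rw [← hX2]; exact s1.s
        have w2 : N + W2 + T3 = b ^ 2 / 4 := by rw [← hX3]; exact s2.s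
        have w3 : N + T3 + X1 = c ^ 2 / 4 := by rw [← hX1]; exact s3.s
        have hprod : (x - a * N) * (x - b * N) * (x - c * N) -
            D * y ^ 2 * ((x - a * N) + (x - b * N) + (x - c * N)) =
            x * ((x - a * N) * (x - b * N) + (x - b * N) * (x - c * N) +
              (x - c * N) * (x - a * N)) - x * (D * y ^ 2) := by
          have hppp : p1 * p2 * p3 * y ≠ 0 :=
            mul_ne_zero (mul_ne_zero (mul_ne_zero hp1 hp2) hp3) hy
          apply mul_left_cancel₀ hppp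
          have e1' := s1.u
          have e2' := s2.u
          have e3' := s3.u
          have q : y ^ 3 * (y * (u1 * u2 * u3 - D * (p1 * p2 * u3 + p1 * u2 * p3 + u1 * p2 * p3))) =
              y ^ 3 * (x * (p1 * u2 * u3 + u1 * p2 * u3 + u1 * u2 * p3 - D * (p1 * p2 * p3))) := by
            rw [h]
          have q' : y * ((u1 * y) * (u2 * y) * (u3 * y) - D * y ^ 2 *
              (p1 * p2 * (u3 * y) + p1 * (u2 * y) * p3 + (u1 * y) * p2 * p3)) =
              x * y * (p1 * (u2 * y) * (u3 * y) + (u1 * y) * p2 * (u3 * y) +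
                (u1 * y) * (u2 * y) * p3) - x * y * (D * y ^ 2) * (p1 * p2 * p3) := by
            linear_combination q
          rw [e1', e2', e3'] at q'
          linear_combination q'
        obtain ⟨hab, hbc⟩ := lem_d hN h0 w1 w2 w3 q1 q2 q3 hprod
        -- all Z vanish
        have hz2 : x2 = 0 := by
          apply hs2.h4
          have := hs2.h1
          have := hs2.h2
          rw [hab] at *
          linarith
        have hz3 : x3 = 0 := by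
          apply hs3.h4
          have := hs3.h1
          have := hs3.h2
          rw [hbc] at *
          linarith
        apply t2.k23
        rw [hz2, hz3]; ring

end Pool.Agent.SMI
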