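import Pool.Agent.SMI.Defs
import Pool.Agent.SMI.Lem

/-!
# SMI/Vtr: from `Uq` to the real relations; changes of sign

PROOF of `vtr`.  Every field is the cast of a field of `h` (`h.e1`, `h.e2`, `h.e3`, `h.np`, `h.ll`):
`exact_mod_cast` after `have := congrArg (fun z : ℤ => (z : ℝ)) …; push_cast at this`; `hD`: `1 ≤ N1 ^ 2 ≤ D`;
`k12`, `k23`, `k31` are `e1.k12`, `e2.k12`, `e3.k12`; `r1`, `r2`, `r3` are `rel2`; `m1`, `m2`, `m3` are `mm`; for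
`ll`, `kk1`, `kk2`, `kk3` the assumption gives `Δ = 0`, so the right-hand side of `h.ll`, `e1.kk`, `e2.kk`, `e3.kk`
vanishes.
PROOF of `vsg`.  Every field is the corresponding field of `h` times a product of the `sᵢ`:
`linear_combination` with `h1`, `h3`, `h4`, or case distinction `sᵢ = 1`, `sᵢ = -1` and `simp`/`nlinarith`/`linarith`.
-/

set_option autoImplicit false

namespace Pool.Agent.SMI

open Pool.Agent.SMQ

theorem vtr (D : ℕ) (p xp : ℤ) (x y g r : V3) (N : ℕ × ℕ × ℕ) (N4 : ℕ) (u v : V3)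
    (h : Uq D p xp x y g r N N4 u v) :
    TrR (D : ℝ) (N.1 : ℝ) (N.2.1 : ℝ) (N.2.2 : ℝ) (x.1 : ℝ) (x.2.1 : ℝ) (x.2.2 : ℝ)
      (y.1 : ℝ) (y.2.1 : ℝ) (y.2.2 : ℝ) (xp : ℝ) (p : ℝ) (g.1 : ℝ) (g.2.1 : ℝ) (g.2.2 : ℝ) := by
  have hD1 : 1 ≤ D := le_trans (Nat.one_le_pow _ _ h.e1.hN) h.e1.hD
  have hz : (y.1 : ℝ) * (y.2.1 : ℝ) * (y.2.2 : ℝ) = (p : ℝ) ^ 3 →
      y.1 * y.2.1 * y.2.2 - p ^ 3 = 0 := by
    intro hh
    have h2 : y.1 * y.2.1 * y.2.2 = p ^ 3 := by exact_mod_cast hh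
    rw [h2, sub_self]
  have kkz : ∀ (y1 y2 y3 g1 g2 x1 x2 : ℤ), y1 * y2 * y3 - p ^ 3 = 0 →
      2 * (y1 * g2 ^ 3 - y2 * g1 ^ 3) = (y1 * y2 * y3 - p ^ 3) * (y1 * x2 - y2 * x1) →
      (y1 : ℝ) * (g2 : ℝ) ^ 3 = (y2 : ℝ) * (g1 : ℝ) ^ 3 := by
    intro y1 y2 y3 g1 g2 x1 x2 h0 h1
    rw [h0, zero_mul] at h1
    have h2 : y1 * g2 ^ 3 = y2 * g1 ^ 3 := by linarith
    exact_mod_cast h2
  refine
    { hD := by exact_mod_cast hD1
      n1 := by exact_mod_cast h.e1.hN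
      n2 := by exact_mod_cast h.e2.hN
      n3 := by exact_mod_cast h.e3.hN
      a1 := by exact_mod_cast h.e1.ny
      a2 := by exact_mod_cast h.e2.ny
      a3 := by exact_mod_cast h.e3.ny
      ap := by exact_mod_cast h.np
      y10 := by exact_mod_cast h.e1.hy
      y20 := by exact_mod_cast h.e2.hy
      y30 := by exact_mod_cast h.e3.hy
      k12 := by exact_mod_cast h.e1.k12
      k23 := by exact_mod_cast h.e2.k12
      k31 := by exact_mod_cast h.e3.k12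
      r1 := by exact_mod_cast h.e1.rel2
      r2 := by exact_mod_cast h.e2.rel2
      r3 := by exact_mod_cast h.e3.rel2
      m1 := by exact_mod_cast h.e1.mm
      m2 := ?_
      m3 := ?_
      ll := ?_
      kk1 := ?_
      kk2 := ?_
      kk3 := ?_ }
  · have h1 : (N.2.1 : ℤ) * (y.1 * y.2.1 * y.2.2 - p ^ 3) = y.2.1 * g.2.2 * g.1 - p * g.2.1 ^ 2 := by
      have h2 := h.e2.mm
      linear_combination h2
    exact_mod_cast h1
  · have h1 : (N.2.2 : ℤ) * (y.1 * y.2.1 * y.2.2 - p ^ 3) = y.2.2 * g.1 * g.2.1 - p * g.2.2 ^ 2 := by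
      have h2 := h.e3.mm
      linear_combination h2
    exact_mod_cast h1
  · intro hh
    have h0 := hz hh
    have h1 := h.ll
    rw [h0, zero_mul] at h1
    have h2 : p ^ 2 * ((N.1 : ℤ) * (g.2.1 * g.2.2) ^ 2 + (N.2.1 : ℤ) * (g.2.2 * g.1) ^ 2 +
      (N.2.2 : ℤ) * (g.1 * g.2.1) ^ 2) = (g.1 * g.2.1 * g.2.2) ^ 2 := by linarith
    exact_mod_cast h2
  · intro hh
    exact kkz _ _ y.2.2 _ _ x.1 x.2.1 (hz hh) h.e1.kk
  · intro hh
    refine kkz _ _ y.1 _ _ x.2.1 x.2.2 ?_ h.e2.kk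
    have h0 := hz hh
    linear_combination h0
  · intro hh
    refine kkz _ _ y.2.1 _ _ x.2.2 x.1 ?_ h.e3.kk
    have h0 := hz hh
    linear_combination h0

private theorem vtr_sq {s : ℝ} (h : s ^ 2 = 1) : s = 1 ∨ s = -1 := by
  have h1 : (s - 1) * (s + 1) = 0 := by linear_combination h
  rcases mul_eq_zero.mp h1 with h2 | h2
  · left; linarith
  · right; linarith

theorem vsg (D N1 N2 N3 x1 x2 x3 y1 y2 y3 xp p g1 g2 g3 s1 s2 s3 : ℝ)
    (h : TrR D N1 N2 N3 x1 x2 x3 y1 y2 y3 xp p g1 g2 g3) (h1 : s1 ^ 2 = 1) (h3 : s2 ^ 2 = 1)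
    (h4 : s3 ^ 2 = 1) :
    TrR D N1 N2 N3 (s1 * x1) (s2 * x2) (s3 * x3) (s1 * y1) (s2 * y2) (s3 * y3)
      (s1 * s2 * s3 * xp) (s1 * s2 * s3 * p) (s2 * s3 * g1) (s3 * s1 * g2) (s1 * s2 * g3) := by
  have n1 : s1 ≠ 0 := by rcases vtr_sq h1 with e | e <;> rw [e] <;> norm_num
  have n2 : s2 ≠ 0 := by rcases vtr_sq h3 with e | e <;> rw [e] <;> norm_num
  have n3 : s3 ≠ 0 := by rcases vtr_sq h4 with e | e <;> rw [e] <;> norm_num
  have c1 : s1 ^ 3 = s1 := by linear_combination s1 * h1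
  have c2 : s2 ^ 3 = s2 := by linear_combination s2 * h3
  have c3 : s3 ^ 3 = s3 := by linear_combination s3 * h4
  have e12 : (s1 * s2) ^ 2 = 1 := by rw [mul_pow, h1, h3, one_mul]
  have e23 : (s2 * s3) ^ 2 = 1 := by rw [mul_pow, h3, h4, one_mul]
  have e31 : (s3 * s1) ^ 2 = 1 := by rw [mul_pow, h4, h1, one_mul]
  have e123 : (s1 * s2 * s3) ^ 2 = 1 := by rw [mul_pow, e12, h4, one_mul]
  have hz : s1 * y1 * (s2 * y2) * (s3 * y3) = (s1 * s2 * s3 * p) ^ 3 → y1 * y2 * y3 = p ^ 3 := by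
    intro hh
    have e1 : (s1 * s2 * s3 * p) ^ 3 = s1 * s2 * s3 * p ^ 3 := by
      have : (s1 * s2 * s3 * p) ^ 3 = s1 ^ 3 * s2 ^ 3 * s3 ^ 3 * p ^ 3 := by ring
      rw [this, c1, c2, c3]
    rw [e1] at hh
    have e2 : (s1 * s2 * s3) * (y1 * y2 * y3) = (s1 * s2 * s3) * p ^ 3 := by linear_combination hh
    exact mul_left_cancel₀ (mul_ne_zero (mul_ne_zero n1 n2) n3) e2
  refine
    { hD := h.hD
      n1 := h.n1
      n2 := h.n2
      n3 := h.n3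
      a1 := ?_
      a2 := ?_
      a3 := ?_
      ap := ?_
      y10 := mul_ne_zero n1 h.y10
      y20 := mul_ne_zero n2 h.y20
      y30 := mul_ne_zero n3 h.y30
      k12 := ?_
      k23 := ?_
      k31 := ?_
      r1 := ?_
      r2 := ?_
      r3 := ?_
      m1 := ?_
      m2 := ?_
      m3 := ?_
      ll := ?_
      kk1 := ?_
      kk2 := ?_
      kk3 := ?_ }
  · have := h.a1
    rw [mul_pow, mul_pow, h1]; linarith
  · have := h.a2
    rw [mul_pow, mul_pow, h3]; linarith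
  · have := h.a3
    rw [mul_pow, mul_pow, h4]; linarith
  · have := h.ap
    have e : (s1 * s2 * s3) ^ 2 = 1 := by rw [mul_pow, mul_pow, h1, h3, h4]; norm_num
    rw [mul_pow, mul_pow _ p, e]; linarith
  · intro e
    apply h.k12
    have e2 : (s1 * s2) * (x1 * y2) = (s1 * s2) * (x2 * y1) := by linear_combination e
    exact mul_left_cancel₀ (mul_ne_zero n1 n2) e2
  · intro e
    apply h.k23
    have e2 : (s2 * s3) * (x2 * y3) = (s2 * s3) * (x3 * y2) := by linear_combination e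
    exact mul_left_cancel₀ (mul_ne_zero n2 n3) e2
  · intro e
    apply h.k31
    have e2 : (s3 * s1) * (x3 * y1) = (s3 * s1) * (x1 * y3) := by linear_combination e
    exact mul_left_cancel₀ (mul_ne_zero n3 n1) e2
  · have := h.r1
    linear_combination (s2 * s3) * this - s2 * s3 * (y1 * xp - x1 * p) * h1
  · have := h.r2
    linear_combination (s3 * s1) * this - s3 * s1 * (y2 * xp - x2 * p) * h3
  · have := h.r3
    linear_combination (s1 * s2) * this - s1 * s2 * (y3 * xp - x3 * p) * h4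
  · have := h.m1
    linear_combination (s1 * s2 * s3) * this - N1 * p ^ 3 * s1 * s2 * s3 * e123 -
      s1 * s2 * s3 * y1 * g2 * g3 * h1 + s1 * s2 * s3 * p * g1 ^ 2 * e23
  · have := h.m2
    linear_combination (s1 * s2 * s3) * this - N2 * p ^ 3 * s1 * s2 * s3 * e123 -
      s1 * s2 * s3 * y2 * g3 * g1 * h3 + s1 * s2 * s3 * p * g2 ^ 2 * e31
  · have := h.m3
    linear_combination (s1 * s2 * s3) * this - N3 * p ^ 3 * s1 * s2 * s3 * e123 -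
      s1 * s2 * s3 * y3 * g1 * g2 * h4 + s1 * s2 * s3 * p * g3 ^ 2 * e12
  · intro hh
    have h5 := h.ll (hz hh)
    have f0 : (s1 * s2 * s3 * p) ^ 2 = p ^ 2 := by
      rw [mul_pow, e123, one_mul]
    have f1 : (s3 * s1 * g2 * (s1 * s2 * g3)) ^ 2 = (g2 * g3) ^ 2 := by
      have : (s3 * s1 * g2 * (s1 * s2 * g3)) ^ 2 = (s1 ^ 2) ^ 2 * s2 ^ 2 * s3 ^ 2 * (g2 * g3) ^ 2 := by
        ring
      rw [this, h1, h3, h4]; ring
    have f2 : (s1 * s2 * g3 * (s2 * s3 * g1)) ^ 2 = (g3 * g1) ^ 2 := by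
      have : (s1 * s2 * g3 * (s2 * s3 * g1)) ^ 2 = s1 ^ 2 * (s2 ^ 2) ^ 2 * s3 ^ 2 * (g3 * g1) ^ 2 := by
        ring
      rw [this, h1, h3, h4]; ring
    have f3 : (s2 * s3 * g1 * (s3 * s1 * g2)) ^ 2 = (g1 * g2) ^ 2 := by
      have : (s2 * s3 * g1 * (s3 * s1 * g2)) ^ 2 = s1 ^ 2 * s2 ^ 2 * (s3 ^ 2) ^ 2 * (g1 * g2) ^ 2 := by
        ring
      rw [this, h1, h3, h4]; ring
    have f4 : (s2 * s3 * g1 * (s3 * s1 * g2) * (s1 * s2 * g3)) ^ 2 = (g1 * g2 * g3) ^ 2 := by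
      have : (s2 * s3 * g1 * (s3 * s1 * g2) * (s1 * s2 * g3)) ^ 2 =
          (s1 ^ 2) ^ 2 * (s2 ^ 2) ^ 2 * (s3 ^ 2) ^ 2 * (g1 * g2 * g3) ^ 2 := by
        ring
      rw [this, h1, h3, h4]; ring
    rw [f0, f1, f2, f3, f4]
    exact h5
  · intro hh
    have h5 := h.kk1 (hz hh)
    have f1 : s1 * y1 * (s3 * s1 * g2) ^ 3 = (s1 ^ 2) ^ 2 * s3 ^ 3 * (y1 * g2 ^ 3) := by ring
    have f2 : s2 * y2 * (s2 * s3 * g1) ^ 3 = (s2 ^ 2) ^ 2 * s3 ^ 3 * (y2 * g1 ^ 3) := by ring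
    rw [f1, f2, h1, h3, h5]
  · intro hh
    have h5 := h.kk2 (hz hh)
    have f1 : s2 * y2 * (s1 * s2 * g3) ^ 3 = (s2 ^ 2) ^ 2 * s1 ^ 3 * (y2 * g3 ^ 3) := by ring
    have f2 : s3 * y3 * (s3 * s1 * g2) ^ 3 = (s3 ^ 2) ^ 2 * s1 ^ 3 * (y3 * g2 ^ 3) := by ring
    rw [f1, f2, h3, h4, h5]
  · intro hh
    have h5 := h.kk3 (hz hh)
    have f1 : s3 * y3 * (s2 * s3 * g1) ^ 3 = (s3 ^ 2) ^ 2 * s2 ^ 3 * (y3 * g1 ^ 3) := by ring
    have f2 : s1 * y1 * (s1 * s2 * g3) ^ 3 = (s1 ^ 2) ^ 2 * s2 ^ 3 * (y1 * g3 ^ 3) := by ring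
    rw [f1, f2, h1, h4, h5]

end Pool.Agent.SMI
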