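import Pool.Agent.SMI.Vdx
import Pool.Agent.SMI.Vtr
import Pool.Agent.SMI.Vun
import Pool.Agent.SMI.Vgn
import Pool.Agent.SMI.Vpi

/-!
# SMI/Vth: one of the three triples is good

PROOF.  Take generators: `α = (x.1, y.1)` from `d1.s1`, `β1 = (x.2.1, y.2.1)` from `d1.s2`,
`β2 = (x'.2.1, y'.2.1)` from `d2.s2`, `β3 = (x''.2.1, y''.2.1)` from `d3.s2`.
`vun` for `d1.s1`, `d2.s1`: `x'.1 = e2 x.1`, `y'.1 = e2 y.1`; for `d1.s1`, `d3.s1`: `x''.1 = e3 x.1`, `y''.1 = e3 y.1`.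
`vgn` for `CI K B2 C2 N2`, `β2` (`d2.s2`) and `d1.s3`: `x.2.2 = f2 x'.2.1`, `y.2.2 = -(f2 y'.2.1)`;
for `CI K B3 C3 N3`, `β3` (`d3.s2`) and `d2.s3`: `x'.2.2 = f3 x''.2.1`, `y'.2.2 = -(f3 y''.2.1)`;
for `CI K B1 C1 N1`, `β1` (`d1.s2`) and `d3.s3`: `x''.2.2 = f1 x.2.1`, `y''.2.2 = -(f1 y.2.1)`.
`vtr` gives three `TrR`; apply `vsg` with the signs `(1, 1, f2)`, `(e2, 1, f3)`, `(e3, 1, f1)` (squares are `1`):
`TrR D N N1 N2 (x.1) (x.2.1) (x'.2.1) (y.1) (y.2.1) (-y'.2.1) (f2 xp) (f2 p) …`,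
`TrR D N N2 N3 (x.1) (x'.2.1) (x''.2.1) (y.1) (y'.2.1) (-y''.2.1) (e2 f3 xp') (e2 f3 p') …`,
`TrR D N N3 N1 (x.1) (x''.2.1) (x.2.1) (y.1) (y''.2.1) (-y.2.1) (e3 f1 xp'') (e3 f1 p'') …`.
The hypothesis `h` of `lem0` is the relation `vpi` (for `d1.sp`, `d2.sp`, `d3.sp`, `d1.s1`) times the product of the
signs.  `lem0` gives e.g. `f2 p ≠ 0` and `y.1 * y.2.1 * (-y'.2.1) - (f2 p) ^ 3 ≠ 0`; as
`-y'.2.1 = f2 y.2.2` the latter is `f2 (y.1 y.2.1 y.2.2 - p ^ 3) = f2 De p y` (`f2 ^ 3 = f2`).  Similarly for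
the other two.
-/

set_option autoImplicit false

namespace Pool.Agent.SMI

open NumberField Pool.Agent.FTA Pool.Agent.FTB Pool.Agent.SMQ nonZeroDivisors

/-- the part with real numbers and signs -/
private lemma vth_real (D N N1 N2 N3 x1 x2 x3 y1 y2 y3 xp p g1 g2 g3 : ℝ)
    (x1' x2' x3' y1' y2' y3' xp' p' g1' g2' g3' : ℝ)
    (x1'' x2'' x3'' y1'' y2'' y3'' xp'' p'' g1'' g2'' g3'' : ℝ)
    (e2 e3 f1 f2 f3 : ℝ)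
    (he2 : e2 ^ 2 = 1) (he3 : e3 ^ 2 = 1) (hf1 : f1 ^ 2 = 1) (hf2 : f2 ^ 2 = 1) (hf3 : f3 ^ 2 = 1)
    (t1 : TrR D N N1 N2 x1 x2 x3 y1 y2 y3 xp p g1 g2 g3)
    (t2 : TrR D N N2 N3 x1' x2' x3' y1' y2' y3' xp' p' g1' g2' g3')
    (t3 : TrR D N N3 N1 x1'' x2'' x3'' y1'' y2'' y3'' xp'' p'' g1'' g2'' g3'')
    (a1 : x1' = e2 * x1) (a2 : y1' = e2 * y1) (a3 : x1'' = e3 * x1) (a4 : y1'' = e3 * y1)
    (b1 : x3 = f2 * x2') (b2 : y3 = -(f2 * y2'))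
    (b3 : x3' = f3 * x2'') (b4 : y3' = -(f3 * y2''))
    (b5 : x3'' = f1 * x2) (b6 : y3'' = -(f1 * y2))
    (h : y1 * (xp * xp' * xp'' - D * (p * p' * xp'' + p * xp' * p'' + xp * p' * p'')) =
      x1 * (p * xp' * xp'' + xp * p' * xp'' + xp * xp' * p'' - D * (p * p' * p''))) :
    (p ≠ 0 ∧ y1 * y2 * y3 - p ^ 3 ≠ 0) ∨ (p' ≠ 0 ∧ y1' * y2' * y3' - p' ^ 3 ≠ 0) ∨
      (p'' ≠ 0 ∧ y1'' * y2'' * y3'' - p'' ^ 3 ≠ 0) := by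
  have q1 := vsg D N N1 N2 x1 x2 x3 y1 y2 y3 xp p g1 g2 g3 1 1 f2 t1 (by norm_num) (by norm_num) hf2
  have q2 := vsg D N N2 N3 x1' x2' x3' y1' y2' y3' xp' p' g1' g2' g3' e2 1 f3 t2 he2 (by norm_num)
    hf3
  have q3 := vsg D N N3 N1 x1'' x2'' x3'' y1'' y2'' y3'' xp'' p'' g1'' g2'' g3'' e3 1 f1 t3 he3
    (by norm_num) hf1
  have s1 : f2 * x3 = x2' := by rw [b1]; linear_combination x2' * hf2
  have s2 : f2 * y3 = -y2' := by rw [b2]; linear_combination (-y2') * hf2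
  have s3 : f3 * x3' = x2'' := by rw [b3]; linear_combination x2'' * hf3
  have s4 : f3 * y3' = -y2'' := by rw [b4]; linear_combination (-y2'') * hf3
  have s5 : f1 * x3'' = x2 := by rw [b5]; linear_combination x2 * hf1
  have s6 : f1 * y3'' = -y2 := by rw [b6]; linear_combination (-y2) * hf1
  have u1 : e2 * x1' = x1 := by rw [a1]; linear_combination x1 * he2
  have u2 : e2 * y1' = y1 := by rw [a2]; linear_combination y1 * he2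
  have u3 : e3 * x1'' = x1 := by rw [a3]; linear_combination x1 * he3
  have u4 : e3 * y1'' = y1 := by rw [a4]; linear_combination y1 * he3
  rw [s1, s2, one_mul, one_mul, one_mul, one_mul] at q1
  rw [s3, s4, u1, u2, one_mul, one_mul] at q2
  rw [s5, s6, u3, u4, one_mul, one_mul] at q3
  have key := lem0 D N N1 N2 N3 x1 x2 x2' x2'' y1 y2 y2' y2'' _ _ _ _ _ _ _ _ _ _ _ _ _ _ _ q1 q2 q3
    (by linear_combination (f2 * (e2 * f3) * (e3 * f1)) * h)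
  rcases key with ⟨c1, c2⟩ | ⟨c1, c2⟩ | ⟨c1, c2⟩
  · refine Or.inl ⟨fun h0 => c1 (by rw [h0]; ring), fun h0 => c2 ?_⟩
    rw [← s2]
    linear_combination f2 * h0 + (- p ^ 3 * f2) * hf2
  · refine Or.inr (Or.inl ⟨fun h0 => c1 (by rw [h0]; ring), fun h0 => c2 ?_⟩)
    rw [← s4, ← u2]
    have : (e2 * f3) ^ 2 = 1 := by rw [mul_pow, he2, hf3, one_mul]
    linear_combination (e2 * f3) * h0 + (- p' ^ 3 * (e2 * f3)) * this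
  · refine Or.inr (Or.inr ⟨fun h0 => c1 (by rw [h0]; ring), fun h0 => c2 ?_⟩)
    rw [← s6, ← u4]
    have : (e3 * f1) ^ 2 = 1 := by rw [mul_pow, he3, hf1, one_mul]
    linear_combination (e3 * f1) * h0 + (- p'' ^ 3 * (e3 * f1)) * this

theorem vth (K : IntermediateField ℚ ℂ) [NumberField K] (h2 : Module.finrank ℚ K = 2)
    (him : ∃ x : K, (x : ℂ).im ≠ 0) (hD : 5 ≤ aD K) (I B1 B2 B3 C1 C2 C3 : (Ideal (𝓞 K))⁰)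
    (N N1 N2 N3 : ℕ) (c1 : CI K B1 C1 N1) (c2 : CI K B2 C2 N2) (c3 : CI K B3 C3 N3)
    (p xp p' xp' p'' xp'' : ℤ) (x y g x' y' g' x'' y'' g'' : V3)
    (d1 : Dx K I B1 C2 (N, N1, N2) N3 p xp x y g)
    (d2 : Dx K I B2 C3 (N, N2, N3) N1 p' xp' x' y' g')
    (d3 : Dx K I B3 C1 (N, N3, N1) N2 p'' xp'' x'' y'' g'') :
    (p ≠ 0 ∧ De p y ≠ 0) ∨ (p' ≠ 0 ∧ De p' y' ≠ 0) ∨ (p'' ≠ 0 ∧ De p'' y'' ≠ 0) := by
  obtain ⟨π1, m1, n1⟩ := d1.sp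
  obtain ⟨π2, m2, n2⟩ := d2.sp
  obtain ⟨π3, m3, n3⟩ := d3.sp
  obtain ⟨α, mα, nα⟩ := d1.s1
  obtain ⟨α', mα', nα'⟩ := d2.s1
  obtain ⟨α'', mα'', nα''⟩ := d3.s1
  obtain ⟨β1, mβ1, nβ1⟩ := d1.s2
  obtain ⟨β2, mβ2, nβ2⟩ := d2.s2
  obtain ⟨β3, mβ3, nβ3⟩ := d3.s2
  obtain ⟨γ1, mγ1, nγ1⟩ := d1.s3
  obtain ⟨γ2, mγ2, nγ2⟩ := d2.s3
  obtain ⟨γ3, mγ3, nγ3⟩ := d3.s3
  obtain ⟨r, u, v, q1⟩ := d1.uq
  obtain ⟨r', u', v', q2⟩ := d2.uq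
  obtain ⟨r'', u'', v'', q3⟩ := d3.uq
  obtain ⟨e2, he2, a1, a2⟩ := vun K h2 him hD α α' (nα.trans nα'.symm) _ _ _ _ mα mα'
  obtain ⟨e3, he3, a3, a4⟩ := vun K h2 him hD α α'' (nα.trans nα''.symm) _ _ _ _ mα mα''
  obtain ⟨f2, hf2, b1, b2⟩ := vgn K h2 him hD B2 C2 N2 c2 β2 γ1 nβ2 nγ1 _ _ _ _ mβ2 mγ1
  obtain ⟨f3, hf3, b3, b4⟩ := vgn K h2 him hD B3 C3 N3 c3 β3 γ2 nβ3 nγ2 _ _ _ _ mβ3 mγ2
  obtain ⟨f1, hf1, b5, b6⟩ := vgn K h2 him hD B1 C1 N1 c1 β1 γ3 nβ1 nγ3 _ _ _ _ mβ1 mγ3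
  have hpi := vpi K h2 him hD I B1 B2 B3 C1 C2 C3 N1 N2 N3 c1 c2 c3 π1 π2 π3 α n1 n2 n3 nα
    x.1 y.1 xp xp' xp'' p p' p'' mα m1 m2 m3
  have t1 := vtr (aD K) p xp x y g r (N, N1, N2) N3 u v q1
  have t2 := vtr (aD K) p' xp' x' y' g' r' (N, N2, N3) N1 u' v' q2
  have t3 := vtr (aD K) p'' xp'' x'' y'' g'' r'' (N, N3, N1) N2 u'' v'' q3
  have key := vth_real (aD K : ℝ) (N : ℝ) (N1 : ℝ) (N2 : ℝ) (N3 : ℝ) _ _ _ _ _ _ _ _ _ _ _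
    _ _ _ _ _ _ _ _ _ _ _ _ _ _ _ _ _ _ _ _ _ _ (e2 : ℝ) (e3 : ℝ) (f1 : ℝ) (f2 : ℝ) (f3 : ℝ)
    (by exact_mod_cast he2) (by exact_mod_cast he3) (by exact_mod_cast hf1)
    (by exact_mod_cast hf2) (by exact_mod_cast hf3) t1 t2 t3
    (by exact_mod_cast a1) (by exact_mod_cast a2) (by exact_mod_cast a3) (by exact_mod_cast a4)
    (by exact_mod_cast b1) (by exact_mod_cast b2) (by exact_mod_cast b3) (by exact_mod_cast b4)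
    (by exact_mod_cast b5) (by exact_mod_cast b6) (by exact_mod_cast hpi)
  rcases key with ⟨c1, c2⟩ | ⟨c1, c2⟩ | ⟨c1, c2⟩
  · refine Or.inl ⟨by exact_mod_cast c1, fun h0 => c2 ?_⟩
    unfold De at h0
    exact_mod_cast h0
  · refine Or.inr (Or.inl ⟨by exact_mod_cast c1, fun h0 => c2 ?_⟩)
    unfold De at h0
    exact_mod_cast h0
  · refine Or.inr (Or.inr ⟨by exact_mod_cast c1, fun h0 => c2 ?_⟩)
    unfold De at h0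
    exact_mod_cast h0

end Pool.Agent.SMI
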