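import Pool.Agent.SMI.Defs
import Pool.Agent.FTB.Cor
import Pool.Agent.FTA.PowLe

/-!
# SMI/Inj: the witness determines the field and the pair of classes

PROOF of `inj1`.  `De p y ≠ 0` and the last two equations of `Wit` give the same `x1` for `K` and
`K'`, the equation for `N1` gives the same `N1`, and then
`(aD K) (G y₁) ^ 2 = 4 N1 ^ 3 - x1 ^ 2 = (aD K') (G y₁) ^ 2` with `G y₁ ≠ 0`.
PROOF of `inj2`.  The same `x1`, `x2`; `co_inj` gives the same `α`, `β`, `powEq` the same `I`, `J`.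
-/

set_option autoImplicit false

namespace Pool.Agent.SMI

open NumberField Pool.Agent.FTA Pool.Agent.FTB Pool.Agent.SMQ nonZeroDivisors

theorem inj1 (K K' : IntermediateField ℚ ℂ) [NumberField K] [NumberField K']
    (A B : ClassGroup (𝓞 K)) (A' B' : ClassGroup (𝓞 K')) (G : ℕ) (p : ℤ) (y g : V3)
    (h : Wit K A B G p y g) (h' : Wit K' A' B' G p y g) : aD K = aD K' := by
  obtain ⟨I, J, α, β, N1, x1, x2, -, -, -, -, -, -, hG, hD, hy, e1, e2, e3, -⟩ := h
  obtain ⟨I', J', α', β', N1', x1', x2', -, -, -, -, -, -, -, -, -, e1', e2', e3', -⟩ := h'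
  have hx : x1 = x1' := by
    have h1 : x1 * De p y ^ 2 = x1' * De p y ^ 2 := by rw [e3, e3']
    exact mul_right_cancel₀ (pow_ne_zero 2 hD) h1
  have hN : (N1 : ℤ) = N1' := by
    have h1 : (N1 : ℤ) * De p y = N1' * De p y := by rw [e1, e1']
    exact mul_right_cancel₀ hD h1
  have hG' : (G : ℤ) ≠ 0 := by
    have : (1 : ℤ) ≤ G := by exact_mod_cast hG
    omega
  have h2 : (aD K : ℤ) * ((G : ℤ) * y.1) ^ 2 = (aD K' : ℤ) * ((G : ℤ) * y.1) ^ 2 := by
    rw [← hx, ← hN] at e2'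
    linarith
  have h3 := mul_right_cancel₀ (pow_ne_zero 2 (mul_ne_zero hG' hy)) h2
  exact_mod_cast h3

private theorem inj_ideal (K : IntermediateField ℚ ℂ) [NumberField K]
    (I I' : (Ideal (𝓞 K))⁰) (α α' : 𝓞 K) (t y : ℤ)
    (hI : (I : Ideal (𝓞 K)) ^ 3 = Ideal.span {α}) (hI' : (I' : Ideal (𝓞 K)) ^ 3 = Ideal.span {α'})
    (h : Co K α t y) (h' : Co K α' t y) : I = I' := by
  have h1 : α = α' := co_inj K α α' t y h h'
  apply Subtype.ext
  apply powEq _ _ _ 3 (by norm_num)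
  rw [hI, hI', h1]

theorem inj2 (K : IntermediateField ℚ ℂ) [NumberField K]
    (A B A' B' : ClassGroup (𝓞 K)) (G : ℕ) (p : ℤ) (y g : V3)
    (h : Wit K A B G p y g) (h' : Wit K A' B' G p y g) : A = A' ∧ B = B' := by
  obtain ⟨I, J, α, β, N1, x1, x2, hA, hB, hI, hJ, hα, hβ, hG, hD, hy, e1, e2, e3, e4⟩ := h
  obtain ⟨I', J', α', β', N1', x1', x2', hA', hB', hI', hJ', hα', hβ', -, -, -, e1', e2', e3',
    e4'⟩ := h'
  have hx : x1 = x1' := by
    have h1 : x1 * De p y ^ 2 = x1' * De p y ^ 2 := by rw [e3, e3']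
    exact mul_right_cancel₀ (pow_ne_zero 2 hD) h1
  have hx2 : x2 = x2' := by
    have h1 : x2 * De p y ^ 2 = x2' * De p y ^ 2 := by rw [e4, e4']
    exact mul_right_cancel₀ (pow_ne_zero 2 hD) h1
  subst hx
  subst hx2
  have hII := inj_ideal K I I' α α' x1 _ hI hI' hα hα'
  have hJJ := inj_ideal K J J' β β' x2 _ hJ hJ' hβ hβ'
  refine ⟨?_, ?_⟩
  · rw [← hA, ← hA', hII]
  · rw [← hB, ← hB', hJJ]

end Pool.Agent.SMI
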