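import Pool.Agent.SMI.Defs

/-!
# SMI/Rct: the content

PROOF of `rct`.  Let `G = gcd (p, y1, y2, y3)` (a natural number, `G ≥ 1` as `p ≠ 0`; e.g.
`Int.gcd (Int.gcd p y1) (Int.gcd y2 y3)`).  `G` divides `p, y1, y2, y3`, so also `g1, g2, g3` by `h1`,
`h2`, `h3`.  If a prime `l` divides all the quotients then `G l` divides `p, y1, y2, y3`, so `G l ∣ G`,
`l ∣ 1`.
-/

set_option autoImplicit false

namespace Pool.Agent.SMI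

theorem rct (p y1 y2 y3 g1 g2 g3 : ℤ) (hp : p ≠ 0)
    (h1 : ∀ n : ℤ, n ∣ p → n ∣ y1 → n ∣ g1) (h2 : ∀ n : ℤ, n ∣ p → n ∣ y2 → n ∣ g2)
    (h3 : ∀ n : ℤ, n ∣ p → n ∣ y3 → n ∣ g3) :
    ∃ (G : ℕ) (p' z1 z2 z3 k1 k2 k3 : ℤ), 1 ≤ G ∧ p = G * p' ∧ y1 = G * z1 ∧ y2 = G * z2 ∧
      y3 = G * z3 ∧ g1 = G * k1 ∧ g2 = G * k2 ∧ g3 = G * k3 ∧
      ∀ l : ℕ, l.Prime → (l : ℤ) ∣ p' → (l : ℤ) ∣ z1 → (l : ℤ) ∣ z2 → ¬ (l : ℤ) ∣ z3 := by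
  obtain ⟨G, hG⟩ : ∃ G : ℕ, G = Int.gcd (Int.gcd p y1 : ℤ) (Int.gcd y2 y3 : ℤ) := ⟨_, rfl⟩
  have hGA : (G : ℤ) ∣ (Int.gcd p y1 : ℤ) := by
    rw [hG]; exact Int.gcd_dvd_left _ _
  have hGB : (G : ℤ) ∣ (Int.gcd y2 y3 : ℤ) := by
    rw [hG]; exact Int.gcd_dvd_right _ _
  have hGp : (G : ℤ) ∣ p := hGA.trans (Int.gcd_dvd_left _ _)
  have hG1 : (G : ℤ) ∣ y1 := hGA.trans (Int.gcd_dvd_right _ _)
  have hG2 : (G : ℤ) ∣ y2 := hGB.trans (Int.gcd_dvd_left _ _)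
  have hG3 : (G : ℤ) ∣ y3 := hGB.trans (Int.gcd_dvd_right _ _)
  have hmax : ∀ n : ℤ, n ∣ p → n ∣ y1 → n ∣ y2 → n ∣ y3 → n ∣ (G : ℤ) := by
    intro n ha hb hc hd
    rw [hG]
    exact Int.dvd_coe_gcd (Int.dvd_coe_gcd ha hb) (Int.dvd_coe_gcd hc hd)
  have hG0 : (G : ℤ) ≠ 0 := by
    intro h0
    rw [h0] at hGp
    exact hp (zero_dvd_iff.mp hGp)
  have hg1 := h1 _ hGp hG1
  have hg2 := h2 _ hGp hG2
  have hg3 := h3 _ hGp hG3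
  obtain ⟨p', hp'⟩ := hGp
  obtain ⟨z1, hz1⟩ := hG1
  obtain ⟨z2, hz2⟩ := hG2
  obtain ⟨z3, hz3⟩ := hG3
  obtain ⟨k1, hk1⟩ := hg1
  obtain ⟨k2, hk2⟩ := hg2
  obtain ⟨k3, hk3⟩ := hg3
  refine ⟨G, p', z1, z2, z3, k1, k2, k3, ?_, hp', hz1, hz2, hz3, hk1, hk2, hk3, ?_⟩
  · have : G ≠ 0 := by exact_mod_cast hG0
    omega
  · intro l hl ha hb hc hd
    have h4 : (G : ℤ) * l ∣ (G : ℤ) := by
      apply hmax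
      · rw [hp']; exact mul_dvd_mul_left _ ha
      · rw [hz1]; exact mul_dvd_mul_left _ hb
      · rw [hz2]; exact mul_dvd_mul_left _ hc
      · rw [hz3]; exact mul_dvd_mul_left _ hd
    have h5 : (l : ℤ) ∣ 1 := by
      have h6 : (G : ℤ) * l ∣ (G : ℤ) * 1 := by rwa [mul_one]
      exact (mul_dvd_mul_iff_left hG0).mp h6
    have h7 : l ∣ 1 := by exact_mod_cast h5
    exact hl.one_lt.ne' (Nat.dvd_one.mp h7)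

end Pool.Agent.SMI
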