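import Pool.Agent.SMI.Defs

/-!
# SMI/Rka: a common divisor of `g1, g2, g3` divides `p ^ 2 Δ`

PROOF.  Put `Δ = y1 y2 y3 - p ^ 3`.  If `Δ = 0`, clear.  Otherwise `n ≠ 0` (`m1` with `g = 0` gives
`N1 Δ = 0`).  By `m1`, `n ^ 2 ∣ N1 Δ`.  It is enough that every prime power `l ^ a ∣ n` (`a ≥ 1`)
divides `p ^ 2 Δ` (natAbs and `Nat.dvd_iff_prime_pow_dvd_dvd`, or `Nat.factorization_prime_le_iff_dvd`).

Case `l ∣ D` or `l ∣ G`: `l ^ 2 ∤ N1` (`nn`), `l ^ (2 a) ∣ N1 Δ`, so `l ^ (2 a - 1) ∣ Δ`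
(`N1 = N'` or `N1 = l N'` with `l ∤ N'`), and `a ≤ 2 a - 1`.

Case `l ∤ D`, `l ∤ G`: `l ^ a ∣ N1 Δ`, so by `zz` (both terms on the right are divisible by `n`)
`l ^ a ∣ D (G p) ^ 2 Δ = D G ^ 2 (p ^ 2 Δ)`, and `D G ^ 2` is coprime to `l`, so `l ^ a ∣ p ^ 2 Δ`.
-/

set_option autoImplicit false

namespace Pool.Agent.SMI

theorem rka (D G N1 N2 N3 : ℕ) (p xp y1 y2 y3 g1 g2 g3 : ℤ) (hN : 1 ≤ N1) (hG : 1 ≤ G)
    (zz : (3 * ((N1 : ℤ) * N2 * N3) - (D : ℤ) * (G * p) ^ 2) * (y1 * y2 * y3 - p ^ 3) =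
      xp * ((N1 : ℤ) * g1 * y2 * y3 + (N2 : ℤ) * g2 * y3 * y1 + (N3 : ℤ) * g3 * y1 * y2) -
      ((N1 : ℤ) * N2 * g1 * g2 * y3 + (N2 : ℤ) * N3 * g2 * g3 * y1 +
        (N3 : ℤ) * N1 * g3 * g1 * y2))
    (m1 : (N1 : ℤ) * (y1 * y2 * y3 - p ^ 3) = y1 * g2 * g3 - p * g1 ^ 2)
    (nn : ∀ l : ℕ, l.Prime → (l ∣ D ∨ l ∣ G) → ¬ l ^ 2 ∣ N1)
    (n : ℤ) (h1 : n ∣ g1) (h2 : n ∣ g2) (h3 : n ∣ g3) :
    n ∣ p ^ 2 * (y1 * y2 * y3 - p ^ 3) := by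
  set E : ℤ := y1 * y2 * y3 - p ^ 3 with hE
  rw [← Int.natAbs_dvd_natAbs, Nat.dvd_iff_prime_pow_dvd_dvd]
  intro l k hl hk
  have hkn : ((l : ℤ) ^ k) ∣ n := by
    have : ((l ^ k : ℕ) : ℤ) ∣ n := Int.natCast_dvd.mpr hk
    simpa using this
  suffices hh : ((l : ℤ) ^ k) ∣ p ^ 2 * E by
    have : ((l ^ k : ℕ) : ℤ) ∣ p ^ 2 * E := by simpa using hh
    exact Int.natCast_dvd.mp this
  have hlp : Prime (l : ℤ) := Nat.prime_iff_prime_int.mp hl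
  obtain ⟨c1, hc1⟩ := hkn.trans h1
  obtain ⟨c2, hc2⟩ := hkn.trans h2
  obtain ⟨c3, hc3⟩ := hkn.trans h3
  have hNE : ((l : ℤ) ^ k * (l : ℤ) ^ k) ∣ (N1 : ℤ) * E := by
    rw [m1, hc1, hc2, hc3]
    exact ⟨y1 * c2 * c3 - p * c1 ^ 2, by ring⟩
  by_cases hDG : l ∣ D ∨ l ∣ G
  · have hn2 := nn l hl hDG
    rcases Nat.eq_zero_or_pos k with hk0 | hkp
    · subst hk0; simp
    refine Dvd.dvd.mul_left ?_ _
    by_cases hlN : l ∣ N1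
    · obtain ⟨N', hN'⟩ := hlN
      have hlN' : ¬ l ∣ N' := by
        rintro ⟨t, ht⟩
        exact hn2 ⟨t, by rw [hN', ht]; ring⟩
      have hc : IsCoprime ((l : ℤ) ^ k) (N' : ℤ) :=
        IsCoprime.pow_left (Nat.isCoprime_iff_coprime.mpr ((Nat.Prime.coprime_iff_not_dvd hl).mpr hlN'))
      obtain ⟨m, rfl⟩ : ∃ m, k = m + 1 := ⟨k - 1, by omega⟩
      have h5 : ((l : ℤ) ^ (m + 1) * (l : ℤ) ^ m) * (l : ℤ) ∣ ((N' : ℤ) * E) * (l : ℤ) := by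
        have h6 : ((N' : ℤ) * E) * (l : ℤ) = (N1 : ℤ) * E := by
          rw [hN']; push_cast; ring
        rw [h6]
        have h7 : ((l : ℤ) ^ (m + 1) * (l : ℤ) ^ m) * (l : ℤ) = (l : ℤ) ^ (m + 1) * (l : ℤ) ^ (m + 1) := by
          ring
        rw [h7]; exact hNE
      have h8 : (l : ℤ) ^ (m + 1) * (l : ℤ) ^ m ∣ (N' : ℤ) * E :=
        (mul_dvd_mul_iff_right hlp.ne_zero).mp h5
      have h9 : (l : ℤ) ^ (m + 1) ∣ (N' : ℤ) * E := (Dvd.intro _ rfl).trans h8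
      exact hc.dvd_of_dvd_mul_left h9
    · have hc : IsCoprime ((l : ℤ) ^ k) (N1 : ℤ) :=
        IsCoprime.pow_left (Nat.isCoprime_iff_coprime.mpr ((Nat.Prime.coprime_iff_not_dvd hl).mpr hlN))
      exact hc.dvd_of_dvd_mul_left ((Dvd.intro _ rfl).trans hNE)
  · push Not at hDG
    have hc : IsCoprime ((l : ℤ) ^ k) ((D : ℤ) * (G : ℤ) ^ 2) := by
      apply IsCoprime.pow_left
      apply IsCoprime.mul_right
      · exact Nat.isCoprime_iff_coprime.mpr ((Nat.Prime.coprime_iff_not_dvd hl).mpr hDG.1)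
      · exact IsCoprime.pow_right
          (Nat.isCoprime_iff_coprime.mpr ((Nat.Prime.coprime_iff_not_dvd hl).mpr hDG.2))
    have hNE' : (l : ℤ) ^ k ∣ (N1 : ℤ) * E := (Dvd.intro _ rfl).trans hNE
    obtain ⟨e, he⟩ := hNE'
    have h10 : (l : ℤ) ^ k ∣ ((D : ℤ) * (G : ℤ) ^ 2) * (p ^ 2 * E) := by
      have h11 : ((D : ℤ) * (G : ℤ) ^ 2) * (p ^ 2 * E) =
          3 * (N2 : ℤ) * N3 * ((N1 : ℤ) * E) - (3 * ((N1 : ℤ) * N2 * N3) - (D : ℤ) * (G * p) ^ 2) * E := by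
        ring
      rw [h11, zz, he, hc1, hc2, hc3]
      exact ⟨3 * (N2 : ℤ) * N3 * e - (xp * ((N1 : ℤ) * c1 * y2 * y3 + (N2 : ℤ) * c2 * y3 * y1 +
        (N3 : ℤ) * c3 * y1 * y2) - ((N1 : ℤ) * N2 * c1 * ((l : ℤ) ^ k * c2) * y3 +
        (N2 : ℤ) * N3 * c2 * ((l : ℤ) ^ k * c3) * y1 + (N3 : ℤ) * N1 * c3 * ((l : ℤ) ^ k * c1) * y2)), by
          ring⟩
    exact hc.dvd_of_dvd_mul_left h10

end Pool.Agent.SMI
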