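import Pool.Agent.SMI.Defs

/-!
# SMI/Rlo: a prime dividing `p, y1, y2`, not `y3`

PROOF.  Let `r` be the exponent of `l` in `G` (`l ^ r ∣ G`, `¬ l ^ (r + 1) ∣ G`).  Then
`l ^ (r + 1)` divides `G p`, `G y1`, `G y2`, not `G y3` (`l ∤ y3`: e.g.
`IsCoprime.dvd_of_dvd_mul_right` with `IsCoprime (l ^ (r + 1)) y3`), so by `lo` `r = 0`, so `l ∤ G`, and
`l ^ 2 ∤ y1`, `l ^ 2 ∤ y2`; `l ∣ G gᵢ` gives `l ∣ gᵢ`.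
If `l ^ 3 ∣ y1 y2 y3 - p ^ 3` then (`l ^ 3 ∣ p ^ 3`) `l ^ 3 ∣ y1 y2 y3`, `l ^ 3 ∣ y1 y2` (`l ∤ y3`);
write `y1 = l a`, `y2 = l b`: `l ∣ a b`, so `l ∣ a` or `l ∣ b`, so `l ^ 2 ∣ y1` or `l ^ 2 ∣ y2`: a contradiction.
-/

set_option autoImplicit false

namespace Pool.Agent.SMI

theorem rlo (G : ℕ) (hG : 1 ≤ G) (p y1 y2 y3 g1 g2 g3 : ℤ)
    (lo : ∀ (l r : ℕ), l.Prime → (l : ℤ) ^ (r + 1) ∣ G * p → (l : ℤ) ^ (r + 1) ∣ G * y1 →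
      (l : ℤ) ^ (r + 1) ∣ G * y2 → ¬ (l : ℤ) ^ (r + 1) ∣ G * y3 →
      r = 0 ∧ ¬ (l : ℤ) ^ 2 ∣ G * y1 ∧ ¬ (l : ℤ) ^ 2 ∣ G * y2 ∧
      (l : ℤ) ∣ G * g1 ∧ (l : ℤ) ∣ G * g2 ∧ (l : ℤ) ∣ G * g3)
    (l : ℕ) (hl : l.Prime) (hp : (l : ℤ) ∣ p) (h1 : (l : ℤ) ∣ y1) (h2 : (l : ℤ) ∣ y2)
    (h3 : ¬ (l : ℤ) ∣ y3) :
    (l : ℤ) ∣ g1 ∧ (l : ℤ) ∣ g2 ∧ (l : ℤ) ∣ g3 ∧ ¬ (l : ℤ) ^ 3 ∣ y1 * y2 * y3 - p ^ 3 := by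
  have hpr : Prime (l : ℤ) := Nat.prime_iff_prime_int.mp hl
  have hl0 : (l : ℤ) ≠ 0 := hpr.ne_zero
  obtain ⟨r, m, hm, hGm⟩ := Nat.exists_eq_pow_mul_and_not_dvd (n := G) (by omega) l hl.ne_one
  have hmz : ¬ (l : ℤ) ∣ (m : ℤ) := by
    rw [Int.natCast_dvd_natCast]
    exact hm
  have hGz : (G : ℤ) = (l : ℤ) ^ r * m := by
    rw [hGm]
    push_cast
    ring
  have hd : ∀ z : ℤ, (l : ℤ) ∣ z → (l : ℤ) ^ (r + 1) ∣ G * z := by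
    rintro z ⟨k, rfl⟩
    rw [hGz]
    exact ⟨m * k, by ring⟩
  have hn3 : ¬ (l : ℤ) ^ (r + 1) ∣ G * y3 := by
    intro h
    rw [hGz, pow_succ, mul_assoc] at h
    have h4 : (l : ℤ) ∣ m * y3 := (mul_dvd_mul_iff_left (pow_ne_zero r hl0)).mp h
    rcases hpr.dvd_or_dvd h4 with h5 | h5
    · exact hmz h5
    · exact h3 h5
  obtain ⟨hr, hy1, hy2, hg1, hg2, hg3⟩ := lo l r hl (hd p hp) (hd y1 h1) (hd y2 h2) hn3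
  subst hr
  have hG' : (G : ℤ) = m := by rw [hGz, pow_zero, one_mul]
  have hGl : ¬ (l : ℤ) ∣ (G : ℤ) := by rw [hG']; exact hmz
  have hc : ∀ z : ℤ, (l : ℤ) ∣ G * z → (l : ℤ) ∣ z := fun z hz =>
    (hpr.dvd_or_dvd hz).resolve_left hGl
  refine ⟨hc _ hg1, hc _ hg2, hc _ hg3, ?_⟩
  intro h
  have hp3 : (l : ℤ) ^ 3 ∣ p ^ 3 := pow_dvd_pow_of_dvd hp 3
  have h5 : (l : ℤ) ^ 3 ∣ y1 * y2 * y3 := by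
    have h6 := dvd_add h hp3
    rwa [sub_add_cancel] at h6
  have hcop : IsCoprime ((l : ℤ) ^ 3) y3 :=
    IsCoprime.pow_left ((Prime.coprime_iff_not_dvd hpr).mpr h3)
  have h6 : (l : ℤ) ^ 3 ∣ y1 * y2 := hcop.dvd_of_dvd_mul_right h5
  obtain ⟨a, ha⟩ := h1
  obtain ⟨b, hb⟩ := h2
  rw [ha, hb] at h6
  have h7 : (l : ℤ) ^ 2 * l ∣ (l : ℤ) ^ 2 * (a * b) := by
    have e1 : (l : ℤ) ^ 2 * l = (l : ℤ) ^ 3 := by ring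
    have e2 : (l : ℤ) ^ 2 * (a * b) = (l : ℤ) * a * ((l : ℤ) * b) := by ring
    rw [e1, e2]
    exact h6
  have h8 : (l : ℤ) ∣ a * b := (mul_dvd_mul_iff_left (pow_ne_zero 2 hl0)).mp h7
  rcases hpr.dvd_or_dvd h8 with ⟨c, hc1⟩ | ⟨c, hc1⟩
  · apply hy1
    rw [ha, hc1]
    exact ⟨G * c, by ring⟩
  · apply hy2
    rw [hb, hc1]
    exact ⟨G * c, by ring⟩

end Pool.Agent.SMI
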