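import Pool.Agent.SMI.Defs

/-!
# SMI/Rst: two of the three numbers `|gᵢ| / √Nᵢ` are comparable

PROOF.  `|r2| ≤ 2 N2 √N3 √N1`, `|r3| ≤ 2 N3 √N1 √N2` (`Real.abs_le_sqrt` or `abs_le_of_sq_le_sq`), so by `rel`
`2 N2 N3 |g1| ≤ |r2| |g3| + |r3| |g2| ≤ 2 N2 √N3 √N1 |g3| + 2 N3 √N1 √N2 |g2|`.
With `aᵢ = √Nᵢ > 0`, `Nᵢ = aᵢ ^ 2` divide by `2 a1 a2^2 a3^2`: `|g1| / a1 ≤ |g3| / a3 + |g2| / a2`.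
-/

set_option autoImplicit false

namespace Pool.Agent.SMI

theorem rst (N1 N2 N3 : ℕ) (g1 g2 g3 r2 r3 : ℤ) (h1 : 1 ≤ N1) (h2 : 1 ≤ N2) (h3 : 1 ≤ N3)
    (rel : -2 * ((N2 : ℤ) * N3 * g1) = r2 * g3 + r3 * g2)
    (n2 : r2 ^ 2 ≤ 4 * ((N2 : ℤ) ^ 2 * N3 * N1)) (n3 : r3 ^ 2 ≤ 4 * ((N3 : ℤ) ^ 2 * N1 * N2)) :
    |(g1 : ℝ)| / √(N1 : ℝ) ≤ |(g2 : ℝ)| / √(N2 : ℝ) + |(g3 : ℝ)| / √(N3 : ℝ) := by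
  have p1 : (0 : ℝ) < N1 := by exact_mod_cast h1
  have p2 : (0 : ℝ) < N2 := by exact_mod_cast h2
  have p3 : (0 : ℝ) < N3 := by exact_mod_cast h3
  set a1 := √(N1 : ℝ) with ha1
  set a2 := √(N2 : ℝ) with ha2
  set a3 := √(N3 : ℝ) with ha3
  have q1 : 0 < a1 := Real.sqrt_pos.mpr p1
  have q2 : 0 < a2 := Real.sqrt_pos.mpr p2
  have q3 : 0 < a3 := Real.sqrt_pos.mpr p3
  have s1 : (N1 : ℝ) = a1 ^ 2 := (Real.sq_sqrt p1.le).symm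
  have s2 : (N2 : ℝ) = a2 ^ 2 := (Real.sq_sqrt p2.le).symm
  have s3 : (N3 : ℝ) = a3 ^ 2 := (Real.sq_sqrt p3.le).symm
  have n2' : (r2 : ℝ) ^ 2 ≤ 4 * ((N2 : ℝ) ^ 2 * N3 * N1) := by exact_mod_cast n2
  have n3' : (r3 : ℝ) ^ 2 ≤ 4 * ((N3 : ℝ) ^ 2 * N1 * N2) := by exact_mod_cast n3
  have rel' : -2 * ((N2 : ℝ) * N3 * g1) = r2 * g3 + r3 * g2 := by exact_mod_cast rel
  have b2 : |(r2 : ℝ)| ≤ 2 * a2 ^ 2 * a3 * a1 := by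
    refine abs_le_of_sq_le_sq ?_ (by positivity)
    rw [s1, s2, s3] at n2'
    calc (r2 : ℝ) ^ 2 ≤ 4 * ((a2 ^ 2) ^ 2 * a3 ^ 2 * a1 ^ 2) := n2'
      _ = (2 * a2 ^ 2 * a3 * a1) ^ 2 := by ring
  have b3 : |(r3 : ℝ)| ≤ 2 * a3 ^ 2 * a1 * a2 := by
    refine abs_le_of_sq_le_sq ?_ (by positivity)
    rw [s1, s2, s3] at n3'
    calc (r3 : ℝ) ^ 2 ≤ 4 * ((a3 ^ 2) ^ 2 * a1 ^ 2 * a2 ^ 2) := n3'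
      _ = (2 * a3 ^ 2 * a1 * a2) ^ 2 := by ring
  have c1 : 2 * a2 ^ 2 * a3 ^ 2 * |(g1 : ℝ)| ≤ |(r2 : ℝ)| * |(g3 : ℝ)| + |(r3 : ℝ)| * |(g2 : ℝ)| := by
    have e : 2 * a2 ^ 2 * a3 ^ 2 * |(g1 : ℝ)| = |(r2 : ℝ) * g3 + r3 * g2| := by
      rw [← rel', s2, s3, abs_mul, abs_mul, abs_mul, abs_neg, abs_of_pos (by norm_num : (0:ℝ) < 2),
        abs_of_pos (by positivity : (0:ℝ) < a2 ^ 2), abs_of_pos (by positivity : (0:ℝ) < a3 ^ 2)]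
      ring
    rw [e, ← abs_mul, ← abs_mul]
    exact abs_add_le _ _
  have c2 : |(r2 : ℝ)| * |(g3 : ℝ)| ≤ 2 * a2 ^ 2 * a3 * a1 * |(g3 : ℝ)| :=
    mul_le_mul_of_nonneg_right b2 (abs_nonneg _)
  have c3 : |(r3 : ℝ)| * |(g2 : ℝ)| ≤ 2 * a3 ^ 2 * a1 * a2 * |(g2 : ℝ)| :=
    mul_le_mul_of_nonneg_right b3 (abs_nonneg _)
  rw [div_add_div _ _ q2.ne' q3.ne', div_le_div_iff₀ q1 (mul_pos q2 q3)]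
  have c4 : (2 * a2 * a3) * (|(g1 : ℝ)| * (a2 * a3))
      ≤ (2 * a2 * a3) * ((|(g2 : ℝ)| * a3 + a2 * |(g3 : ℝ)|) * a1) := by
    calc (2 * a2 * a3) * (|(g1 : ℝ)| * (a2 * a3)) = 2 * a2 ^ 2 * a3 ^ 2 * |(g1 : ℝ)| := by ring
      _ ≤ 2 * a2 ^ 2 * a3 * a1 * |(g3 : ℝ)| + 2 * a3 ^ 2 * a1 * a2 * |(g2 : ℝ)| := by linarith
      _ = (2 * a2 * a3) * ((|(g2 : ℝ)| * a3 + a2 * |(g3 : ℝ)|) * a1) := by ring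
  exact le_of_mul_le_mul_left c4 (by positivity)

end Pool.Agent.SMI
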