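import Pool.Agent.SMI.Defs
import Pool.Agent.SMI.Rst

/-!
# SMI/Rt1: from `U1` to `T1`

The integers of `U1` are `G` times those of `T1`, and `D` is replaced by `G ^ 2 D`.
PROOF.  `hN`, `cr`, `lb`: the same up to casts (`|G g1| = G |g1|`, `push_cast`, `abs_mul`).
`hy`: `G y1 ≠ 0`.  `hi`: `h.mm` is `G ^ 3` times the claim (`mul_left_cancel₀`).
`sy`: `4 N1 ^ 3 = x1 ^ 2 + D (G y1) ^ 2`.  `sg`: `h.ng` in the same way.  `sN`: `(G N1) ^ 2 ≤ G ^ 2 D`.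
`st`: `rst` (cancel `G` in `h.rel3`).  `gc`: `n ∣ p`, `n ∣ y1` gives `G n ∣ G p, G y1`, so
`G n ∣ G g1` by `h.gc`, so `n ∣ g1`.
-/

set_option autoImplicit false

namespace Pool.Agent.SMI

open Pool.Agent.SMQ

theorem rt1 (D G N1 N2 N3 N4 : ℕ) (p xp x1 x2 x3 y1 y2 y3 g1 g2 g3 r1 r2 r3 : ℤ)
    (a1 a2 a3 b1 b2 b3 : ℤ) (hG : 1 ≤ G) (h2 : 1 ≤ N2) (h3 : 1 ≤ N3)
    (h : U1 D N1 N2 N3 N4 (G * p) xp x1 x2 x3 (G * y1) (G * y2) (G * y3)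
      (G * g1) (G * g2) (G * g3) r1 r2 r3 a1 a2 a3 b1 b2 b3)
    (n2 : r2 ^ 2 ≤ 4 * ((N2 : ℤ) ^ 2 * N3 * N1)) (n3 : r3 ^ 2 ≤ 4 * ((N3 : ℤ) ^ 2 * N1 * N2)) :
    T1 (G ^ 2 * D) G p y1 y2 y3 g1 g2 g3 N1 N2 N3 N4 a1 a2 a3 b1 b2 b3 := by
  have hG0 : (G : ℤ) ≠ 0 := by
    have : G ≠ 0 := by omega
    exact_mod_cast this
  refine
    { hN := h.hN
      hy := ?_
      hi := ?_
      sy := ?_
      sg := ?_
      sN := ?_
      st := ?_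
      gc := ?_
      cr := h.cr
      lb := ?_ }
  · intro h0
    apply h.hy
    rw [h0, mul_zero]
  · have hm := h.mm
    have e : (G : ℤ) ^ 3 * ((N1 : ℤ) * (y1 * y2 * y3 - p ^ 3)) =
        (G : ℤ) ^ 3 * (y1 * g2 * g3 - p * g1 ^ 2) := by
      linear_combination hm
    exact mul_left_cancel₀ (pow_ne_zero 3 hG0) e
  · have hn := h.ny
    push_cast
    nlinarith [sq_nonneg x1]
  · have hn := h.ng
    push_cast
    nlinarith [sq_nonneg r1]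
  · rw [mul_pow]
    exact Nat.mul_le_mul_left _ h.hD
  · refine rst N1 N2 N3 g1 g2 g3 r2 r3 h.hN h2 h3 ?_ n2 n3
    have hr := h.rel3
    have e : (G : ℤ) * (-2 * ((N2 : ℤ) * N3 * g1)) = (G : ℤ) * (r2 * g3 + r3 * g2) := by
      linear_combination hr
    exact mul_left_cancel₀ hG0 e
  · intro n hnp hny
    have h5 := h.gc ((G : ℤ) * n) (mul_dvd_mul_left _ hnp) (mul_dvd_mul_left _ hny)
    exact (mul_dvd_mul_iff_left hG0).1 h5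
  · intro s t hst
    have h5 := h.lb s t hst
    have e : |(((G : ℤ) * g1 : ℤ) : ℝ)| = (G : ℝ) * |(g1 : ℝ)| := by
      push_cast
      rw [abs_mul, Nat.abs_cast]
    rw [e] at h5
    exact h5

end Pool.Agent.SMI
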