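import Mathlib

/-!
# SMI/FaR: surjections onto a group of order 9 and the 3-torsion
-/

set_option autoImplicit false

namespace Pool.Agent.SMI

private theorem faR_gen (P : Type*) [CommGroup P] [Finite P]
    (H : Type*) [CommGroup H] (hH : Nat.card H = 3) :
    ∃ F : (P →* H) → {x : P // x ^ 3 = 1}, Function.Injective F := by
  have : Fact (Nat.Prime 3) := ⟨Nat.prime_three⟩
  have hne : NeZero 3 := ⟨by norm_num⟩
  have hc : Nat.card (rootsOfUnity 3 ℂ) = 3 := Complex.card_rootsOfUnity 3
  let e : H ≃* rootsOfUnity 3 ℂ := mulEquivOfPrimeCardEq hH hc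
  let ι : H →* ℂˣ := (rootsOfUnity 3 ℂ).subtype.comp e.toMonoidHom
  have hι : Function.Injective ι := by
    intro a b hab
    exact e.injective (Subtype.ext hab)
  obtain ⟨E⟩ := CommGroup.monoidHom_mulEquiv_of_hasEnoughRootsOfUnity P ℂ
  refine ⟨fun f => ⟨E (ι.comp f), ?_⟩, fun f g hfg => ?_⟩
  · rw [← map_pow]
    have : (ι.comp f) ^ 3 = 1 := by
      ext x
      have h1 : (f x) ^ 3 = 1 := by rw [← hH]; exact pow_card_eq_one'
      have h2 : (ι (f x)) ^ 3 = 1 := by rw [← map_pow, h1, map_one]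
      rw [MonoidHom.pow_apply, MonoidHom.comp_apply, h2]
      rfl
    rw [this, map_one]
  · have h1 : ι.comp f = ι.comp g := E.injective (congrArg Subtype.val hfg)
    ext x
    exact hι (DFunLike.congr_fun h1 x)

/-- homomorphisms to a group of order 9 -/
theorem faR_hom (P : Type*) [CommGroup P] [Finite P] (H : Type*) [CommGroup H]
    (hH : Nat.card H = 9) :
    ∃ F : (P →* H) → {x : P // x ^ 3 = 1} × {x : P // x ^ 3 = 1}, Function.Injective F := by
  classical
  have hf : Finite H := Nat.finite_of_card_ne_zero (by rw [hH]; norm_num)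
  have : Fact (Nat.Prime 3) := ⟨Nat.prime_three⟩
  obtain ⟨x, hx⟩ := exists_prime_orderOf_dvd_card' (G := H) 3 (by rw [hH]; norm_num)
  let N : Subgroup H := Subgroup.zpowers x
  have hN : Nat.card N = 3 := by rw [Nat.card_zpowers, hx]
  have hQ : Nat.card (H ⧸ N) = 3 := by
    have h1 := Subgroup.card_eq_card_quotient_mul_card_subgroup N
    rw [hH, hN] at h1
    omega
  obtain ⟨F1, hF1⟩ := faR_gen P (H ⧸ N) hQ
  obtain ⟨F2, hF2⟩ := faR_gen P N hN
  let π : (P →* H) → (P →* H ⧸ N) := fun g => (QuotientGroup.mk' N).comp g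
  let b : (P →* H ⧸ N) → (P →* H) := Function.invFun π
  have hb : ∀ f, π (b (π f)) = π f := fun f => Function.invFun_eq ⟨f, rfl⟩
  have hm : ∀ f : P →* H, ∀ x, (f / b (π f)) x ∈ N := by
    intro f x
    have h1 := DFunLike.congr_fun (hb f) x
    have h2 : ((b (π f) x : H) : H ⧸ N) = ((f x : H) : H ⧸ N) := h1
    rw [MonoidHom.div_apply, div_eq_mul_inv, mul_comm]
    exact (QuotientGroup.eq).1 h2
  refine ⟨fun f => (F1 (π f), F2 ((f / b (π f)).codRestrict N (hm f))), ?_⟩
  intro f f' hff
  have e1 : π f = π f' := hF1 (Prod.ext_iff.1 hff).1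
  have e2 := hF2 (Prod.ext_iff.1 hff).2
  ext x
  have e3 := congrArg Subtype.val (DFunLike.congr_fun e2 x)
  have e4 : f x / b (π f) x = f' x / b (π f') x := e3
  rw [e1] at e4
  exact div_left_injective e4

theorem faR (G : Type*) [CommGroup G] [Finite G] (H : Type*) [CommGroup H]
    (hH : Nat.card H = 9) :
    Nat.card {f : ↥(Subgroup.closure {g : G | ∃ n : ℕ, g ^ (3 ^ n) = 1}) →* H //
      Function.Surjective f} ≤ (Nat.card {c : G // c ^ 3 = 1}) ^ 2 := by
  obtain ⟨F, hF⟩ := faR_hom ↥(Subgroup.closure {g : G | ∃ n : ℕ, g ^ (3 ^ n) = 1}) H hH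
  have h := Nat.card_le_card_of_injective
    (fun f : {f : ↥(Subgroup.closure {g : G | ∃ n : ℕ, g ^ (3 ^ n) = 1}) →* H //
      Function.Surjective f} => ((⟨((F f.1).1.1 : G), by
        have := (F f.1).1.2
        exact_mod_cast congrArg Subtype.val this⟩, ⟨((F f.1).2.1 : G), by
        have := (F f.1).2.2
        exact_mod_cast congrArg Subtype.val this⟩) :
        {c : G // c ^ 3 = 1} × {c : G // c ^ 3 = 1})) (by
      intro f g hfg
      have h0 := Prod.ext_iff.1 hfg
      have h1 := congrArg Subtype.val h0.1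
      have h2 := congrArg Subtype.val h0.2
      apply Subtype.ext
      apply hF
      exact Prod.ext (Subtype.ext (Subtype.ext h1)) (Subtype.ext (Subtype.ext h2)))
  rw [Nat.card_prod] at h
  rw [pow_two]
  exact h

end Pool.Agent.SMI
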