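import Pool.Agent.SMI.FaK
import Pool.Agent.SMI.FaR
import Pool.Agent.FML.CaM
import Pool.Agent.FTL.LNc
import Pool.Agent.FTA.Main

/-!
# SMI/FaM: the final assembly
-/

set_option autoImplicit false

namespace Pool.Agent.SMI

open NumberField Pool.Agent.FTA Pool.Agent.FTL nonZeroDivisors

/-- surjections onto a group of order 9 and the square of the 3-torsion, summed over the fields -/
theorem faM_sur (n : ℕ) (H : Type) [CommGroup H] (hH : Nat.card H = 9) :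
    ∑ᶠ K ∈ IQ n, (Nat.card {f : ↥(Subgroup.closure
      {g : ClassGroup (𝓞 K) | ∃ n : ℕ, g ^ (3 ^ n) = 1}) →* H // Function.Surjective f} : ℝ) ≤
    ∑ᶠ K ∈ IQ n, (Nat.card {c : ClassGroup (𝓞 K) // c ^ 3 = 1} : ℝ) ^ 2 := by
  rw [finsum_mem_eq_finite_toFinset_sum _ (famFin _), finsum_mem_eq_finite_toFinset_sum _
    (famFin _)]
  apply Finset.sum_le_sum
  intro K hK
  rw [Set.Finite.mem_toFinset] at hK
  obtain ⟨hN, -⟩ := hK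
  have h := faR (ClassGroup (𝓞 K)) H hH
  exact_mod_cast h

theorem faM (ε : ℝ) (hε : 0 < ε) : ∃ X0 : ℝ, ∀ X : ℝ, X0 ≤ X → 0 ≤ X ∧
    (∑ᶠ K ∈ IQ ⌊X⌋₊, (Nat.card {c : ClassGroup (𝓞 K) // c ^ 3 = 1} : ℝ) ^ 2) /
      (IQ ⌊X⌋₊).ncard ≤ X ^ ε ∧
    (∀ (H : Type) [CommGroup H], Nat.card H = 9 →
      (∑ᶠ K ∈ IQ ⌊X⌋₊, (Nat.card {f : ↥(Subgroup.closure
        {g : ClassGroup (𝓞 K) | ∃ n : ℕ, g ^ (3 ^ n) = 1}) →* H //
          Function.Surjective f} : ℝ)) / (IQ ⌊X⌋₊).ncard ≤ X ^ ε) ∧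
    X ^ (1 - ε) ≤ (({K ∈ IQ ⌊X⌋₊ | 3 ∣ Nat.card (ClassGroup (𝓞 K))}).ncard : ℝ) := by
  obtain ⟨C, hC0, hC⟩ := mai (ε / 2) (by positivity)
  obtain ⟨X1, hX1⟩ := Pool.Agent.FML.caM (fun ε hε => by
    obtain ⟨C, -, hC⟩ := mai ε hε
    exact ⟨C, hC⟩) ε hε
  obtain ⟨X2, hX2⟩ := Filter.eventually_atTop.1
    ((tendsto_rpow_atTop (half_pos hε)).eventually_ge_atTop (32 * C))
  refine ⟨max (max X1 X2) (10 ^ 5), ?_⟩
  intro X hX
  have hXa : X1 ≤ X := (le_max_left _ _).trans ((le_max_left _ _).trans hX)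
  have hXb : X2 ≤ X := (le_max_right _ _).trans ((le_max_left _ _).trans hX)
  have hXc : (10 : ℝ) ^ 5 ≤ X := (le_max_right _ _).trans hX
  have hX0 : (0 : ℝ) < X := by linarith [show (0 : ℝ) < 10 ^ 5 by norm_num]
  have hX1' : (1 : ℝ) ≤ X := by linarith
  have hup := hC X hX1'
  have h32 : 32 * C ≤ X ^ (ε / 2) := hX2 X hXb
  have hfl : X / 2 ≤ (⌊X⌋₊ : ℝ) := by
    have := Nat.lt_floor_add_one X
    linarith
  have hN1 : X / 32 ≤ ((IQ ⌊X⌋₊).ncard : ℝ) := by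
    have h := lnc ⌊X⌋₊ (by
      apply Nat.le_floor
      push_cast
      linarith)
    linarith
  have hN0 : (0 : ℝ) < ((IQ ⌊X⌋₊).ncard : ℝ) := by linarith
  have hpow : X ^ (ε / 2) * X ^ (1 + ε / 2) = X * X ^ ε := by
    rw [← Real.rpow_add hX0, show ε / 2 + (1 + ε / 2) = 1 + ε by ring, Real.rpow_add hX0,
      Real.rpow_one]
  have hP : 0 < X ^ (1 + ε / 2) := Real.rpow_pos_of_pos hX0 _
  have hup2 : 32 * (C * X ^ (1 + ε / 2)) ≤ X * X ^ ε := by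
    rw [← hpow]
    nlinarith [mul_le_mul_of_nonneg_right h32 hP.le]
  have h1 : X ^ ε * (X / 32) ≤ X ^ ε * ((IQ ⌊X⌋₊).ncard : ℝ) :=
    mul_le_mul_of_nonneg_left hN1 (Real.rpow_nonneg hX0.le _)
  have hA : (∑ᶠ K ∈ IQ ⌊X⌋₊, (Nat.card {c : ClassGroup (𝓞 K) // c ^ 3 = 1} : ℝ) ^ 2) ≤
      X ^ ε * ((IQ ⌊X⌋₊).ncard : ℝ) := by
    nlinarith [h1, hup, hup2]
  refine ⟨hX0.le, ?_, ?_, hX1 X hXa⟩
  · rw [div_le_iff₀ hN0]
    exact hA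
  · intro H _ hH
    rw [div_le_iff₀ hN0]
    exact (faM_sur _ H hH).trans hA

end Pool.Agent.SMI
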