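import Pool.Agent.SMI.Vdx
import Pool.Agent.SMI.Rti

/-!
# SMI/Rfi: from the integers of a triple to the witness

PROOF.  `h.uq` gives `Uq (aD K) …`; `rti` gives `G`, `p'`, `y'`, `g'` and `Tri (G ^ 2 * aD K) G p' y' g' …`.
`Cn`: `D := G ^ 2 * aD K ≤ G ^ 2 * X`.
`G ≤ 2 X`: with `D = aD K`, `y.1 = G y'.1 ≠ 0`, so `D G ^ 2 ≤ D y.1 ^ 2 ≤ 4 N1 ^ 3` (`e1.ny`), `N1 ^ 2 ≤ D`,
so `D ^ 2 G ^ 4 ≤ 16 N1 ^ 6 ≤ 16 D ^ 3`, `G ^ 4 ≤ 16 D ≤ (2 D) ^ 4`, `G ≤ 2 D ≤ 2 X` (`D ≥ 1`).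
`Wit`: `I := I1`, `J := I2`, `α`, `β` from `h.s1`, `h.s2`, `N1 := N.1`, `x1 := x.1`, `x2 := x.2.1`;
the last four equations are `e1.mm` divided by `G ^ 3` (or `T1.hi` of the `Tri`), `e1.ny`, and `e1.xx`,
`e2.xx` divided by `G ^ 6` (`G ≠ 0`; `De (G p') (G y') = G ^ 3 De p' y'`).
-/

set_option autoImplicit false

namespace Pool.Agent.SMI

open NumberField Pool.Agent.FTA Pool.Agent.FTB Pool.Agent.SMQ nonZeroDivisors

theorem rfi (K : IntermediateField ℚ ℂ) [NumberField K] (X : ℕ) (hX : aD K ≤ X)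
    (I1 I2 I3 : (Ideal (𝓞 K))⁰) (N : ℕ × ℕ × ℕ) (N4 : ℕ) (p xp : ℤ) (x y g : V3)
    (h : Dx K I1 I2 I3 N N4 p xp x y g) (hp : p ≠ 0) (hD : De p y ≠ 0) (h4 : N.1 ≤ N4) :
    ∃ (G : ℕ) (p' : ℤ) (y' g' : V3), 1 ≤ G ∧ G ≤ 2 * X ∧
      Wit K (ClassGroup.mk0 I1) (ClassGroup.mk0 I2) G p' y' g' ∧ Cn X G p' y' g' := by
  obtain ⟨sp, s1, s2, s3, r, u, v, hu⟩ := h
  obtain ⟨G, p', y', g', ep, ey1, ey2, ey3, eg1, eg2, eg3, ht⟩ :=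
    rti (aD K) p xp x y g r N N4 u v hu hp hD h4
  obtain ⟨α, hα, hαI⟩ := s1
  obtain ⟨β, hβ, hβJ⟩ := s2
  have hG : 1 ≤ G := ht.hG
  have hG0 : (G : ℤ) ≠ 0 := by exact_mod_cast (by omega : G ≠ 0)
  have hDe : De p y = (G : ℤ) ^ 3 * De p' y' := by
    unfold De
    rw [ep, ey1, ey2, ey3]
    ring
  have hy1 : y'.1 ≠ 0 := ht.t1.hy
  have hny := hu.e1.ny
  have hN2 := hu.e1.hD
  have hN1 := hu.e1.hN
  have hxx := hu.e1.xx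
  have hxx2 := hu.e2.xx
  have hD1 : 1 ≤ aD K := by
    have : 1 ≤ N.1 ^ 2 := Nat.one_le_pow _ _ hN1
    omega
  refine ⟨G, p', y', g', hG, ?_, ?_, ?_⟩
  · have hy2 : 1 ≤ y'.1 ^ 2 := by
      have : 0 < y'.1 ^ 2 := by positivity
      omega
    have h1 : (aD K : ℤ) * (G : ℤ) ^ 2 ≤ 4 * (N.1 : ℤ) ^ 3 := by
      rw [hny, ey1]
      have h2 : (aD K : ℤ) * (G : ℤ) ^ 2 ≤ (aD K : ℤ) * (((G : ℤ) * y'.1) ^ 2) := by
        refine mul_le_mul_of_nonneg_left ?_ (by positivity)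
        rw [mul_pow]
        exact le_mul_of_one_le_right (by positivity) hy2
      nlinarith [sq_nonneg x.1]
    have h1' : aD K * G ^ 2 ≤ 4 * N.1 ^ 3 := by exact_mod_cast h1
    have h2 : (aD K * G ^ 2) ^ 2 ≤ 16 * (aD K) ^ 3 := by
      calc (aD K * G ^ 2) ^ 2 ≤ (4 * N.1 ^ 3) ^ 2 := Nat.pow_le_pow_left h1' 2
        _ = 16 * (N.1 ^ 2) ^ 3 := by ring
        _ ≤ 16 * (aD K) ^ 3 := Nat.mul_le_mul_left _ (Nat.pow_le_pow_left hN2 3)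
    have h3 : G ^ 4 ≤ 16 * aD K := by
      have h4 : (aD K) ^ 2 * G ^ 4 ≤ (aD K) ^ 2 * (16 * aD K) := by
        calc (aD K) ^ 2 * G ^ 4 = (aD K * G ^ 2) ^ 2 := by ring
          _ ≤ 16 * (aD K) ^ 3 := h2
          _ = (aD K) ^ 2 * (16 * aD K) := by ring
      exact Nat.le_of_mul_le_mul_left h4 (by positivity)
    have h5 : G ≤ 2 * aD K := by
      by_contra hlt
      have h6 : (2 * aD K) ^ 4 < G ^ 4 := Nat.pow_lt_pow_left (by omega) (by norm_num)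
      have h7 : 16 * aD K ≤ (2 * aD K) ^ 4 := by
        calc 16 * aD K = 16 * aD K * 1 := by ring
          _ ≤ 16 * aD K * (aD K) ^ 3 := Nat.mul_le_mul_left _ (Nat.one_le_pow _ _ hD1)
          _ = (2 * aD K) ^ 4 := by ring
      omega
    omega
  · refine ⟨I1, I2, α, β, N.1, x.1, x.2.1, rfl, rfl, hαI.symm, hβJ.symm, ?_, ?_, hG, ht.hD, hy1,
      ?_, ?_, ?_, ?_⟩
    · rw [← ey1]
      exact hα
    · rw [← ey2]
      exact hβ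
    · exact ht.t1.hi
    · rw [hny, ey1]
    · have h6 : (G : ℤ) ^ 6 ≠ 0 := pow_ne_zero _ hG0
      refine mul_left_cancel₀ h6 ?_
      unfold De
      rw [ep, ey1, ey2, ey3, eg1, eg2, eg3] at hxx
      linear_combination hxx
    · have h6 : (G : ℤ) ^ 6 ≠ 0 := pow_ne_zero _ hG0
      refine mul_left_cancel₀ h6 ?_
      unfold De
      rw [ep, ey1, ey2, ey3, eg1, eg2, eg3] at hxx2
      linear_combination hxx2
  · exact ⟨G ^ 2 * aD K, N, N4, u, v, Nat.mul_le_mul_left _ hX, ht⟩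

end Pool.Agent.SMI
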