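import Pool.Agent.SMI.Vth
import Pool.Agent.SMI.Rfi
import Pool.Agent.SMI.Vci
import Pool.Agent.SMI.Vpl

/-!
# SMI/Vch: a witness for one of the three pairs

`I` is in the class `A`, `B1, B2, B3` are in the classes `B`, `A B`, `A (A B)`, `Cᵢ` are the conjugates.
PROOF.  `hD : 5 ≤ aD K` from `vu5` (`A ≠ 1`).  `vdx` for the triples `(I, B1, C2)` with the fourth ideal `C3`
(classes `A`, `B`, `(A B)⁻¹`, and `A B⁻¹ = (A (A B))⁻¹` as `A ^ 3 = 1`), `(I, B2, C3)` with the fourth ideal `C1`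
(`A`, `A B`, `(A (A B))⁻¹`; `A (A B)⁻¹ = B⁻¹`), `(I, B3, C1)` with the fourth ideal `C2` (`A`, `A (A B)`, `B⁻¹`,
product `A ^ 3 = 1`; `A (A (A B))⁻¹ = (A B)⁻¹`); `CI K C3 B3 N3` etc. from `vcs`; `Ind A B`, `Ind A (A B)`,
`Ind A (A (A B))` from `vwd` (with the trivial words).  `vth` gives a good triple, `rfi` (with `N ≤ N3`, `N ≤ N1`,
`N ≤ N2`) its witness; `mk0 I = A`.
-/

set_option autoImplicit false

namespace Pool.Agent.SMI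

open NumberField Pool.Agent.FTA Pool.Agent.FTB Pool.Agent.SMQ nonZeroDivisors

theorem vch (K : IntermediateField ℚ ℂ) [NumberField K] (h2 : Module.finrank ℚ K = 2)
    (him : ∃ x : K, (x : ℂ).im ≠ 0) (X : ℕ) (hX : aD K ≤ X) (A B : ClassGroup (𝓞 K))
    (h : Ind A B) (I J B1 B2 B3 C1 C2 C3 : (Ideal (𝓞 K))⁰) (N N1 N2 N3 : ℕ) (c : CI K I J N)
    (c1 : CI K B1 C1 N1) (c2 : CI K B2 C2 N2) (c3 : CI K B3 C3 N3)
    (k : ClassGroup.mk0 I = A) (k1 : ClassGroup.mk0 B1 = B) (k2 : ClassGroup.mk0 B2 = A * B)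
    (k3 : ClassGroup.mk0 B3 = A * (A * B)) (l1 : N ≤ N1) (l2 : N ≤ N2) (l3 : N ≤ N3) :
    ∃ B' : ClassGroup (𝓞 K), (B' = B ∨ B' = A * B ∨ B' = A * (A * B)) ∧
      ∃ (G : ℕ) (p : ℤ) (y g : V3), 1 ≤ G ∧ G ≤ 2 * X ∧ Wit K A B' G p y g ∧ Cn X G p y g := by
  have hD : 5 ≤ aD K := vu5 K h2 him A h.2.2.1
  have hA3 : A ^ 3 = 1 := h.1
  have w0 : ∃ i j k l : Fin 3, A = A ^ (i : ℕ) * B ^ (j : ℕ) ∧ B = A ^ (k : ℕ) * B ^ (l : ℕ) :=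
    ⟨1, 0, 0, 1, by simp, by simp⟩
  obtain ⟨i1, w1⟩ := vwd A B A B h w0
  obtain ⟨i2, -⟩ := vwd A B A (A * B) i1 w1
  have e1 : ClassGroup.mk0 C1 = B⁻¹ := by rw [c1.cJ, k1]
  have e2 : ClassGroup.mk0 C2 = (A * B)⁻¹ := by rw [c2.cJ, k2]
  have e3 : ClassGroup.mk0 C3 = (A * (A * B))⁻¹ := by rw [c3.cJ, k3]
  have hAA : A * A * A = 1 := by rw [← hA3, pow_succ, pow_two]
  have hA' : (A * A)⁻¹ = A := by
    rw [inv_eq_iff_mul_eq_one]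
    exact hAA
  obtain ⟨p, xp, x, y, g, d1⟩ := vdx K h2 him I B1 C2 C3 J C1 B2 B3 N N1 N2 N3 c c1
    (vcs K B2 C2 N2 c2) (vcs K B3 C3 N3 c3) (by rw [k, k1]; exact h)
    (by rw [k, k1, e2, mul_inv_cancel])
    (by rw [e3, k, k1, ← mul_assoc, mul_inv, hA'])
  obtain ⟨p', xp', x', y', g', d2⟩ := vdx K h2 him I B2 C3 C1 J C2 B3 B1 N N2 N3 N1 c c2
    (vcs K B3 C3 N3 c3) (vcs K B1 C1 N1 c1) (by rw [k, k2]; exact i1)
    (by rw [k, k2, e3, mul_inv_cancel])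
    (by rw [e1, k, k2, mul_inv, ← mul_assoc, mul_inv_cancel, one_mul])
  obtain ⟨p'', xp'', x'', y'', g'', d3⟩ := vdx K h2 him I B3 C1 C2 J C3 B1 B2 N N3 N1 N2 c c3
    (vcs K B1 C1 N1 c1) (vcs K B2 C2 N2 c2) (by rw [k, k3]; exact i2)
    (by
      rw [k, k3, e1]
      calc A * (A * (A * B)) * B⁻¹ = A * A * A * (B * B⁻¹) := by
            simp only [mul_assoc]
        _ = 1 := by rw [hAA, mul_inv_cancel, one_mul])
    (by rw [e2, k, k3, mul_inv A (A * B), ← mul_assoc, mul_inv_cancel, one_mul])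
  rcases vth K h2 him hD I B1 B2 B3 C1 C2 C3 N N1 N2 N3 c1 c2 c3 p xp p' xp' p'' xp''
    x y g x' y' g' x'' y'' g'' d1 d2 d3 with ⟨a, b⟩ | ⟨a, b⟩ | ⟨a, b⟩
  · obtain ⟨G, q, z, w, a1, a2, a3, a4⟩ := rfi K X hX I B1 C2 (N, N1, N2) N3 p xp x y g d1 a b l3
    rw [k, k1] at a3
    exact ⟨B, Or.inl rfl, G, q, z, w, a1, a2, a3, a4⟩
  · obtain ⟨G, q, z, w, a1, a2, a3, a4⟩ :=
      rfi K X hX I B2 C3 (N, N2, N3) N1 p' xp' x' y' g' d2 a b l1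
    rw [k, k2] at a3
    exact ⟨A * B, Or.inr (Or.inl rfl), G, q, z, w, a1, a2, a3, a4⟩
  · obtain ⟨G, q, z, w, a1, a2, a3, a4⟩ :=
      rfi K X hX I B3 C1 (N, N3, N1) N2 p'' xp'' x'' y'' g'' d3 a b l2
    rw [k, k3] at a3
    exact ⟨A * (A * B), Or.inr (Or.inr rfl), G, q, z, w, a1, a2, a3, a4⟩

end Pool.Agent.SMI
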