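import Pool.Agent.SMI.Defs
import Pool.Agent.SMI.Vch

/-!
# SMI/Vex: every independent pair of classes of order 3 is a word in a witnessed pair
-/

set_option autoImplicit false

namespace Pool.Agent.SMI

open NumberField Pool.Agent.FTA Pool.Agent.FTB Pool.Agent.SMQ nonZeroDivisors

theorem vex (K : IntermediateField ℚ ℂ) [NumberField K] (h2 : Module.finrank ℚ K = 2)
    (him : ∃ x : K, (x : ℂ).im ≠ 0) (X : ℕ) (hX : aD K ≤ X) (A B : ClassGroup (𝓞 K))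
    (h : Ind A B) :
    ∃ A' B' : ClassGroup (𝓞 K), Ind A' B' ∧
      (∃ i j k l : Fin 3, A = A' ^ (i : ℕ) * B' ^ (j : ℕ) ∧ B = A' ^ (k : ℕ) * B' ^ (l : ℕ)) ∧
      ∃ (G : ℕ) (p : ℤ) (y g : V3), 1 ≤ G ∧ G ≤ 2 * X ∧ Wit K A' B' G p y g ∧ Cn X G p y g := by
  choose I J N hN hC using vci K h2
  have hν : ∀ C : ClassGroup (𝓞 K), N C⁻¹ = N C := by
    intro C
    refine (vcv K (I C) (J C) (I C⁻¹) (J C⁻¹) (N C) (N C⁻¹) (hN C) (hN C⁻¹) ?_).symm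
    rw [hC C, hC C⁻¹]
  obtain ⟨A', B', hI, l1, l2, l3, hw⟩ := vpl N hν A B h
  obtain ⟨B'', hB, hwit⟩ := vch K h2 him X hX A' B' hI (I A') (J A') (I B') (I (A' * B'))
    (I (A' * (A' * B'))) (J B') (J (A' * B')) (J (A' * (A' * B'))) (N A') (N B') (N (A' * B'))
    (N (A' * (A' * B'))) (hN _) (hN _) (hN _) (hN _) (hC _) (hC _) (hC _) (hC _) l1 l2 l3
  obtain ⟨hI1, hw1⟩ := vwd A B A' B' hI hw
  obtain ⟨hI2, hw2⟩ := vwd A B A' (A' * B') hI1 hw1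
  rcases hB with rfl | rfl | rfl
  · exact ⟨A', _, hI, hw, hwit⟩
  · exact ⟨A', _, hI1, hw1, hwit⟩
  · exact ⟨A', _, hI2, hw2, hwit⟩

end Pool.Agent.SMI
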