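import Pool.Agent.SMI.FaG
import Pool.Agent.SMI.Vex
import Pool.Agent.SMI.Inj
import Pool.Agent.SMQ.Cnt

/-!
# SMI/FaK: the second moment of the 3-torsion
-/

set_option autoImplicit false

namespace Pool.Agent.SMI

open NumberField Pool.Agent.FTA Pool.Agent.FTB Pool.Agent.SMQ nonZeroDivisors

/-- `q = (G, p, y, g)` is a witness of a pair of classes of `K` -/
def Wk (K : IntermediateField ℚ ℂ) (q : ℕ × ℤ × V3 × V3) : Prop :=
  ∃ (_ : NumberField K) (A B : ClassGroup (𝓞 K)), Wit K A B q.1 q.2.1 q.2.2.1 q.2.2.2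

/-- the numerical conditions on `q` -/
def Ck (X : ℕ) (q : ℕ × ℤ × V3 × V3) : Prop :=
  1 ≤ q.1 ∧ q.1 ≤ 2 * X ∧ Cn X q.1 q.2.1 q.2.2.1 q.2.2.2

theorem faK (K : IntermediateField ℚ ℂ) [NumberField K] (h2 : Module.finrank ℚ K = 2)
    (him : ∃ x : K, (x : ℂ).im ≠ 0) (X : ℕ) (hX : aD K ≤ X) :
    ∃ A : Finset (ℕ × ℤ × V3 × V3), (∀ q ∈ A, Ck X q ∧ Wk K q) ∧
      (Nat.card {c : ClassGroup (𝓞 K) // c ^ 3 = 1}) ^ 2 ≤ 16 + 162 * A.card := by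
  classical
  let W : ClassGroup (𝓞 K) → ClassGroup (𝓞 K) → Prop := fun A B =>
    ∃ q : ℕ × ℤ × V3 × V3, Ck X q ∧ Wit K A B q.1 q.2.1 q.2.2.1 q.2.2.2
  have h1 := faG (ClassGroup (𝓞 K))
  have h3 := faW (ClassGroup (𝓞 K)) W (by
    intro A B hAB
    obtain ⟨A', B', -, hw, G, p, y, g, hG1, hG2, hW, hC⟩ := vex K h2 him X hX A B hAB
    exact ⟨A', B', ⟨(G, p, y, g), ⟨hG1, hG2, hC⟩, hW⟩, hw⟩)
  have hch : ∀ r : {q : ClassGroup (𝓞 K) × ClassGroup (𝓞 K) // W q.1 q.2},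
      ∃ q : ℕ × ℤ × V3 × V3, Ck X q ∧ Wit K r.1.1 r.1.2 q.1 q.2.1 q.2.2.1 q.2.2.2 := fun r => r.2
  choose f hf using hch
  have hinj : Function.Injective f := by
    intro r r' hrr
    have e1 := (hf r).2
    have e2 := (hf r').2
    rw [hrr] at e1
    have e3 := inj2 K _ _ _ _ _ _ _ _ e1 e2
    exact Subtype.ext (Prod.ext e3.1 e3.2)
  have : Fintype {q : ClassGroup (𝓞 K) × ClassGroup (𝓞 K) // W q.1 q.2} := Fintype.ofFinite _
  refine ⟨Finset.univ.image f, ?_, ?_⟩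
  · intro q hq
    obtain ⟨r, -, rfl⟩ := Finset.mem_image.1 hq
    exact ⟨(hf r).1, inferInstance, r.1.1, r.1.2, (hf r).2⟩
  · rw [Finset.card_image_of_injective _ hinj, Finset.card_univ, ← Nat.card_eq_fintype_card]
    omega

/-- the sum of `1 / G` -/
theorem faH (n : ℕ) : ∑ G ∈ Finset.Icc 1 n, (1 : ℝ) / G ≤ 1 + Real.log n := by
  have h := harmonic_le_one_add_log n
  rw [harmonic_eq_sum_Icc] at h
  push_cast at h
  simpa [one_div] using h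

theorem faS (X : ℕ) (B : ℝ) (hB : ∀ G : ℕ, 1 ≤ G →
    ∀ S : Finset (ℤ × V3 × V3), (∀ q ∈ S, Cn X G q.1 q.2.1 q.2.2) → (S.card : ℝ) ≤ B / G)
    (S : Finset (ℕ × ℤ × V3 × V3)) (hS : ∀ q ∈ S, Ck X q) :
    (S.card : ℝ) ≤ B * (1 + Real.log (2 * X)) := by
  classical
  have h1 : S.card = ∑ G ∈ Finset.Icc 1 (2 * X), (S.filter (fun q => q.1 = G)).card := by
    apply Finset.card_eq_sum_card_fiberwise
    intro q hq
    have := hS q (Finset.mem_coe.1 hq)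
    exact Finset.mem_coe.2 (Finset.mem_Icc.2 ⟨this.1, this.2.1⟩)
  have h2 : ∀ G ∈ Finset.Icc 1 (2 * X), ((S.filter (fun q => q.1 = G)).card : ℝ) ≤ B * (1 / G) := by
    intro G hG
    have hG1 := (Finset.mem_Icc.1 hG).1
    have h3 : ((S.filter (fun q => q.1 = G)).image (fun q => q.2)).card =
        (S.filter (fun q => q.1 = G)).card := by
      apply Finset.card_image_of_injOn
      intro q hq q' hq' h
      have e1 := (Finset.mem_filter.1 (Finset.mem_coe.1 hq)).2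
      have e2 := (Finset.mem_filter.1 (Finset.mem_coe.1 hq')).2
      exact Prod.ext (e1.trans e2.symm) h
    rw [← h3, mul_one_div]
    apply hB G hG1
    intro q hq
    obtain ⟨r, hr, rfl⟩ := Finset.mem_image.1 hq
    obtain ⟨hr1, hr2⟩ := Finset.mem_filter.1 hr
    have := (hS r hr1).2.2
    rw [hr2] at this
    exact this
  have hB0 : 0 ≤ B := by
    have := hB 1 le_rfl ∅ (by simp)
    simpa using this
  calc (S.card : ℝ) = ∑ G ∈ Finset.Icc 1 (2 * X), ((S.filter (fun q => q.1 = G)).card : ℝ) := by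
        rw [h1]
        push_cast
        rfl
    _ ≤ ∑ G ∈ Finset.Icc 1 (2 * X), B * (1 / (G : ℝ)) := Finset.sum_le_sum h2
    _ = B * ∑ G ∈ Finset.Icc 1 (2 * X), (1 / (G : ℝ)) := by rw [Finset.mul_sum]
    _ ≤ B * (1 + Real.log ((2 * X : ℕ) : ℝ)) := mul_le_mul_of_nonneg_left (faH _) hB0
    _ = B * (1 + Real.log (2 * X)) := by push_cast; ring

theorem faF (X : ℕ) (B : ℝ) (hB : ∀ G : ℕ, 1 ≤ G →
    ∀ S : Finset (ℤ × V3 × V3), (∀ q ∈ S, Cn X G q.1 q.2.1 q.2.2) → (S.card : ℝ) ≤ B / G) :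
    ∑ᶠ K ∈ IQ X, ((Nat.card {c : ClassGroup (𝓞 K) // c ^ 3 = 1} : ℝ)) ^ 2 ≤
      16 * X + 162 * (B * (1 + Real.log (2 * X))) := by
  classical
  rw [finsum_mem_eq_finite_toFinset_sum _ (famFin X)]
  have hloc : ∀ K : IntermediateField ℚ ℂ, ∃ A : Finset (ℕ × ℤ × V3 × V3), K ∈ IQ X →
      (∀ q ∈ A, Ck X q ∧ Wk K q) ∧
      (Nat.card {c : ClassGroup (𝓞 K) // c ^ 3 = 1}) ^ 2 ≤ 16 + 162 * A.card := by
    intro K
    by_cases hK : K ∈ IQ X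
    · obtain ⟨hN, h2, him, hX⟩ := hK
      obtain ⟨A, hA⟩ := faK K h2 him X hX
      exact ⟨A, fun _ => hA⟩
    · exact ⟨∅, fun h => absurd h hK⟩
  choose A hA using hloc
  have hmem : ∀ K, K ∈ (famFin X).toFinset ↔ K ∈ IQ X := fun K => Set.Finite.mem_toFinset _
  have h1 : ∑ K ∈ (famFin X).toFinset, ((Nat.card {c : ClassGroup (𝓞 K) // c ^ 3 = 1} : ℝ)) ^ 2 ≤
      ∑ K ∈ (famFin X).toFinset, (16 + 162 * ((A K).card : ℝ)) := by
    apply Finset.sum_le_sum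
    intro K hK
    have h2 := (hA K ((hmem K).1 hK)).2
    exact_mod_cast h2
  refine h1.trans ?_
  rw [Finset.sum_add_distrib, Finset.sum_const, nsmul_eq_mul, ← Finset.mul_sum]
  have h3 : ((famFin X).toFinset.card : ℝ) ≤ X := by
    have h4 := famCard X
    rw [Set.ncard_eq_toFinset_card _ (famFin X)] at h4
    exact_mod_cast h4
  have h5 : (((famFin X).toFinset.biUnion A).card : ℝ) = ∑ K ∈ (famFin X).toFinset,
      ((A K).card : ℝ) := by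
    rw [Finset.card_biUnion]
    · push_cast
      rfl
    · intro K hK K' hK' hne
      apply Finset.disjoint_left.2
      intro q hq hq'
      apply hne
      have i1 := (hmem K).1 (Finset.mem_coe.1 hK)
      have i2 := (hmem K').1 (Finset.mem_coe.1 hK')
      obtain ⟨j1, a1, b1, w1⟩ := ((hA K i1).1 q hq).2
      obtain ⟨j2, a2, b2, w2⟩ := ((hA K' i2).1 q hq').2
      have e := inj1 K K' a1 b1 a2 b2 _ _ _ _ w1 w2
      obtain ⟨-, h21, him1, -⟩ := i1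
      obtain ⟨-, h22, him2, -⟩ := i2
      exact uniq K K' h21 him1 h22 him2 e
  have h6 := faS X B hB ((famFin X).toFinset.biUnion A) (by
    intro q hq
    obtain ⟨K, hK, hqK⟩ := Finset.mem_biUnion.1 hq
    exact ((hA K ((hmem K).1 hK)).1 q hqK).1)
  rw [h5] at h6
  nlinarith

/-- the second moment of the 3-torsion -/
theorem mai (ε : ℝ) (hε : 0 < ε) : ∃ C : ℝ, 0 < C ∧ ∀ X : ℝ, 1 ≤ X →
    ∑ᶠ K ∈ IQ ⌊X⌋₊, ((Nat.card {c : ClassGroup (𝓞 K) // c ^ 3 = 1} : ℝ)) ^ 2 ≤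
      C * X ^ (1 + ε) := by
  obtain ⟨C, hC0, hC⟩ := cnt (ε / 2) (by positivity)
  -- `1 + log (2 X) ≤ (2 + 2 / ε) X ^ (ε / 2)`
  refine ⟨16 + 162 * (C * (2 + 2 / ε)), by positivity, ?_⟩
  intro X hX
  have hX0 : (0 : ℝ) < X := by linarith
  have hf : 1 ≤ ⌊X⌋₊ := Nat.le_floor (by simpa using hX)
  have hf1 : (1 : ℝ) ≤ (⌊X⌋₊ : ℝ) := by exact_mod_cast hf
  have hle : ((⌊X⌋₊ : ℕ) : ℝ) ≤ X := Nat.floor_le (by linarith)
  have h := faF ⌊X⌋₊ (C * (⌊X⌋₊ : ℝ) ^ (1 + ε / 2)) (fun G hG S hS => by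
    have := hC ⌊X⌋₊ G hf hG S hS
    exact this)
  have h3 : (⌊X⌋₊ : ℝ) ^ (1 + ε / 2) ≤ X ^ (1 + ε / 2) :=
    Real.rpow_le_rpow (by positivity) hle (by linarith)
  have hP1 : (1 : ℝ) ≤ X ^ (ε / 2) := Real.one_le_rpow hX (by positivity)
  have hlog : 1 + Real.log (2 * (⌊X⌋₊ : ℝ)) ≤ (2 + 2 / ε) * X ^ (ε / 2) := by
    have e1 : Real.log (2 * (⌊X⌋₊ : ℝ)) ≤ Real.log 2 + Real.log X := by
      rw [Real.log_mul (by norm_num) (by linarith)]
      have := Real.log_le_log (by linarith) hle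
      linarith
    have e2 : Real.log 2 ≤ 1 := by
      have := Real.log_two_lt_d9
      linarith
    have e3 : Real.log X ≤ X ^ (ε / 2) / (ε / 2) := Real.log_le_rpow_div hX0.le (by positivity)
    have e4 : X ^ (ε / 2) / (ε / 2) = 2 / ε * X ^ (ε / 2) := by
      field_simp
    rw [e4] at e3
    nlinarith
  have hlog0 : 0 ≤ 1 + Real.log (2 * (⌊X⌋₊ : ℝ)) := by
    have := Real.log_nonneg (show (1 : ℝ) ≤ 2 * (⌊X⌋₊ : ℝ) by linarith)
    linarith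
  have h4 : X ≤ X ^ (1 + ε) := by
    calc X = X ^ (1 : ℝ) := (Real.rpow_one X).symm
      _ ≤ X ^ (1 + ε) := Real.rpow_le_rpow_of_exponent_le hX (by linarith)
  have h5 : X ^ (1 + ε / 2) * X ^ (ε / 2) = X ^ (1 + ε) := by
    rw [← Real.rpow_add hX0]
    congr 1
    ring
  have h6 : C * (⌊X⌋₊ : ℝ) ^ (1 + ε / 2) * (1 + Real.log (2 * (⌊X⌋₊ : ℝ))) ≤
      C * X ^ (1 + ε / 2) * ((2 + 2 / ε) * X ^ (ε / 2)) := by
    apply mul_le_mul _ hlog hlog0 (by positivity)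
    exact mul_le_mul_of_nonneg_left h3 hC0.le
  have h7 : C * X ^ (1 + ε / 2) * ((2 + 2 / ε) * X ^ (ε / 2)) =
      C * (2 + 2 / ε) * X ^ (1 + ε) := by
    rw [← h5]
    ring
  rw [h7] at h6
  calc _ ≤ 16 * (⌊X⌋₊ : ℝ) + 162 * (C * (⌊X⌋₊ : ℝ) ^ (1 + ε / 2) *
        (1 + Real.log (2 * (⌊X⌋₊ : ℝ)))) := h
    _ ≤ 16 * X ^ (1 + ε) + 162 * (C * (2 + 2 / ε) * X ^ (1 + ε)) := by
      have : (⌊X⌋₊ : ℝ) ≤ X ^ (1 + ε) := hle.trans h4
      linarith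
    _ = (16 + 162 * (C * (2 + 2 / ε))) * X ^ (1 + ε) := by ring

end Pool.Agent.SMI
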