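import Pool.Agent.SMI.Cvn

/-!
# SMI/Elg: the elements gamma and alpha

PROOF of `elg`.  `cvj` gives `β3'` with `cv β3' = conj (cv β3)` and `β3 β3' = absNorm (span {β3}) = N4 N1 N2`.
So `span {β3} * span {β3'} = span {N4} * span {N1} * span {N2} = (E F) (I1 J1) (I2 J2) =
(E J1 I2) (F I1 J2)` and, cancelling `span {β3} = E J1 I2 ≠ 0` (`mul_left_cancel₀`),
`span {β3'} = F I1 J2`.  `span {β2 β3'} = (E J3 I1) (F I1 J2) = span {N4} * (I1 ^ 2 (J2 J3))`; `dvl`.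
PROOF of `ela`.  `span {π γ1} = (I1 I2 I3) (I1 ^ 2 (J2 J3)) = span {N2 N3} * I1 ^ 3`; `dvl`.
-/

set_option autoImplicit false

namespace Pool.Agent.SMI

open NumberField Pool.Agent.FTA Pool.Agent.FTB Pool.Agent.SMQ nonZeroDivisors

theorem elg (K : IntermediateField ℚ ℂ) [NumberField K] (h2 : Module.finrank ℚ K = 2)
    (him : ∃ x : K, (x : ℂ).im ≠ 0) (I1 I2 J1 J2 J3 E F : (Ideal (𝓞 K))⁰) (N1 N2 N4 : ℕ)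
    (o1 : 1 ≤ N1) (o2 : 1 ≤ N2) (o4 : 1 ≤ N4)
    (h1 : (I1 : Ideal (𝓞 K)) * (J1 : Ideal (𝓞 K)) = Ideal.span {(N1 : 𝓞 K)})
    (h2' : (I2 : Ideal (𝓞 K)) * (J2 : Ideal (𝓞 K)) = Ideal.span {(N2 : 𝓞 K)})
    (h4 : (E : Ideal (𝓞 K)) * (F : Ideal (𝓞 K)) = Ideal.span {(N4 : 𝓞 K)})
    (β2 β3 : 𝓞 K)
    (s2 : Ideal.span {β2} = (E : Ideal (𝓞 K)) * (J3 : Ideal (𝓞 K)) * (I1 : Ideal (𝓞 K)))
    (s3 : Ideal.span {β3} = (E : Ideal (𝓞 K)) * (J1 : Ideal (𝓞 K)) * (I2 : Ideal (𝓞 K)))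
    (n3 : Ideal.absNorm (Ideal.span {β3}) = N4 * N1 * N2) :
    ∃ γ1 : 𝓞 K, (N4 : ℂ) * cv K γ1 = cv K β2 * (starRingEnd ℂ) (cv K β3) ∧
      Ideal.span {γ1} = (I1 : Ideal (𝓞 K)) ^ 2 * ((J2 : Ideal (𝓞 K)) * (J3 : Ideal (𝓞 K))) := by
  obtain ⟨β3', hb1, hb2⟩ := cvj K h2 him β3
  rw [n3] at hb2
  have hE : (E : Ideal (𝓞 K)) ≠ 0 := nonZeroDivisors.coe_ne_zero E
  have hJ1 : (J1 : Ideal (𝓞 K)) ≠ 0 := nonZeroDivisors.coe_ne_zero J1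
  have hI2 : (I2 : Ideal (𝓞 K)) ≠ 0 := nonZeroDivisors.coe_ne_zero I2
  have hne : (E : Ideal (𝓞 K)) * (J1 : Ideal (𝓞 K)) * (I2 : Ideal (𝓞 K)) ≠ 0 :=
    mul_ne_zero (mul_ne_zero hE hJ1) hI2
  have hs : Ideal.span {β3'} = (F : Ideal (𝓞 K)) * (I1 : Ideal (𝓞 K)) * (J2 : Ideal (𝓞 K)) := by
    apply mul_left_cancel₀ hne
    rw [← s3, Ideal.span_singleton_mul_span_singleton, hb2, s3]
    push_cast
    rw [← Ideal.span_singleton_mul_span_singleton, ← Ideal.span_singleton_mul_span_singleton,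
      ← h4, ← h1, ← h2']
    ring
  have hN4 : (N4 : 𝓞 K) ≠ 0 := by
    have : N4 ≠ 0 := by omega
    exact_mod_cast this
  obtain ⟨d, hd1, hd2⟩ := dvl K (β2 * β3') (N4 : 𝓞 K)
    ((I1 : Ideal (𝓞 K)) ^ 2 * ((J2 : Ideal (𝓞 K)) * (J3 : Ideal (𝓞 K)))) hN4 (by
      rw [← Ideal.span_singleton_mul_span_singleton, s2, hs, ← h4]
      ring)
  refine ⟨d, ?_, hd2⟩
  rw [← hb1]
  unfold cv
  have h5 := congrArg (fun z : 𝓞 K => ((z : K) : ℂ)) hd1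
  simp only [map_mul, map_natCast] at h5
  push_cast at h5
  exact h5

theorem ela (K : IntermediateField ℚ ℂ) [NumberField K] (I1 I2 I3 J2 J3 : (Ideal (𝓞 K))⁰)
    (N2 N3 : ℕ) (o2 : 1 ≤ N2) (o3 : 1 ≤ N3)
    (h2 : (I2 : Ideal (𝓞 K)) * (J2 : Ideal (𝓞 K)) = Ideal.span {(N2 : 𝓞 K)})
    (h3 : (I3 : Ideal (𝓞 K)) * (J3 : Ideal (𝓞 K)) = Ideal.span {(N3 : 𝓞 K)})
    (π γ1 : 𝓞 K)
    (sp : Ideal.span {π} = (I1 : Ideal (𝓞 K)) * (I2 : Ideal (𝓞 K)) * (I3 : Ideal (𝓞 K)))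
    (sg : Ideal.span {γ1} = (I1 : Ideal (𝓞 K)) ^ 2 * ((J2 : Ideal (𝓞 K)) * (J3 : Ideal (𝓞 K)))) :
    ∃ α1 : 𝓞 K, (N2 : ℂ) * N3 * cv K α1 = cv K π * cv K γ1 ∧
      Ideal.span {α1} = (I1 : Ideal (𝓞 K)) ^ 3 := by
  have hN : (N2 : 𝓞 K) * (N3 : 𝓞 K) ≠ 0 := by
    have a2 : N2 ≠ 0 := by omega
    have a3 : N3 ≠ 0 := by omega
    exact mul_ne_zero (by exact_mod_cast a2) (by exact_mod_cast a3)
  obtain ⟨d, hd1, hd2⟩ := dvl K (π * γ1) ((N2 : 𝓞 K) * (N3 : 𝓞 K)) ((I1 : Ideal (𝓞 K)) ^ 3) hN (by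
    rw [← Ideal.span_singleton_mul_span_singleton, ← Ideal.span_singleton_mul_span_singleton,
      sp, sg, ← h2, ← h3]
    ring)
  refine ⟨d, ?_, hd2⟩
  unfold cv
  have h5 := congrArg (fun z : 𝓞 K => ((z : K) : ℂ)) hd1
  simp only [map_mul, map_natCast] at h5
  push_cast at h5
  exact h5

end Pool.Agent.SMI
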