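import Pool.Agent.SMI.Elg

/-!
# SMI/Elm: the elements of a triple

PROOF.  Let `A, B` be the classes of `I1, I2`; the class of `I3` is `(A B)⁻¹`, of `E` is `A B⁻¹`, and
`A ^ 3 = B ^ 3 = 1`.  The classes of `I1 I2 I3`, `E J2 I3`, `E J3 I1`, `E J1 I2` are
`1`, `A B⁻¹ B⁻¹ (A B)⁻¹ = B⁻³ = 1`, `A B⁻¹ (A B) A = A ^ 3 = 1`, `A B⁻¹ A⁻¹ B = 1`; `gnl` gives `π, β1, β2, β3`
(the product of elements of `(Ideal (𝓞 K))⁰` coerces to the product: `Submonoid.coe_mul`).  Norms: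
`absNorm (span {π}) = N1 N2 N3`, `absNorm (span {β1}) = N4 N2 N3` and so on, and `cvn`.
`elg` for the three cyclic permutations gives `γ1, γ2, γ3`, `ela` gives `α1, α2, α3` (the ideal
`I1 I2 I3 = I2 I3 I1` by commutativity).
-/

set_option autoImplicit false

namespace Pool.Agent.SMI

open NumberField Pool.Agent.FTA Pool.Agent.FTB Pool.Agent.SMQ nonZeroDivisors

theorem elm (K : IntermediateField ℚ ℂ) [NumberField K] (h2 : Module.finrank ℚ K = 2)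
    (him : ∃ x : K, (x : ℂ).im ≠ 0) (I1 I2 I3 E J1 J2 J3 F : (Ideal (𝓞 K))⁰) (N1 N2 N3 N4 : ℕ)
    (c1 : CI K I1 J1 N1) (c2 : CI K I2 J2 N2) (c3 : CI K I3 J3 N3) (c4 : CI K E F N4)
    (hi : Ind (ClassGroup.mk0 I1) (ClassGroup.mk0 I2))
    (hc : ClassGroup.mk0 I1 * ClassGroup.mk0 I2 * ClassGroup.mk0 I3 = 1)
    (he : ClassGroup.mk0 E = ClassGroup.mk0 I1 * (ClassGroup.mk0 I2)⁻¹) :
    ∃ π β1 β2 β3 γ1 γ2 γ3 α1 α2 α3 : 𝓞 K,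
      El K I1 I2 I3 J1 J2 J3 E N1 N2 N3 N4 π β1 β2 β3 γ1 γ2 γ3 α1 α2 α3 := by
  obtain ⟨hA, hB, -, -, -, -⟩ := hi
  set A := ClassGroup.mk0 I1 with hAd
  set B := ClassGroup.mk0 I2 with hBd
  have hC : ClassGroup.mk0 I3 = (A * B)⁻¹ := eq_inv_of_mul_eq_one_right hc
  -- the four elements
  obtain ⟨π, sp⟩ := gnl K (I1 * I2 * I3) (by rw [map_mul, map_mul]; exact hc)
  obtain ⟨β1, s1⟩ := gnl K (E * J2 * I3) (by
    rw [map_mul, map_mul, he, c2.cJ, hC, ← hBd]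
    calc A * B⁻¹ * B⁻¹ * (A * B)⁻¹ = (B ^ 3)⁻¹ := by
          rw [mul_inv, pow_succ, pow_two, mul_inv, mul_inv]
          rw [mul_comm A⁻¹ B⁻¹]
          calc A * B⁻¹ * B⁻¹ * (B⁻¹ * A⁻¹) = (A * A⁻¹) * (B⁻¹ * B⁻¹ * B⁻¹) := by
                simp only [mul_assoc, mul_comm, mul_left_comm]
            _ = B⁻¹ * B⁻¹ * B⁻¹ := by rw [mul_inv_cancel, one_mul]
      _ = 1 := by rw [hB, inv_one])
  obtain ⟨β2, s2⟩ := gnl K (E * J3 * I1) (by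
    rw [map_mul, map_mul, he, c3.cJ, hC, inv_inv, ← hAd]
    calc A * B⁻¹ * (A * B) * A = (A * A * A) * (B⁻¹ * B) := by
          simp only [mul_assoc, mul_comm, mul_left_comm]
      _ = A ^ 3 := by rw [inv_mul_cancel, mul_one, pow_succ, pow_two]
      _ = 1 := hA)
  obtain ⟨β3, s3⟩ := gnl K (E * J1 * I2) (by
    rw [map_mul, map_mul, he, c1.cJ, ← hAd, ← hBd]
    calc A * B⁻¹ * A⁻¹ * B = (A * A⁻¹) * (B⁻¹ * B) := by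
          simp only [mul_assoc, mul_comm, mul_left_comm]
      _ = 1 := by rw [mul_inv_cancel, inv_mul_cancel, one_mul])
  simp only [Submonoid.coe_mul] at sp s1 s2 s3
  -- the norms
  have np : Ideal.absNorm (Ideal.span {π}) = N1 * N2 * N3 := by
    rw [sp, map_mul, map_mul, c1.nI, c2.nI, c3.nI]
  have n1 : Ideal.absNorm (Ideal.span {β1}) = N4 * N2 * N3 := by
    rw [s1, map_mul, map_mul, c4.nI, c2.nJ, c3.nI]
  have n2 : Ideal.absNorm (Ideal.span {β2}) = N4 * N3 * N1 := by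
    rw [s2, map_mul, map_mul, c4.nI, c3.nJ, c1.nI]
  have n3 : Ideal.absNorm (Ideal.span {β3}) = N4 * N1 * N2 := by
    rw [s3, map_mul, map_mul, c4.nI, c1.nJ, c2.nI]
  have vp := cvn K h2 him π
  have v1 := cvn K h2 him β1
  have v2 := cvn K h2 him β2
  have v3 := cvn K h2 him β3
  rw [np] at vp
  rw [n1] at v1
  rw [n2] at v2
  rw [n3] at v3
  push_cast at vp v1 v2 v3
  -- the elements `γ`
  obtain ⟨γ1, g1, sg1⟩ := elg K h2 him I1 I2 J1 J2 J3 E F N1 N2 N4 c1.n1 c2.n1 c4.n1 c1.IJ c2.IJ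
    c4.IJ β2 β3 s2 s3 n3
  obtain ⟨γ2, g2, sg2⟩ := elg K h2 him I2 I3 J2 J3 J1 E F N2 N3 N4 c2.n1 c3.n1 c4.n1 c2.IJ c3.IJ
    c4.IJ β3 β1 s3 s1 n1
  obtain ⟨γ3, g3, sg3⟩ := elg K h2 him I3 I1 J3 J1 J2 E F N3 N1 N4 c3.n1 c1.n1 c4.n1 c3.IJ c1.IJ
    c4.IJ β1 β2 s1 s2 n2
  -- the elements `α`
  have sp2 : Ideal.span {π} = (I2 : Ideal (𝓞 K)) * (I3 : Ideal (𝓞 K)) * (I1 : Ideal (𝓞 K)) := by
    rw [sp, mul_assoc, mul_comm]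
  have sp3 : Ideal.span {π} = (I3 : Ideal (𝓞 K)) * (I1 : Ideal (𝓞 K)) * (I2 : Ideal (𝓞 K)) := by
    rw [sp, mul_comm, mul_assoc]
  obtain ⟨α1, a1, sa1⟩ := ela K I1 I2 I3 J2 J3 N2 N3 c2.n1 c3.n1 c2.IJ c3.IJ π γ1 sp sg1
  obtain ⟨α2, a2, sa2⟩ := ela K I2 I3 I1 J3 J1 N3 N1 c3.n1 c1.n1 c3.IJ c1.IJ π γ2 sp2 sg2
  obtain ⟨α3, a3, sa3⟩ := ela K I3 I1 I2 J1 J2 N1 N2 c1.n1 c2.n1 c1.IJ c2.IJ π γ3 sp3 sg3
  exact ⟨π, β1, β2, β3, γ1, γ2, γ3, α1, α2, α3, sp, vp,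
    ⟨s1, sg1, sa1, v1, g1, a1⟩, ⟨s2, sg2, sa2, v2, g2, a2⟩, ⟨s3, sg3, sa3, v3, g3, a3⟩⟩

end Pool.Agent.SMI
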