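import Pool.Agent.SMI.Defs

/-!
# SMI/FaG: independent pairs and words in a finite abelian group
-/

set_option autoImplicit false

namespace Pool.Agent.SMI

open Classical in
/-- the square of the number of elements with `c ^ 3 = 1` is at most `16 + 2` times the number of
independent pairs -/
theorem faG (C : Type*) [CommGroup C] [Finite C] :
    (Nat.card {c : C // c ^ 3 = 1}) ^ 2 ≤ 16 + 2 * Nat.card {q : C × C // Ind q.1 q.2} := by
  have : Fintype C := Fintype.ofFinite C
  set T := Finset.univ.filter (fun c : C => c ^ 3 = 1) with hT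
  set P := Finset.univ.filter (fun q : C × C => Ind q.1 q.2) with hP
  have h1 : Nat.card {c : C // c ^ 3 = 1} = T.card := by
    rw [Nat.card_eq_fintype_card, Fintype.card_subtype]
  have h2 : Nat.card {q : C × C // Ind q.1 q.2} = P.card := by
    rw [Nat.card_eq_fintype_card, Fintype.card_subtype]
  rw [h1, h2]
  have hsub : T ×ˢ T ⊆ P ∪ (T.image (fun c => ((1 : C), c)) ∪ (T.image (fun c => (c, (1 : C))) ∪
      (T.image (fun c => (c, c)) ∪ T.image (fun c => (c, c⁻¹))))) := by
    intro q hq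
    rw [Finset.mem_product] at hq
    have ha : q.1 ^ 3 = 1 := (Finset.mem_filter.1 hq.1).2
    have hb : q.2 ^ 3 = 1 := (Finset.mem_filter.1 hq.2).2
    simp only [Finset.mem_union, Finset.mem_image]
    by_cases c1 : q.1 = 1
    · right; left
      exact ⟨q.2, hq.2, Prod.ext c1.symm rfl⟩
    by_cases c2 : q.2 = 1
    · right; right; left
      exact ⟨q.1, hq.1, Prod.ext rfl c2.symm⟩
    by_cases c3 : q.1 = q.2
    · right; right; right; left
      exact ⟨q.1, hq.1, Prod.ext rfl c3⟩
    by_cases c4 : q.1 * q.2 = 1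
    · right; right; right; right
      refine ⟨q.1, hq.1, Prod.ext rfl ?_⟩
      exact inv_eq_of_mul_eq_one_right c4
    left
    exact Finset.mem_filter.2 ⟨Finset.mem_univ _, ha, hb, c1, c2, c3, c4⟩
  have h3 := Finset.card_le_card hsub
  rw [Finset.card_product] at h3
  have i1 : (T.image (fun c => ((1 : C), c))).card ≤ T.card := Finset.card_image_le
  have i2 : (T.image (fun c => (c, (1 : C)))).card ≤ T.card := Finset.card_image_le
  have i3 : (T.image (fun c => (c, c))).card ≤ T.card := Finset.card_image_le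
  have i4 : (T.image (fun c => (c, c⁻¹))).card ≤ T.card := Finset.card_image_le
  have u1 := Finset.card_union_le (T.image (fun c => (c, c))) (T.image (fun c => (c, c⁻¹)))
  have u2 := Finset.card_union_le (T.image (fun c => (c, (1 : C))))
    (T.image (fun c => (c, c)) ∪ T.image (fun c => (c, c⁻¹)))
  have u3 := Finset.card_union_le (T.image (fun c => ((1 : C), c)))
    (T.image (fun c => (c, (1 : C))) ∪ (T.image (fun c => (c, c)) ∪ T.image (fun c => (c, c⁻¹))))
  have u4 := Finset.card_union_le P (T.image (fun c => ((1 : C), c)) ∪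
    (T.image (fun c => (c, (1 : C))) ∪ (T.image (fun c => (c, c)) ∪ T.image (fun c => (c, c⁻¹)))))
  have h4 : T.card * T.card ≤ P.card + 4 * T.card := by omega
  have h5 : (T.card : ℤ) * T.card ≤ P.card + 4 * T.card := by exact_mod_cast h4
  have h6 : (T.card : ℤ) ^ 2 ≤ 16 + 2 * P.card := by nlinarith [sq_nonneg ((T.card : ℤ) - 4)]
  exact_mod_cast h6

open Classical in
/-- if every independent pair is a word in a pair of the set `W` then there are at most
`81 |W|` independent pairs -/
theorem faW (C : Type*) [CommGroup C] [Finite C] (W : C → C → Prop)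
    (h : ∀ A B : C, Ind A B → ∃ A' B' : C, W A' B' ∧
      ∃ i j k l : Fin 3, A = A' ^ (i : ℕ) * B' ^ (j : ℕ) ∧ B = A' ^ (k : ℕ) * B' ^ (l : ℕ)) :
    Nat.card {q : C × C // Ind q.1 q.2} ≤ 81 * Nat.card {q : C × C // W q.1 q.2} := by
  have h' : ∀ q : {q : C × C // Ind q.1 q.2}, ∃ r : {q : C × C // W q.1 q.2} ×
      (Fin 3 × Fin 3 × Fin 3 × Fin 3),
      q.1.1 = r.1.1.1 ^ (r.2.1 : ℕ) * r.1.1.2 ^ (r.2.2.1 : ℕ) ∧
      q.1.2 = r.1.1.1 ^ (r.2.2.2.1 : ℕ) * r.1.1.2 ^ (r.2.2.2.2 : ℕ) := by
    rintro ⟨⟨A, B⟩, hq⟩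
    obtain ⟨A', B', hW, i, j, k, l, e1, e2⟩ := h A B hq
    exact ⟨(⟨(A', B'), hW⟩, (i, j, k, l)), e1, e2⟩
  choose f hf using h'
  have hinj : Function.Injective f := by
    intro q q' hqq
    apply Subtype.ext
    apply Prod.ext
    · rw [(hf q).1, (hf q').1, hqq]
    · rw [(hf q).2, (hf q').2, hqq]
  have h1 := Nat.card_le_card_of_injective f hinj
  rw [Nat.card_prod] at h1
  have h2 : Nat.card (Fin 3 × Fin 3 × Fin 3 × Fin 3) = 81 := by
    simp [Nat.card_eq_fintype_card]
  rw [h2] at h1
  linarith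

end Pool.Agent.SMI
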