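import Pool.Agent.SMI.Defs
import Pool.Agent.FTB.Cor
import Pool.Agent.FTB.ImZ

/-!
# SMI/Loa: a prime power dividing p, y1, y2 but not y3

PROOF.  Let `L = l ^ (r + 1)`.  `imz`: `π = z0 + L x`, `α1 = z1 + L x1`, `α2 = z2 + L x2` with integers
`z0, z1, z2`.  So `z1 z2 α3 = z0 ^ 3 + L w` for some `w : 𝓞 K` (expand `π ^ 3 = α1 α2 α3`).  The coordinates of
`z1 z2 α3` are `(z1 z2 t3, z1 z2 y3)` (from the definition of `Co`), so `imz'` gives `L ∣ z1 z2 y3`.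
If `l` does not divide `z1 z2`, then `L ∣ y3`, a contradiction.  So `l ∣ z1` (then `α1 = l (z1 / l + l ^ r x1)`)
or `l ∣ z2`.
-/

set_option autoImplicit false

namespace Pool.Agent.SMI

open NumberField Pool.Agent.FTA Pool.Agent.FTB Pool.Agent.SMQ nonZeroDivisors

private theorem loa_mul (K : IntermediateField ℚ ℂ) [NumberField K] (a : 𝓞 K) (t y n : ℤ)
    (h : Co K a t y) : Co K ((n : 𝓞 K) * a) (n * t) (n * y) := by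
  have hc : ((((n : ℤ) : 𝓞 K) : K) : ℂ) = (n : ℂ) := by simp
  unfold Co at *
  push_cast
  rw [hc, mul_left_comm, h]
  ring

theorem loa (K : IntermediateField ℚ ℂ) [NumberField K] (h2 : Module.finrank ℚ K = 2)
    (him : ∃ x : K, (x : ℂ).im ≠ 0) (π α1 α2 α3 : 𝓞 K)
    (hp : π ^ 3 = α1 * α2 * α3) (xp p t1 y1 t2 y2 t3 y3 : ℤ) (c0 : Co K π xp p)
    (c1 : Co K α1 t1 y1) (c2 : Co K α2 t2 y2) (c3 : Co K α3 t3 y3) (l r : ℕ) (hl : l.Prime)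
    (d0 : (l : ℤ) ^ (r + 1) ∣ p) (d1 : (l : ℤ) ^ (r + 1) ∣ y1) (d2 : (l : ℤ) ^ (r + 1) ∣ y2)
    (d3 : ¬ (l : ℤ) ^ (r + 1) ∣ y3) :
    (∃ b : 𝓞 K, α1 = (l : 𝓞 K) * b) ∨ (∃ b : 𝓞 K, α2 = (l : 𝓞 K) * b) := by
  have hlp : Prime (l : ℤ) := Nat.prime_iff_prime_int.1 hl
  obtain ⟨z0, x, e0⟩ := imz K h2 him π xp p _ c0 d0
  obtain ⟨z1, w1, e1⟩ := imz K h2 him α1 t1 y1 _ c1 d1
  obtain ⟨z2, w2, e2⟩ := imz K h2 him α2 t2 y2 _ c2 d2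
  have h3 : ((z1 * z2 : ℤ) : 𝓞 K) * α3 = ((z0 ^ 3 : ℤ) : 𝓞 K) + (((l : ℤ) ^ (r + 1) : ℤ) : 𝓞 K) *
      (3 * (z0 : 𝓞 K) ^ 2 * x + 3 * (z0 : 𝓞 K) * (((l : ℤ) ^ (r + 1) : ℤ) : 𝓞 K) * x ^ 2 +
        (((l : ℤ) ^ (r + 1) : ℤ) : 𝓞 K) ^ 2 * x ^ 3 -
        ((z1 : 𝓞 K) * w2 + (z2 : 𝓞 K) * w1 + (((l : ℤ) ^ (r + 1) : ℤ) : 𝓞 K) * (w1 * w2)) * α3) := by
    have h4 := hp
    rw [e0, e1, e2] at h4
    generalize (((l : ℤ) ^ (r + 1) : ℤ) : 𝓞 K) = L at h4 ⊢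
    push_cast
    linear_combination -h4
  have h4 : Co K (((z1 * z2 : ℤ) : 𝓞 K) * α3) ((z1 * z2) * t3) ((z1 * z2) * y3) :=
    loa_mul K α3 t3 y3 (z1 * z2) c3
  rw [h3] at h4
  have h5 : (l : ℤ) ^ (r + 1) ∣ (z1 * z2) * y3 := imz' K h2 him _ _ _ _ _ h4
  have h6 : (l : ℤ) ∣ z1 * z2 := by
    by_contra hn
    have hc : IsCoprime ((l : ℤ) ^ (r + 1)) (z1 * z2) :=
      IsCoprime.pow_left ((Prime.coprime_iff_not_dvd hlp).2 hn)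
    exact d3 (hc.dvd_of_dvd_mul_left h5)
  rcases hlp.dvd_or_dvd h6 with ⟨v, hv⟩ | ⟨v, hv⟩
  · left
    refine ⟨(v : 𝓞 K) + (l : 𝓞 K) ^ r * w1, ?_⟩
    rw [e1, hv]
    push_cast
    ring
  · right
    refine ⟨(v : 𝓞 K) + (l : 𝓞 K) ^ r * w2, ?_⟩
    rw [e2, hv]
    push_cast
    ring

end Pool.Agent.SMI
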