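import Mathlib

/-!
# SMI/Pid: the polynomial identities

`π = a b c`, `α₁ = a ^ 3`, `γ₁ = a ^ 2 b' c'` etc., where `a' , b', c'` are the conjugates, and
`s ^ 2 = -D`; `p, yᵢ, gᵢ` are the imaginary parts, `xp, xᵢ` the real parts (times 2).
-/

set_option autoImplicit false

namespace Pool.Agent.SMI

theorem pid_m (a a' b b' c c' s p y1 y2 y3 g1 g2 g3 : ℂ) (hs : s ≠ 0)
    (hp : s * p = a * b * c - a' * b' * c')
    (h1 : s * y1 = a ^ 3 - a' ^ 3) (h2 : s * y2 = b ^ 3 - b' ^ 3) (h3 : s * y3 = c ^ 3 - c' ^ 3)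
    (k1 : s * g1 = a ^ 2 * b' * c' - a' ^ 2 * b * c)
    (k2 : s * g2 = b ^ 2 * c' * a' - b' ^ 2 * c * a)
    (k3 : s * g3 = c ^ 2 * a' * b' - c' ^ 2 * a * b) :
    a * a' * (y1 * y2 * y3 - p ^ 3) = y1 * g2 * g3 - p * g1 ^ 2 := by
  have e : s ^ 3 * (a * a' * (y1 * y2 * y3 - p ^ 3)) = s ^ 3 * (y1 * g2 * g3 - p * g1 ^ 2) := by
    calc s ^ 3 * (a * a' * (y1 * y2 * y3 - p ^ 3))
        = a * a' * ((s * y1) * (s * y2) * (s * y3) - (s * p) ^ 3) := by ring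
      _ = (s * y1) * (s * g2) * (s * g3) - (s * p) * (s * g1) ^ 2 := by
          rw [hp, h1, h2, h3, k1, k2, k3]; ring
      _ = s ^ 3 * (y1 * g2 * g3 - p * g1 ^ 2) := by ring
  exact mul_left_cancel₀ (pow_ne_zero 3 hs) e

theorem pid_k (a a' b b' c c' s p y1 y2 y3 g1 g2 x1 x2 : ℂ) (hs : s ≠ 0)
    (hp : s * p = a * b * c - a' * b' * c')
    (h1 : s * y1 = a ^ 3 - a' ^ 3) (h2 : s * y2 = b ^ 3 - b' ^ 3) (h3 : s * y3 = c ^ 3 - c' ^ 3)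
    (k1 : s * g1 = a ^ 2 * b' * c' - a' ^ 2 * b * c)
    (k2 : s * g2 = b ^ 2 * c' * a' - b' ^ 2 * c * a)
    (l1 : x1 = a ^ 3 + a' ^ 3) (l2 : x2 = b ^ 3 + b' ^ 3) :
    2 * (y1 * g2 ^ 3 - y2 * g1 ^ 3) = (y1 * y2 * y3 - p ^ 3) * (y1 * x2 - y2 * x1) := by
  have e : s ^ 4 * (2 * (y1 * g2 ^ 3 - y2 * g1 ^ 3)) =
      s ^ 4 * ((y1 * y2 * y3 - p ^ 3) * (y1 * x2 - y2 * x1)) := by
    calc s ^ 4 * (2 * (y1 * g2 ^ 3 - y2 * g1 ^ 3))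
        = 2 * ((s * y1) * (s * g2) ^ 3 - (s * y2) * (s * g1) ^ 3) := by ring
      _ = ((s * y1) * (s * y2) * (s * y3) - (s * p) ^ 3) * ((s * y1) * x2 - (s * y2) * x1) := by
          rw [hp, h1, h2, h3, k1, k2, l1, l2]; ring
      _ = s ^ 4 * ((y1 * y2 * y3 - p ^ 3) * (y1 * x2 - y2 * x1)) := by ring
  exact mul_left_cancel₀ (pow_ne_zero 4 hs) e

theorem pid_x (a a' b b' c c' s p y1 y2 y3 g1 g2 g3 x1 : ℂ) (hs : s ≠ 0)
    (hp : s * p = a * b * c - a' * b' * c')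
    (h1 : s * y1 = a ^ 3 - a' ^ 3) (h2 : s * y2 = b ^ 3 - b' ^ 3) (h3 : s * y3 = c ^ 3 - c' ^ 3)
    (k1 : s * g1 = a ^ 2 * b' * c' - a' ^ 2 * b * c)
    (k2 : s * g2 = b ^ 2 * c' * a' - b' ^ 2 * c * a)
    (k3 : s * g3 = c ^ 2 * a' * b' - c' ^ 2 * a * b)
    (l1 : x1 = a ^ 3 + a' ^ 3) :
    x1 * (y1 * y2 * y3 - p ^ 3) ^ 2 = 3 * p ^ 2 * y1 * (g1 * g2 * g3) -
      y1 ^ 2 * (y2 * g3 ^ 3 + y3 * g2 ^ 3) + (y1 * y2 * y3 - 2 * p ^ 3) * g1 ^ 3 := by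
  have e : s ^ 6 * (x1 * (y1 * y2 * y3 - p ^ 3) ^ 2) =
      s ^ 6 * (3 * p ^ 2 * y1 * (g1 * g2 * g3) -
      y1 ^ 2 * (y2 * g3 ^ 3 + y3 * g2 ^ 3) + (y1 * y2 * y3 - 2 * p ^ 3) * g1 ^ 3) := by
    calc s ^ 6 * (x1 * (y1 * y2 * y3 - p ^ 3) ^ 2)
        = x1 * ((s * y1) * (s * y2) * (s * y3) - (s * p) ^ 3) ^ 2 := by ring
      _ = 3 * (s * p) ^ 2 * (s * y1) * ((s * g1) * (s * g2) * (s * g3)) -
            (s * y1) ^ 2 * ((s * y2) * (s * g3) ^ 3 + (s * y3) * (s * g2) ^ 3) +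
            ((s * y1) * (s * y2) * (s * y3) - 2 * (s * p) ^ 3) * (s * g1) ^ 3 := by
          rw [hp, h1, h2, h3, k1, k2, k3, l1]; ring
      _ = s ^ 6 * (3 * p ^ 2 * y1 * (g1 * g2 * g3) -
            y1 ^ 2 * (y2 * g3 ^ 3 + y3 * g2 ^ 3) + (y1 * y2 * y3 - 2 * p ^ 3) * g1 ^ 3) := by ring
  exact mul_left_cancel₀ (pow_ne_zero 6 hs) e

theorem pid_l (a a' b b' c c' s p y1 y2 y3 g1 g2 g3 xp u1 u2 u3 : ℂ) (hs : s ≠ 0)
    (hp : s * p = a * b * c - a' * b' * c')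
    (h1 : s * y1 = a ^ 3 - a' ^ 3) (h2 : s * y2 = b ^ 3 - b' ^ 3) (h3 : s * y3 = c ^ 3 - c' ^ 3)
    (k1 : s * g1 = a ^ 2 * b' * c' - a' ^ 2 * b * c)
    (k2 : s * g2 = b ^ 2 * c' * a' - b' ^ 2 * c * a)
    (k3 : s * g3 = c ^ 2 * a' * b' - c' ^ 2 * a * b)
    (l : xp = a * b * c + a' * b' * c')
    (l1 : u1 = a ^ 2 * b' * c' + a' ^ 2 * b * c)
    (l2 : u2 = b ^ 2 * c' * a' + b' ^ 2 * c * a)
    (l3 : u3 = c ^ 2 * a' * b' + c' ^ 2 * a * b) :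
    2 * (p ^ 2 * (a * a' * (g2 * g3) ^ 2 + b * b' * (g3 * g1) ^ 2 + c * c' * (g1 * g2) ^ 2) -
      (g1 * g2 * g3) ^ 2) =
    (y1 * y2 * y3 - p ^ 3) * (p * (u1 * g2 * g3 + u2 * g3 * g1 + u3 * g1 * g2) -
      xp * (g1 * g2 * g3)) := by
  have e : s ^ 6 * (2 * (p ^ 2 * (a * a' * (g2 * g3) ^ 2 + b * b' * (g3 * g1) ^ 2 +
      c * c' * (g1 * g2) ^ 2) - (g1 * g2 * g3) ^ 2)) =
      s ^ 6 * ((y1 * y2 * y3 - p ^ 3) * (p * (u1 * g2 * g3 + u2 * g3 * g1 + u3 * g1 * g2) -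
      xp * (g1 * g2 * g3))) := by
    calc s ^ 6 * (2 * (p ^ 2 * (a * a' * (g2 * g3) ^ 2 + b * b' * (g3 * g1) ^ 2 +
          c * c' * (g1 * g2) ^ 2) - (g1 * g2 * g3) ^ 2))
        = 2 * ((s * p) ^ 2 * (a * a' * ((s * g2) * (s * g3)) ^ 2 +
            b * b' * ((s * g3) * (s * g1)) ^ 2 +
            c * c' * ((s * g1) * (s * g2)) ^ 2) - ((s * g1) * (s * g2) * (s * g3)) ^ 2) := by ring
      _ = ((s * y1) * (s * y2) * (s * y3) - (s * p) ^ 3) *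
            ((s * p) * (u1 * (s * g2) * (s * g3) + u2 * (s * g3) * (s * g1) +
            u3 * (s * g1) * (s * g2)) - xp * ((s * g1) * (s * g2) * (s * g3))) := by
          rw [hp, h1, h2, h3, k1, k2, k3, l, l1, l2, l3]; ring
      _ = s ^ 6 * ((y1 * y2 * y3 - p ^ 3) * (p * (u1 * g2 * g3 + u2 * g3 * g1 + u3 * g1 * g2) -
            xp * (g1 * g2 * g3))) := by ring
  exact mul_left_cancel₀ (pow_ne_zero 6 hs) e

theorem pid_z (a a' b b' c c' s p y1 y2 y3 g1 g2 g3 xp : ℂ) (hs : s ≠ 0)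
    (hp : s * p = a * b * c - a' * b' * c')
    (h1 : s * y1 = a ^ 3 - a' ^ 3) (h2 : s * y2 = b ^ 3 - b' ^ 3) (h3 : s * y3 = c ^ 3 - c' ^ 3)
    (k1 : s * g1 = a ^ 2 * b' * c' - a' ^ 2 * b * c)
    (k2 : s * g2 = b ^ 2 * c' * a' - b' ^ 2 * c * a)
    (k3 : s * g3 = c ^ 2 * a' * b' - c' ^ 2 * a * b)
    (l : xp = a * b * c + a' * b' * c') :
    (3 * ((a * a') * (b * b') * (c * c')) + s ^ 2 * p ^ 2) * (y1 * y2 * y3 - p ^ 3) =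
    xp * (a * a' * g1 * y2 * y3 + b * b' * g2 * y3 * y1 + c * c' * g3 * y1 * y2) -
      (a * a' * (b * b') * g1 * g2 * y3 + b * b' * (c * c') * g2 * g3 * y1 +
        c * c' * (a * a') * g3 * g1 * y2) := by
  have e : s ^ 3 * ((3 * ((a * a') * (b * b') * (c * c')) + s ^ 2 * p ^ 2) *
      (y1 * y2 * y3 - p ^ 3)) =
      s ^ 3 * (xp * (a * a' * g1 * y2 * y3 + b * b' * g2 * y3 * y1 + c * c' * g3 * y1 * y2) -
      (a * a' * (b * b') * g1 * g2 * y3 + b * b' * (c * c') * g2 * g3 * y1 +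
        c * c' * (a * a') * g3 * g1 * y2)) := by
    calc s ^ 3 * ((3 * ((a * a') * (b * b') * (c * c')) + s ^ 2 * p ^ 2) *
          (y1 * y2 * y3 - p ^ 3))
        = (3 * ((a * a') * (b * b') * (c * c')) + (s * p) ^ 2) *
          ((s * y1) * (s * y2) * (s * y3) - (s * p) ^ 3) := by ring
      _ = xp * (a * a' * (s * g1) * (s * y2) * (s * y3) + b * b' * (s * g2) * (s * y3) * (s * y1) +
            c * c' * (s * g3) * (s * y1) * (s * y2)) -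
          (a * a' * (b * b') * (s * g1) * (s * g2) * (s * y3) +
            b * b' * (c * c') * (s * g2) * (s * g3) * (s * y1) +
            c * c' * (a * a') * (s * g3) * (s * g1) * (s * y2)) := by
          rw [hp, h1, h2, h3, k1, k2, k3, l]; ring
      _ = s ^ 3 * (xp * (a * a' * g1 * y2 * y3 + b * b' * g2 * y3 * y1 + c * c' * g3 * y1 * y2) -
            (a * a' * (b * b') * g1 * g2 * y3 + b * b' * (c * c') * g2 * g3 * y1 +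
            c * c' * (a * a') * g3 * g1 * y2)) := by ring
  exact mul_left_cancel₀ (pow_ne_zero 3 hs) e

end Pool.Agent.SMI
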